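import Pool.Agent.Lib.MP_0430e4_lc.TensorCert

/-!
# The exponent of the tensorisable certificates
-/

set_option autoImplicit false
set_option linter.unusedSectionVars false

namespace Pool.Agent.Lib.MP_0430e4_lc.Tensor

open Finset Filter Topology

/-- `log₂ Λ(n, (1 - 2δ) n)` -/
noncomputable def lexp (δ : ℝ) (n : ℕ) : ℝ := Real.logb 2 (Lam n ((1 - 2 * δ) * n))

theorem level_le {δ : ℝ} (hδ : 0 ≤ δ) (n : ℕ) : (1 - 2 * δ) * n ≤ n := by
  have : (0 : ℝ) ≤ n := Nat.cast_nonneg n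
  nlinarith

theorem lexp_nonneg {δ : ℝ} (hδ : 0 ≤ δ) (n : ℕ) : 0 ≤ lexp δ n :=
  Real.logb_nonneg (by norm_num) (one_le_lam (level_le hδ n))

theorem lexp_subadd {δ : ℝ} (hδ : 0 ≤ δ) : Subadditive (lexp δ) := by
  intro m n
  unfold lexp
  have h1 := one_le_lam (level_le hδ m)
  have h2 := one_le_lam (level_le hδ n)
  have h3 := one_le_lam (level_le hδ (m + n))
  rw [← Real.logb_mul (by linarith) (by linarith)]
  apply Real.logb_le_logb_of_le (by norm_num) (by linarith)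
  have := lam_mul (level_le hδ m) (level_le hδ n)
  rw [← mul_add] at this
  push_cast
  exact this

theorem lexp_bdd {δ : ℝ} (hδ : 0 ≤ δ) : BddBelow (Set.range fun n : ℕ => lexp δ n / n) := by
  refine ⟨0, ?_⟩
  rintro _ ⟨n, rfl⟩
  exact div_nonneg (lexp_nonneg hδ n) (Nat.cast_nonneg n)

/-- the exponent -/
noncomputable def ell (δ : ℝ) : ℝ := sInf ((fun n : ℕ => lexp δ n / n) '' Set.Ici 1)

theorem ell_eq {δ : ℝ} (hδ : 0 ≤ δ) : ell δ = (lexp_subadd hδ).lim := by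
  rw [Subadditive.lim]
  rfl

theorem tendsto_ell {δ : ℝ} (hδ : 0 ≤ δ) :
    Tendsto (fun n : ℕ => lexp δ n / n) atTop (𝓝 (ell δ)) := by
  rw [ell_eq hδ]
  exact (lexp_subadd hδ).tendsto_lim (lexp_bdd hδ)

theorem ell_le {δ : ℝ} (hδ : 0 ≤ δ) {n : ℕ} (hn : 1 ≤ n) : ell δ ≤ lexp δ n / n := by
  rw [ell_eq hδ]
  exact (lexp_subadd hδ).lim_le_div (lexp_bdd hδ) (by omega)

theorem ell_nonneg {δ : ℝ} (hδ : 0 ≤ δ) : 0 ≤ ell δ := by
  apply Real.sInf_nonneg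
  rintro _ ⟨m, -, rfl⟩
  exact div_nonneg (lexp_nonneg hδ m) (Nat.cast_nonneg m)

/-- a single certificate bounds the exponent -/
theorem ell_le_of_cert {δ : ℝ} (hδ : 0 ≤ δ) {n : ℕ} (hn : 1 ≤ n) {h : (Fin n → Bool) → ℝ}
    (hh : IsCert ((1 - 2 * δ) * n) h) : ell δ ≤ Real.logb 2 (val h) / n := by
  refine (ell_le hδ hn).trans ?_
  unfold lexp
  gcongr
  · norm_num
  · exact lt_of_lt_of_le one_pos (one_le_lam (level_le hδ n))
  · exact lam_le_of_cert hh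

theorem lexp_add_le {δ δ₁ δ₂ : ℝ} (hδ : 0 ≤ δ) (hδ₁ : 0 ≤ δ₁) (hδ₂ : 0 ≤ δ₂) {n m : ℕ}
    (h : δ₁ * n + δ₂ * m ≤ δ * (n + m : ℕ)) : lexp δ (n + m) ≤ lexp δ₁ n + lexp δ₂ m := by
  unfold lexp
  have h1 := one_le_lam (level_le hδ₁ n)
  have h2 := one_le_lam (level_le hδ₂ m)
  have h3 := one_le_lam (level_le hδ (n + m))
  rw [← Real.logb_mul (by linarith) (by linarith)]
  apply Real.logb_le_logb_of_le (by norm_num) (by linarith)
  refine le_trans (lam_mono ?_ ?_) (lam_mul (level_le hδ₁ n) (level_le hδ₂ m))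
  · push_cast at h ⊢
    linarith
  · have e1 := level_le hδ₁ n
    have e2 := level_le hδ₂ m
    push_cast
    linarith

theorem ell_convex_aux {δ₁ δ₂ t : ℝ} (hδ₁ : 0 ≤ δ₁) (hδ : δ₁ ≤ δ₂) (ht0 : 0 < t) (ht1 : t < 1) :
    ell (t * δ₁ + (1 - t) * δ₂) ≤ t * ell δ₁ + (1 - t) * ell δ₂ := by
  have hδ₂ : 0 ≤ δ₂ := hδ₁.trans hδ
  have hδ0 : 0 ≤ t * δ₁ + (1 - t) * δ₂ := by
    have : 0 ≤ 1 - t := by linarith
    positivity
  set n : ℕ → ℕ := fun N => ⌈t * (N : ℝ)⌉₊ with hn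
  set m : ℕ → ℕ := fun N => N - n N with hm
  have hnN : ∀ N, n N ≤ N := by
    intro N
    apply Nat.ceil_le.2
    have : (0 : ℝ) ≤ N := Nat.cast_nonneg _
    nlinarith
  have hsum : ∀ N, n N + m N = N := fun N => Nat.add_sub_cancel' (hnN N)
  have htn : Tendsto (fun N => ((n N : ℕ) : ℝ) / N) atTop (𝓝 t) :=
    (tendsto_nat_ceil_mul_div_atTop ht0.le).comp tendsto_natCast_atTop_atTop
  have hn_top : Tendsto n atTop atTop :=
    tendsto_nat_ceil_atTop.comp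
      ((tendsto_natCast_atTop_atTop (R := ℝ)).const_mul_atTop ht0)
  have hmcast : ∀ N, ((m N : ℕ) : ℝ) = N - n N := by
    intro N
    rw [hm, Nat.cast_sub (hnN N)]
  have hm_top : Tendsto m atTop atTop := by
    rw [← tendsto_natCast_atTop_iff (R := ℝ)]
    have h9 : Tendsto (fun N : ℕ => (1 - t) * (N : ℝ) + (-1)) atTop atTop :=
      tendsto_atTop_add_const_right _ _
        ((tendsto_natCast_atTop_atTop (R := ℝ)).const_mul_atTop (by linarith))
    apply tendsto_atTop_mono _ h9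
    intro N
    have h2 : ((n N : ℕ) : ℝ) < t * N + 1 := Nat.ceil_lt_add_one (by positivity)
    rw [hmcast]
    linarith
  have htm : Tendsto (fun N => ((m N : ℕ) : ℝ) / N) atTop (𝓝 (1 - t)) := by
    have h2 : Tendsto (fun N => 1 - ((n N : ℕ) : ℝ) / N) atTop (𝓝 (1 - t)) := htn.const_sub 1
    apply h2.congr'
    filter_upwards [eventually_ge_atTop 1] with N hN
    have hN0 : (0 : ℝ) < N := by exact_mod_cast hN
    rw [hmcast]
    field_simp
  have hL1 := (tendsto_ell hδ₁).comp hn_top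
  have hL2 := (tendsto_ell hδ₂).comp hm_top
  have hR := (htn.mul hL1).add (htm.mul hL2)
  have hL := tendsto_ell hδ0
  apply le_of_tendsto_of_tendsto hL hR
  filter_upwards [hn_top.eventually_ge_atTop 1, hm_top.eventually_ge_atTop 1] with N hN1 hN2
  have h3 : δ₁ * n N + δ₂ * m N ≤ (t * δ₁ + (1 - t) * δ₂) * (n N + m N : ℕ) := by
    have h2 : t * N ≤ ((n N : ℕ) : ℝ) := Nat.le_ceil _
    rw [hsum N, hmcast]
    nlinarith
  have h4 := lexp_add_le hδ0 hδ₁ hδ₂ h3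
  simp only [hsum N] at h4
  have h5 : (0 : ℝ) < n N := by exact_mod_cast hN1
  have h6 : (0 : ℝ) < m N := by exact_mod_cast hN2
  have h7 : (0 : ℝ) < N := by
    have : 1 ≤ N := hN1.trans (hnN N)
    exact_mod_cast this
  simp only [Function.comp]
  have e1 : ((n N : ℕ) : ℝ) / N * (lexp δ₁ (n N) / (n N : ℕ))
      + ((m N : ℕ) : ℝ) / N * (lexp δ₂ (m N) / (m N : ℕ)) = (lexp δ₁ (n N) + lexp δ₂ (m N)) / N := by
    field_simp
  rw [e1]
  gcongr

theorem ell_convexOn : ConvexOn ℝ (Set.Ici 0) ell := by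
  refine ⟨convex_Ici 0, ?_⟩
  intro x hx y hy a b ha hb hab
  rw [Set.mem_Ici] at hx hy
  simp only [smul_eq_mul]
  rcases ha.eq_or_lt with rfl | ha
  · rw [zero_add] at hab
    subst hab
    simp
  rcases hb.eq_or_lt with rfl | hb
  · rw [add_zero] at hab
    subst hab
    simp
  rcases le_total x y with h | h
  · have hb' : b = 1 - a := by linarith
    subst hb'
    exact ell_convex_aux hx h ha (by linarith)
  · have ha' : a = 1 - b := by linarith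
    subst ha'
    rw [add_comm, add_comm ((1 - b) * ell x)]
    exact ell_convex_aux hy h hb (by linarith)

theorem ell_continuousOn : ContinuousOn ell (Set.Ioi 0) := by
  have := ell_convexOn.continuousOn_interior
  rwa [interior_Ici] at this

/-- code sizes -/
noncomputable def maxCode (n d : ℕ) : ℕ :=
  sSup {m : ℕ | ∃ C : Finset (Fin n → Bool),
    (∀ x ∈ C, ∀ y ∈ C, x ≠ y → d ≤ hammingDist x y) ∧ C.card = m}

theorem maxCode_attained (n d : ℕ) : ∃ C : Finset (Fin n → Bool),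
    (∀ x ∈ C, ∀ y ∈ C, x ≠ y → d ≤ hammingDist x y) ∧ C.card = maxCode n d := by
  have hne : {m : ℕ | ∃ C : Finset (Fin n → Bool),
    (∀ x ∈ C, ∀ y ∈ C, x ≠ y → d ≤ hammingDist x y) ∧ C.card = m}.Nonempty :=
    ⟨0, ∅, by simp, by simp⟩
  have hb : BddAbove {m : ℕ | ∃ C : Finset (Fin n → Bool),
    (∀ x ∈ C, ∀ y ∈ C, x ≠ y → d ≤ hammingDist x y) ∧ C.card = m} := by
    refine ⟨Fintype.card (Fin n → Bool), ?_⟩
    rintro m ⟨C, -, rfl⟩
    exact Finset.card_le_univ C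
  exact Nat.sSup_mem hne hb

theorem one_le_maxCode (n d : ℕ) : 1 ≤ maxCode n d := by
  have hb : BddAbove {m : ℕ | ∃ C : Finset (Fin n → Bool),
    (∀ x ∈ C, ∀ y ∈ C, x ≠ y → d ≤ hammingDist x y) ∧ C.card = m} := by
    refine ⟨Fintype.card (Fin n → Bool), ?_⟩
    rintro m ⟨C, -, rfl⟩
    exact Finset.card_le_univ C
  apply le_csSup hb
  refine ⟨{fun _ => false}, ?_, by simp⟩
  intro x hx y hy hxy
  simp only [Finset.mem_singleton] at hx hy
  exact absurd (hx.trans hy.symm) hxy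

theorem maxCode_le {δ δ' : ℝ} (hδ' : 0 ≤ δ') (h : δ' < δ) (h1 : δ < 1 / 2) {n : ℕ} (hn : 1 ≤ n) :
    (maxCode n ⌈δ * n⌉₊ : ℝ) ≤ (1 / (δ - δ')) * Lam n ((1 - 2 * δ') * n) := by
  obtain ⟨C, hC, hcard⟩ := maxCode_attained n ⌈δ * n⌉₊
  have hn0 : (0 : ℝ) < n := by exact_mod_cast hn
  have hc : δ * n ≤ (⌈δ * n⌉₊ : ℝ) := Nat.le_ceil _
  have hcn : (⌈δ * n⌉₊ : ℝ) ≤ n := by
    have : ⌈δ * n⌉₊ ≤ n := by
      apply Nat.ceil_le.2
      nlinarith
    exact_mod_cast this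
  have hlt : (n : ℝ) - 2 * (⌈δ * n⌉₊ : ℝ) < (1 - 2 * δ') * n := by nlinarith
  have h2 := card_le_lam (level_le hδ' n) C ⌈δ * n⌉₊ hC hlt
  rw [hcard] at h2
  have hL := one_le_lam (level_le hδ' n)
  have h3 : 2 * ((δ - δ') * n) ≤ (1 - 2 * δ') * n - (n - 2 * (⌈δ * n⌉₊ : ℝ)) := by nlinarith
  have h4 : (maxCode n ⌈δ * n⌉₊ : ℝ) * (2 * ((δ - δ') * n))
      ≤ 2 * n * Lam n ((1 - 2 * δ') * n) := by
    calc (maxCode n ⌈δ * n⌉₊ : ℝ) * (2 * ((δ - δ') * n))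
        ≤ (maxCode n ⌈δ * n⌉₊ : ℝ) * ((1 - 2 * δ') * n - (n - 2 * (⌈δ * n⌉₊ : ℝ))) := by
          gcongr
      _ ≤ 2 * (⌈δ * n⌉₊ : ℝ) * Lam n ((1 - 2 * δ') * n) := h2
      _ ≤ 2 * n * Lam n ((1 - 2 * δ') * n) := by
          gcongr
  have h5 : 0 < δ - δ' := by linarith
  rw [one_div, ← div_eq_inv_mul, le_div_iff₀ h5]
  have h6 : (2 * (n : ℝ)) * ((maxCode n ⌈δ * n⌉₊ : ℝ) * (δ - δ'))
      ≤ (2 * n) * Lam n ((1 - 2 * δ') * n) := by
    linarith
  exact le_of_mul_le_mul_left h6 (by positivity)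

theorem limsup_le_ell_of_lt {δ δ' : ℝ} (hδ' : 0 ≤ δ') (h : δ' < δ) (h1 : δ < 1 / 2) :
    limsup (fun n : ℕ => Real.logb 2 (maxCode n ⌈δ * n⌉₊) / n) atTop ≤ ell δ' := by
  have h5 : 0 < δ - δ' := by linarith
  have hlim : Tendsto (fun n : ℕ => Real.logb 2 (1 / (δ - δ')) / (n : ℝ) + lexp δ' n / n) atTop
      (𝓝 (0 + ell δ')) :=
    (tendsto_const_div_atTop_nhds_zero_nat _).add (tendsto_ell hδ')
  rw [zero_add] at hlim
  rw [← hlim.limsup_eq]
  apply limsup_le_limsup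
  · filter_upwards [eventually_ge_atTop 1] with n hn
    have hpos : (0 : ℝ) < maxCode n ⌈δ * n⌉₊ := by exact_mod_cast one_le_maxCode _ _
    have h4 := Real.logb_le_logb_of_le (b := 2) (by norm_num) hpos (maxCode_le hδ' h h1 hn)
    have hL := one_le_lam (level_le hδ' n)
    rw [Real.logb_mul (by positivity) (by linarith)] at h4
    rw [← add_div]
    unfold lexp
    gcongr
  · apply IsCoboundedUnder.of_frequently_ge (a := 0)
    apply Eventually.frequently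
    filter_upwards with n
    exact div_nonneg (Real.logb_nonneg (by norm_num) (by exact_mod_cast one_le_maxCode _ _))
      (Nat.cast_nonneg _)
  · exact hlim.isBoundedUnder_le

theorem limsup_le_ell {δ : ℝ} (hδ : 0 < δ) (h1 : δ < 1 / 2) :
    limsup (fun n : ℕ => Real.logb 2 (maxCode n ⌈δ * n⌉₊) / n) atTop ≤ ell δ := by
  have hc : ContinuousAt ell δ := ell_continuousOn.continuousAt (Ioi_mem_nhds hδ)
  have ht : Tendsto ell (𝓝[<] δ) (𝓝 (ell δ)) := hc.tendsto.mono_left nhdsWithin_le_nhds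
  apply ge_of_tendsto ht
  have : Set.Ioo 0 δ ∈ 𝓝[<] δ := Ioo_mem_nhdsLT hδ
  filter_upwards [this] with x hx
  exact limsup_le_ell_of_lt hx.1.le hx.2 h1

end Pool.Agent.Lib.MP_0430e4_lc.Tensor
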