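import Mathlib

/-!
# Entropy bounds for binomial coefficients
-/

set_option autoImplicit false

namespace Pool.Agent.Lib.MP_0430e4_lc.Tensor

open Finset Filter Topology

theorem pow_eq_exp {x : ℝ} (hx : 0 < x) (t : ℕ) : x ^ t = Real.exp (t * Real.log x) := by
  rw [Real.exp_nat_mul, Real.exp_log hx]

theorem card_small_le {n m : ℕ} {p : ℝ} (hp0 : 0 < p) (hp : p ≤ 1 / 2) (hm : (m : ℝ) ≤ p * n) :
    ((univ.filter fun T : Finset (Fin n) => T.card < m + 1).card : ℝ)
      ≤ Real.exp (n * Real.binEntropy p) := by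
  have hp1 : 0 < 1 - p := by linarith
  have h1 := Fintype.sum_pow_mul_eq_add_pow (Fin n) p (1 - p)
  rw [add_sub_cancel, one_pow, Fintype.card_fin] at h1
  have h2 : ∀ T ∈ (univ.filter fun T : Finset (Fin n) => T.card < m + 1),
      Real.exp (-(n * Real.binEntropy p)) ≤ p ^ T.card * (1 - p) ^ (n - T.card) := by
    intro T hT
    rw [Finset.mem_filter] at hT
    have hTn : T.card ≤ n := by
      have := Finset.card_le_univ T
      rwa [Fintype.card_fin] at this
    rw [pow_eq_exp hp0, pow_eq_exp hp1, ← Real.exp_add, Nat.cast_sub hTn]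
    apply Real.exp_le_exp.2
    have hT2 : (T.card : ℝ) ≤ m := by exact_mod_cast Nat.lt_succ_iff.1 hT.2
    have hlog : Real.log p ≤ Real.log (1 - p) := Real.log_le_log hp0 (by linarith)
    have hT3 : (T.card : ℝ) ≤ p * n := hT2.trans hm
    unfold Real.binEntropy
    rw [Real.log_inv, Real.log_inv]
    nlinarith [mul_nonneg (sub_nonneg.2 hT3) (sub_nonneg.2 hlog)]
  have h3 : ((univ.filter fun T : Finset (Fin n) => T.card < m + 1).card : ℝ)
      * Real.exp (-(n * Real.binEntropy p)) ≤ 1 := by
    rw [← nsmul_eq_mul, ← Finset.sum_const, ← h1]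
    refine (Finset.sum_le_sum h2).trans ?_
    apply Finset.sum_le_sum_of_subset_of_nonneg (Finset.filter_subset _ _)
    intro T _ _
    positivity
  rw [Real.exp_neg] at h3
  have h4 := Real.exp_pos (n * Real.binEntropy p)
  rwa [mul_inv_le_iff₀ h4, one_mul] at h3

theorem term_le_up {n w k : ℕ} (hk : k + 1 ≤ w) (hw : w ≤ n) :
    w ^ k * (n - w) ^ (n - k) * n.choose k ≤ w ^ (k + 1) * (n - w) ^ (n - (k + 1)) * n.choose (k + 1) := by
  have h1 : n - k = (n - (k + 1)) + 1 := by omega
  rw [h1, pow_succ, pow_succ]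
  have h2 : (n - w) * n.choose k ≤ w * n.choose (k + 1) := by
    have h3 := Nat.choose_succ_right_eq n k
    have h4 : (n - w) * (k + 1) ≤ w * (n - k) := by
      calc (n - w) * (k + 1) ≤ (n - k) * w := Nat.mul_le_mul (by omega) hk
        _ = w * (n - k) := Nat.mul_comm _ _
    have h5 : ((n - w) * n.choose k) * (k + 1) ≤ (w * n.choose (k + 1)) * (k + 1) := by
      calc ((n - w) * n.choose k) * (k + 1) = ((n - w) * (k + 1)) * n.choose k := by ring
        _ ≤ (w * (n - k)) * n.choose k := Nat.mul_le_mul_right _ h4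
        _ = w * (n.choose k * (n - k)) := by ring
        _ = w * (n.choose (k + 1) * (k + 1)) := by rw [h3]
        _ = (w * n.choose (k + 1)) * (k + 1) := by ring
    exact Nat.le_of_mul_le_mul_right h5 (Nat.succ_pos k)
  calc w ^ k * ((n - w) ^ (n - (k + 1)) * (n - w)) * n.choose k
      = (w ^ k * (n - w) ^ (n - (k + 1))) * ((n - w) * n.choose k) := by ring
    _ ≤ (w ^ k * (n - w) ^ (n - (k + 1))) * (w * n.choose (k + 1)) := Nat.mul_le_mul_left _ h2
    _ = _ := by ring

theorem term_le_down {n w k : ℕ} (hk : w ≤ k) (hkn : k + 1 ≤ n) :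
    w ^ (k + 1) * (n - w) ^ (n - (k + 1)) * n.choose (k + 1) ≤ w ^ k * (n - w) ^ (n - k) * n.choose k := by
  have h1 : n - k = (n - (k + 1)) + 1 := by omega
  rw [h1, pow_succ, pow_succ]
  have h2 : w * n.choose (k + 1) ≤ (n - w) * n.choose k := by
    have h3 := Nat.choose_succ_right_eq n k
    have h4 : w * (n - k) ≤ (n - w) * (k + 1) := by
      calc w * (n - k) ≤ (k + 1) * (n - w) := Nat.mul_le_mul (by omega) (by omega)
        _ = (n - w) * (k + 1) := Nat.mul_comm _ _
    have h5 : (w * n.choose (k + 1)) * (k + 1) ≤ ((n - w) * n.choose k) * (k + 1) := by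
      calc (w * n.choose (k + 1)) * (k + 1) = w * (n.choose (k + 1) * (k + 1)) := by ring
        _ = w * (n.choose k * (n - k)) := by rw [h3]
        _ = (w * (n - k)) * n.choose k := by ring
        _ ≤ ((n - w) * (k + 1)) * n.choose k := Nat.mul_le_mul_right _ h4
        _ = ((n - w) * n.choose k) * (k + 1) := by ring
    exact Nat.le_of_mul_le_mul_right h5 (Nat.succ_pos k)
  calc (w ^ k * w) * (n - w) ^ (n - (k + 1)) * n.choose (k + 1)
      = (w ^ k * (n - w) ^ (n - (k + 1))) * (w * n.choose (k + 1)) := by ring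
    _ ≤ (w ^ k * (n - w) ^ (n - (k + 1))) * ((n - w) * n.choose k) := Nat.mul_le_mul_left _ h2
    _ = _ := by ring

theorem term_le {n w k : ℕ} (hw : w ≤ n) (hk : k ≤ n) :
    w ^ k * (n - w) ^ (n - k) * n.choose k ≤ w ^ w * (n - w) ^ (n - w) * n.choose w := by
  rcases le_total k w with h | h
  · obtain ⟨d, rfl⟩ := Nat.exists_eq_add_of_le h
    clear hk h
    induction d generalizing k with
    | zero => exact le_rfl
    | succ d ih =>
      have h1 := term_le_up (n := n) (w := k + (d + 1)) (k := k) (by omega) hw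
      have h2 := ih (k := k + 1) (by omega)
      rw [show k + 1 + d = k + (d + 1) by omega] at h2
      exact h1.trans h2
  · obtain ⟨d, rfl⟩ := Nat.exists_eq_add_of_le h
    clear hw h
    induction d with
    | zero => exact le_rfl
    | succ d ih =>
      have h1 := term_le_down (n := n) (w := w) (k := w + d) (by omega) (by omega)
      exact h1.trans (ih (by omega))

theorem pow_le_choose {n w : ℕ} (hw : w ≤ n) :
    n ^ n ≤ (n + 1) * (w ^ w * (n - w) ^ (n - w) * n.choose w) := by
  have h1 : n ^ n = ∑ k ∈ range (n + 1), w ^ k * (n - w) ^ (n - k) * n.choose k := by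
    have h := add_pow w (n - w) n
    rw [Nat.add_sub_cancel' hw] at h
    simpa using h
  rw [h1]
  calc ∑ k ∈ range (n + 1), w ^ k * (n - w) ^ (n - k) * n.choose k
      ≤ ∑ k ∈ range (n + 1), w ^ w * (n - w) ^ (n - w) * n.choose w := by
        apply Finset.sum_le_sum
        intro k hk
        rw [Finset.mem_range] at hk
        exact term_le hw (by omega)
    _ = _ := by rw [Finset.sum_const, Finset.card_range, smul_eq_mul]

theorem entropy_le_log_choose {n w : ℕ} (hw0 : 0 < w) (hw : w < n) :
    n * Real.binEntropy (w / n) ≤ Real.log (n + 1) + Real.log (n.choose w) := by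
  have h1 := pow_le_choose hw.le
  have hn0 : (0 : ℝ) < n := by exact_mod_cast (by omega : 0 < n)
  have hw0' : (0 : ℝ) < w := by exact_mod_cast hw0
  have hnw : (0 : ℝ) < (n : ℝ) - w := by
    have : (w : ℝ) < n := by exact_mod_cast hw
    linarith
  have hch : (0 : ℝ) < n.choose w := by exact_mod_cast Nat.choose_pos hw.le
  have h2 : (n : ℝ) ^ n ≤ (n + 1) * (w ^ w * ((n : ℝ) - w) ^ (n - w) * n.choose w) := by
    have h3 : ((n ^ n : ℕ) : ℝ) ≤ (((n + 1) * (w ^ w * (n - w) ^ (n - w) * n.choose w) : ℕ) : ℝ) := by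
      exact_mod_cast h1
    push_cast [Nat.cast_sub hw.le] at h3
    exact h3
  have h3 := Real.log_le_log (by positivity) h2
  rw [Real.log_mul (by positivity) (by positivity), Real.log_mul (by positivity) hch.ne',
    Real.log_mul (by positivity) (by positivity), Real.log_pow, Real.log_pow, Real.log_pow,
    Nat.cast_sub hw.le] at h3
  have h4 : n * Real.binEntropy (w / n) = n * Real.log n - w * Real.log w
      - (n - w) * Real.log (n - w) := by
    unfold Real.binEntropy
    have e1 : (1 : ℝ) - w / n = (n - w) / n := by field_simp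
    rw [e1, inv_div, inv_div, Real.log_div hn0.ne' hw0'.ne', Real.log_div hn0.ne' hnw.ne']
    field_simp
    ring
  rw [h4]
  linarith

end Pool.Agent.Lib.MP_0430e4_lc.Tensor
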