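import Mathlib

/-!
# Codes closed under a Boolean operation

Words are functions `ι → ZMod 2`; an operation `f : (κ → ZMod 2) → ZMod 2` acts coordinatewise.
-/

set_option autoImplicit false
set_option linter.unusedSectionVars false

namespace Pool.Agent.Lib.MP_0430e4_lc.Closed

open Finset

variable {ι κ : Type*} [Fintype ι] [DecidableEq ι] [Fintype κ] [DecidableEq κ]

/-- `C` is closed under the coordinatewise action of `f`. -/
def Cl (f : (κ → ZMod 2) → ZMod 2) (C : Finset (ι → ZMod 2)) : Prop :=
  ∀ w : κ → ι → ZMod 2, (∀ l, w l ∈ C) → (fun i => f (fun l => w l i)) ∈ C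

/-- distinct words of `C` are at distance at least `d` -/
def Dist (d : ℕ) (C : Finset (ι → ZMod 2)) : Prop := ∀ x ∈ C, ∀ y ∈ C, x ≠ y → d ≤ hammingDist x y

/-- `f` is affine -/
def Aff (f : (κ → ZMod 2) → ZMod 2) : Prop :=
  ∃ (c : ZMod 2) (a : κ → ZMod 2), ∀ x, f x = c + ∑ l, a l * x l

/-- derivative in direction `l` -/
def D (f : (κ → ZMod 2) → ZMod 2) (l : κ) (x : κ → ZMod 2) : ZMod 2 :=
  f (Function.update x l 1) - f (Function.update x l 0)

theorem zmod_cases (t : ZMod 2) : t = 0 ∨ t = 1 := by
  fin_cases t
  · left; rfl
  · right; rfl

theorem add_self (t : ZMod 2) : t + t = 0 := by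
  rcases zmod_cases t with rfl | rfl <;> decide

/-- if all derivatives are constant then `f` is affine -/
theorem aff_of_D (f : (κ → ZMod 2) → ZMod 2) (h : ∀ l x y, D f l x = D f l y) : Aff f := by
  refine ⟨f 0, fun l => D f l 0, ?_⟩
  have key : ∀ (s : Finset κ) (x : κ → ZMod 2), (∀ l ∉ s, x l = 0) →
      f x = f 0 + ∑ l ∈ s, D f l 0 * x l := by
    intro s
    induction s using Finset.induction_on with
    | empty =>
      intro x hx
      have : x = 0 := by
        funext l
        exact hx l (Finset.notMem_empty l)
      rw [this]
      simp
    | insert l s hl ih =>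
      intro x hx
      rw [Finset.sum_insert hl]
      have h0 := ih (Function.update x l 0) (by
        intro k hk
        by_cases hkl : k = l
        · subst hkl
          simp
        · rw [Function.update_of_ne hkl]
          exact hx k (by simp [hkl, hk]))
      have h1 : ∑ k ∈ s, D f k 0 * (Function.update x l 0) k = ∑ k ∈ s, D f k 0 * x k := by
        apply Finset.sum_congr rfl
        intro k hk
        rw [Function.update_of_ne (by rintro rfl; exact hl hk)]
      rw [h1] at h0
      rcases zmod_cases (x l) with hxl | hxl
      · have : Function.update x l 0 = x := by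
          rw [← hxl]
          exact Function.update_eq_self l x
        rw [this] at h0
        rw [h0, hxl]
        ring
      · have h2 : Function.update x l 1 = x := by
          rw [← hxl]
          exact Function.update_eq_self l x
        have h3 : D f l x = D f l 0 := h l x 0
        rw [show D f l x = f (Function.update x l 1) - f (Function.update x l 0) from rfl,
          h2, h0] at h3
        rw [hxl]
        linear_combination h3
  intro x
  exact key Finset.univ x (fun l hl => absurd (Finset.mem_univ l) hl)

theorem exists_D {f : (κ → ZMod 2) → ZMod 2} (hf : ¬ Aff f) : ∃ l x y, D f l x ≠ D f l y := by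
  by_contra hne
  push Not at hne
  exact hf (aff_of_D f hne)

theorem D_update (f : (κ → ZMod 2) → ZMod 2) (l : κ) (x : κ → ZMod 2) (s t : ZMod 2) (hst : s ≠ t) :
    f (Function.update x l s) - f (Function.update x l t) = D f l x := by
  unfold D
  rcases zmod_cases s with rfl | rfl <;> rcases zmod_cases t with rfl | rfl
  · exact absurd rfl hst
  · have h1 := add_self (f (Function.update x l 0) - f (Function.update x l 1))
    linear_combination h1
  · rfl
  · exact absurd rfl hst

/-- The key point: on the support of a minimum distance pair every word has one of two values. -/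
theorem two_values {f : (κ → ZMod 2) → ZMod 2} (hf : ¬ Aff f) {C : Finset (ι → ZMod 2)}
    (hC : Cl f C) {x y : ι → ZMod 2} (hx : x ∈ C) (hy : y ∈ C) (_hxy : x ≠ y)
    (hmin : Dist (hammingDist x y) C) {z : ι → ZMod 2} (hz : z ∈ C) :
    (∀ i, x i ≠ y i → z i = x i) ∨ (∀ i, x i ≠ y i → z i = y i) := by
  obtain ⟨l, u, v, huv⟩ := exists_D hf
  -- constancy
  have hconst : ∀ w : κ → ι → ZMod 2, (∀ k, w k ∈ C) → ∀ i j, x i ≠ y i → x j ≠ y j →
      D f l (fun k => w k i) = D f l (fun k => w k j) := by
    intro w hw i j hi hj
    set wx : κ → ι → ZMod 2 := Function.update w l x with hwx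
    set wy : κ → ι → ZMod 2 := Function.update w l y with hwy
    have e : ∀ (t : ι → ZMod 2) (i : ι), (fun k => (Function.update w l t) k i)
        = Function.update (fun k => w k i) l (t i) := by
      intro t i
      funext k
      by_cases hk : k = l
      · subst hk
        simp
      · rw [Function.update_of_ne hk, Function.update_of_ne hk]
    set X : ι → ZMod 2 := fun i => f (fun k => wx k i) with hX
    set Y : ι → ZMod 2 := fun i => f (fun k => wy k i) with hY
    have hXC : X ∈ C := hC wx (by
      intro k
      by_cases hk : k = l
      · subst hk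
        rw [hwx, Function.update_self]
        exact hx
      · rw [hwx, Function.update_of_ne hk]
        exact hw k)
    have hYC : Y ∈ C := hC wy (by
      intro k
      by_cases hk : k = l
      · subst hk
        rw [hwy, Function.update_self]
        exact hy
      · rw [hwy, Function.update_of_ne hk]
        exact hw k)
    have hdiff : ∀ i, x i ≠ y i → X i - Y i = D f l (fun k => w k i) := by
      intro i hi
      rw [hX, hY]
      simp only [hwx, hwy, e]
      exact D_update f l _ _ _ hi
    have hsame : ∀ i, x i = y i → X i = Y i := by
      intro i hi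
      rw [hX, hY]
      simp only [hwx, hwy, e, hi]
    by_cases hXY : X = Y
    · have h1 := hdiff i hi
      have h2 := hdiff j hj
      rw [hXY, sub_self] at h1 h2
      rw [← h1, ← h2]
    · have h3 := hmin X hXC Y hYC hXY
      have hsub : (univ.filter fun i => X i ≠ Y i) ⊆ (univ.filter fun i => x i ≠ y i) := by
        intro i hi
        simp only [Finset.mem_filter, Finset.mem_univ, true_and] at hi ⊢
        intro h
        exact hi (hsame i h)
      have heq := Finset.eq_of_subset_of_card_le hsub h3
      have h4 : ∀ i, x i ≠ y i → D f l (fun k => w k i) = 1 := by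
        intro i hi
        have : i ∈ (univ.filter fun i => X i ≠ Y i) := by
          rw [heq]
          simpa using hi
        simp only [Finset.mem_filter, Finset.mem_univ, true_and] at this
        rw [← hdiff i hi]
        rcases zmod_cases (X i - Y i) with h | h
        · exact absurd (sub_eq_zero.1 h) this
        · exact h
      rw [h4 i hi, h4 j hj]
  by_contra hne
  push Not at hne
  obtain ⟨⟨i, hi, hzi⟩, ⟨j, hj, hzj⟩⟩ := hne
  have hzi' : z i = y i := by
    rcases zmod_cases (z i) with h1 | h1 <;> rcases zmod_cases (x i) with h2 | h2 <;>
      rcases zmod_cases (y i) with h3 | h3 <;> simp_all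
  have hzj' : z j = x j := by
    rcases zmod_cases (z j) with h1 | h1 <;> rcases zmod_cases (x j) with h2 | h2 <;>
      rcases zmod_cases (y j) with h3 | h3 <;> simp_all
  have hall : ∀ a : κ → ZMod 2, D f l a = D f l (fun _ => x j) := by
    intro a
    have h1 := hconst (fun k => if a k = x i then x else z) (by
      intro k
      split_ifs
      · exact hx
      · exact hz) i j hi hj
    have e1 : (fun k => (if a k = x i then x else z) i) = a := by
      funext k
      split_ifs with h
      · exact h.symm
      · rw [hzi']
        rcases zmod_cases (a k) with h2 | h2 <;> rcases zmod_cases (x i) with h3 | h3 <;>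
          rcases zmod_cases (y i) with h4 | h4 <;> simp_all
    have e2 : (fun k => (if a k = x i then x else z) j) = fun _ => x j := by
      funext k
      split_ifs
      · rfl
      · exact hzj'
    rw [e1, e2] at h1
    exact h1
  exact huv ((hall u).trans (hall v).symm)

/-- The bound for idempotent operations. -/
theorem card_le_idem {f : (κ → ZMod 2) → ZMod 2} (hf : ¬ Aff f) (hid : ∀ t, f (fun _ => t) = t)
    {d : ℕ} (hd : 1 ≤ d) : ∀ (N : ℕ) (S : Finset ι), S.card = N → ∀ C : Finset (ι → ZMod 2),
      (∀ x ∈ C, ∀ y ∈ C, ∀ i ∉ S, x i = y i) → Cl f C → Dist d C → C.card ≤ 2 ^ (S.card / d) := by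
  intro N
  induction N using Nat.strong_induction_on with
  | _ N ih =>
    intro S hS C hSC hC hD
    rcases Nat.lt_or_ge 1 C.card with h1 | h1
    · -- a pair at minimum distance
      obtain ⟨x₀, hx₀, y₀, hy₀, hxy₀⟩ := Finset.one_lt_card.1 h1
      set T := (C ×ˢ C).filter (fun p => p.1 ≠ p.2) with hT
      have hTne : T.Nonempty := ⟨(x₀, y₀), by simp [hT, hx₀, hy₀, hxy₀]⟩
      obtain ⟨⟨x, y⟩, hp, hmin⟩ := Finset.exists_min_image T (fun p => hammingDist p.1 p.2) hTne
      rw [hT, Finset.mem_filter, Finset.mem_product] at hp
      obtain ⟨⟨hx, hy⟩, hxy⟩ := hp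
      simp only at hx hy hxy
      have hmin' : Dist (hammingDist x y) C := by
        intro u hu v hv huv
        exact hmin (u, v) (by simp [hT, hu, hv, huv])
      have h2v := fun (z : ι → ZMod 2) (hz : z ∈ C) => two_values hf hC hx hy hxy hmin' hz
      set P := univ.filter (fun i => x i ≠ y i) with hP
      have hPS : P ⊆ S := by
        intro i hi
        by_contra hiS
        rw [hP, Finset.mem_filter] at hi
        exact hi.2 (hSC x hx y hy i hiS)
      have hPd : d ≤ P.card := hD x hx y hy hxy
      have hcard : (S \ P).card = S.card - P.card := Finset.card_sdiff_of_subset hPS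
      have hPS' : P.card ≤ S.card := Finset.card_le_card hPS
      have hbound : ∀ t ∈ C, (C.filter fun z => ∀ i ∈ P, z i = t i).card
          ≤ 2 ^ ((S \ P).card / d) := by
        intro t _
        apply ih (S \ P).card (by omega) (S \ P) rfl
        · intro u hu v hv i hi
          rw [Finset.mem_filter] at hu hv
          by_cases hiP : i ∈ P
          · rw [hu.2 i hiP, hv.2 i hiP]
          · exact hSC u hu.1 v hv.1 i (by
              intro hiS
              exact hi (Finset.mem_sdiff.2 ⟨hiS, hiP⟩))
        · intro w hw
          rw [Finset.mem_filter]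
          refine ⟨hC w (fun l => (Finset.mem_filter.1 (hw l)).1), ?_⟩
          intro i hi
          have : (fun l => w l i) = fun _ => t i := by
            funext l
            exact (Finset.mem_filter.1 (hw l)).2 i hi
          simp only [this]
          exact hid _
        · intro u hu v hv huv
          exact hD u (Finset.mem_filter.1 hu).1 v (Finset.mem_filter.1 hv).1 huv
      have hunion : C ⊆ (C.filter fun z => ∀ i ∈ P, z i = x i) ∪
          (C.filter fun z => ∀ i ∈ P, z i = y i) := by
        intro z hz
        rw [Finset.mem_union, Finset.mem_filter, Finset.mem_filter]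
        rcases h2v z hz with h | h
        · left
          refine ⟨hz, fun i hi => h i ?_⟩
          rw [hP, Finset.mem_filter] at hi
          exact hi.2
        · right
          refine ⟨hz, fun i hi => h i ?_⟩
          rw [hP, Finset.mem_filter] at hi
          exact hi.2
      have h3 := (Finset.card_le_card hunion).trans (Finset.card_union_le _ _)
      have h4 := hbound x hx
      have h5 := hbound y hy
      have h6 : (S \ P).card / d + 1 ≤ S.card / d := by
        rw [hcard, ← Nat.add_div_right _ (by omega : 0 < d)]
        apply Nat.div_le_div_right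
        omega
      calc C.card ≤ 2 ^ ((S \ P).card / d) + 2 ^ ((S \ P).card / d) := by omega
        _ = 2 ^ ((S \ P).card / d + 1) := by rw [pow_succ]; ring
        _ ≤ 2 ^ (S.card / d) := Nat.pow_le_pow_right (by norm_num) h6
    · exact h1.trans (Nat.one_le_two_pow)

theorem card_le_idem' {f : (κ → ZMod 2) → ZMod 2} (hf : ¬ Aff f) (hid : ∀ t, f (fun _ => t) = t)
    {d : ℕ} (hd : 1 ≤ d) {C : Finset (ι → ZMod 2)} (hC : Cl f C) (hD : Dist d C) :
    C.card ≤ 2 ^ (Fintype.card ι / d) :=
  card_le_idem hf hid hd _ Finset.univ rfl C
    (fun _ _ _ _ i hi => absurd (Finset.mem_univ i) hi) hC hD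

theorem not_aff_and : ¬ Aff (fun u : Bool → ZMod 2 => u true * u false) := by
  rintro ⟨c, a, h⟩
  have h00 := h (fun _ => 0)
  have h10 := h (fun b => if b then 1 else 0)
  have h01 := h (fun b => if b then 0 else 1)
  have h11 := h (fun _ => 1)
  simp at h00 h10 h01 h11
  rw [← h00] at h10 h01 h11
  rw [zero_add] at h10 h01 h11
  rw [← h10, ← h01] at h11
  exact absurd h11 (by decide)

/-- constant zero diagonal -/
theorem card_le_zero {f : (κ → ZMod 2) → ZMod 2} (hf : ¬ Aff f) (h0 : f (fun _ => 0) = 0)
    (h1 : f (fun _ => 1) = 0) {d : ℕ} (hd : 1 ≤ d) {C : Finset (ι → ZMod 2)} (hC : Cl f C)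
    (hD : Dist d C) : C.card ≤ 2 ^ (Fintype.card ι / d) := by
  have hex : ∃ a, f a = 1 := by
    by_contra hne
    push Not at hne
    apply hf
    refine ⟨0, 0, fun x => ?_⟩
    rcases zmod_cases (f x) with h | h
    · simp [h]
    · exact absurd h (hne x)
  obtain ⟨a, ha⟩ := hex
  -- the binary minor
  have hb : ∀ x ∈ C, ∀ y ∈ C, (fun i => f (fun l => if a l = 1 then x i else y i)) ∈ C := by
    intro x hx y hy
    have := hC (fun l => if a l = 1 then x else y) (by
      intro l
      split_ifs
      · exact hx
      · exact hy)
    convert this using 2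
    congr 1
    funext l
    split_ifs <;> rfl
  have hval : ∀ s t : ZMod 2, f (fun l => if a l = 1 then s else t)
      = if s = 1 ∧ t = 0 then 1 else if s = 0 ∧ t = 1 then f (fun l => a l + 1) else 0 := by
    intro s t
    rcases zmod_cases s with rfl | rfl <;> rcases zmod_cases t with rfl | rfl
    · simp [h0]
    · have : (fun l => if a l = 1 then (0 : ZMod 2) else 1) = fun l => a l + 1 := by
        funext l
        rcases zmod_cases (a l) with h | h <;> simp [h]
        decide
      rw [this]
      simp
    · have : (fun l => if a l = 1 then (1 : ZMod 2) else 0) = a := by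
        funext l
        rcases zmod_cases (a l) with h | h <;> simp [h]
      rw [this, ha]
      simp
    · simp [h1]
  rcases zmod_cases (f (fun l => a l + 1)) with hc | hc
  · -- closed under and
    have hand : Cl (fun u : Bool → ZMod 2 => u true * u false) C := by
      intro w hw
      have e1 := hb (w true) (hw true) (w false) (hw false)
      have e2 := hb (w true) (hw true) _ e1
      convert e2 using 2 with i
      simp only [hval, hc]
      rcases zmod_cases (w true i) with h | h <;> rcases zmod_cases (w false i) with h' | h' <;>
        simp [h, h']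
    exact card_le_idem' not_aff_and (by
      intro t
      rcases zmod_cases t with rfl | rfl <;> decide) hd hand hD
  · -- closed under addition
    have hadd : ∀ x ∈ C, ∀ y ∈ C, x + y ∈ C := by
      intro x hx y hy
      convert hb x hx y hy using 2 with i
      simp only [hval, hc]
      rcases zmod_cases (x i) with h | h <;> rcases zmod_cases (y i) with h' | h' <;>
        simp [h, h']
      decide
    set g : (Option κ → ZMod 2) → ZMod 2 := fun u => f (fun l => u (some l) + u none) + u none
      with hg
    have hgid : ∀ t, g (fun _ => t) = t := by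
      intro t
      simp only [hg, add_self]
      rw [h0, zero_add]
    have hgaff : ¬ Aff g := by
      rintro ⟨c, b, hcb⟩
      apply hf
      refine ⟨c, fun l => b (some l), fun x => ?_⟩
      have := hcb (fun o => o.elim 0 x)
      simp only [hg, Option.elim_some, Option.elim_none, add_zero] at this
      rw [this, Fintype.sum_option]
      simp
    have hgC : Cl g C := by
      intro w hw
      have e1 : (fun i => f (fun l => w (some l) i + w none i)) ∈ C :=
        hC (fun l => w (some l) + w none) (fun l => hadd _ (hw _) _ (hw _))
      exact hadd _ e1 _ (hw none)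
    exact card_le_idem' hgaff hgid hd hgC hD

/-- translation by the all-one word -/
def shift (C : Finset (ι → ZMod 2)) : Finset (ι → ZMod 2) := C.image (fun x i => x i + 1)

theorem card_le_nonaffine {f : (κ → ZMod 2) → ZMod 2} (hf : ¬ Aff f) {d : ℕ} (hd : 1 ≤ d)
    {C : Finset (ι → ZMod 2)} (hC : Cl f C) (hD : Dist d C) :
    C.card ≤ 2 ^ (Fintype.card ι / d) := by
  rcases zmod_cases (f (fun _ => 0)) with h0 | h0 <;> rcases zmod_cases (f (fun _ => 1)) with h1 | h1
  · exact card_le_zero hf h0 h1 hd hC hD
  · exact card_le_idem' hf (by
      intro t
      rcases zmod_cases t with rfl | rfl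
      · exact h0
      · exact h1) hd hC hD
  · -- negation on the diagonal
    set g : (κ → ZMod 2) → ZMod 2 := fun x => f x + 1 with hg
    have hgid : ∀ t, g (fun _ => t) = t := by
      intro t
      rcases zmod_cases t with rfl | rfl
      · simp only [hg, h0]
        decide
      · simp only [hg, h1]
        decide
    have hgaff : ¬ Aff g := by
      rintro ⟨c, a, h⟩
      apply hf
      refine ⟨c + 1, a, fun x => ?_⟩
      have := h x
      simp only [hg] at this
      have e := add_self (1 : ZMod 2)
      linear_combination this - e
    have hgC : Cl g C := by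
      intro w hw
      have e1 := hC w hw
      have e2 := hC (fun _ => fun i => f (fun l => w l i)) (fun _ => e1)
      convert e2 using 2 with i
      simp only [hg]
      rcases zmod_cases (f (fun l => w l i)) with h | h <;> rw [h]
      · rw [h0]; decide
      · rw [h1]; decide
    exact card_le_idem' hgaff hgid hd hgC hD
  · -- constant one
    set g : (κ → ZMod 2) → ZMod 2 := fun x => f (fun l => x l + 1) + 1 with hg
    have hgaff : ¬ Aff g := by
      rintro ⟨c, a, h⟩
      apply hf
      refine ⟨c + 1 + ∑ l, a l, a, fun x => ?_⟩
      have := h (fun l => x l + 1)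
      simp only [hg] at this
      have e1 : (fun l => x l + 1 + 1) = x := by
        funext l
        rw [add_assoc, add_self, add_zero]
      rw [e1] at this
      have e2 : ∑ l, a l * (x l + 1) = ∑ l, a l * x l + ∑ l, a l := by
        rw [← Finset.sum_add_distrib]
        apply Finset.sum_congr rfl
        intro l _
        ring
      rw [e2] at this
      have e := add_self (1 : ZMod 2)
      linear_combination this - e
    have hinj : Function.Injective (fun (x : ι → ZMod 2) i => x i + 1) := by
      intro x y h
      funext i
      have := congrFun h i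
      simpa using this
    have hcard : (shift C).card = C.card := Finset.card_image_of_injective _ hinj
    rw [← hcard]
    apply card_le_zero hgaff _ _ hd (C := shift C)
    · intro w hw
      have hw' : ∀ l, (fun i => w l i + 1) ∈ C := by
        intro l
        obtain ⟨x, hx, hxw⟩ := Finset.mem_image.1 (hw l)
        have : (fun i => w l i + 1) = x := by
          funext i
          rw [← hxw, add_assoc, add_self, add_zero]
        rw [this]
        exact hx
      exact Finset.mem_image.2 ⟨_, hC _ hw', rfl⟩
    · intro u hu v hv huv
      obtain ⟨x, hx, rfl⟩ := Finset.mem_image.1 hu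
      obtain ⟨y, hy, rfl⟩ := Finset.mem_image.1 hv
      have hxy : x ≠ y := by
        rintro rfl
        exact huv rfl
      have := hD x hx y hy hxy
      refine this.trans (le_of_eq ?_)
      unfold hammingDist
      congr 1
      ext i
      simp
    · simp only [hg, zero_add]
      rw [h1]
      decide
    · simp only [hg]
      have e : (fun _ : κ => (1 : ZMod 2) + 1) = fun _ => 0 := by
        funext _
        decide
      rw [e, h0]
      decide

end Pool.Agent.Lib.MP_0430e4_lc.Closed
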