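import Pool.Agent.Lib.MP_0430e4_lc.Closed

/-!
# Codes closed under a Boolean operation: block codes and affine operations
-/

set_option autoImplicit false
set_option linter.unusedSectionVars false

namespace Pool.Agent.Lib.MP_0430e4_lc.Closed

open Finset

variable {κ : Type*} [Fintype κ] [DecidableEq κ]

/-- The block code is closed under everything. -/
theorem block_code (n d : ℕ) (hd : 1 ≤ d) (hn : d ≤ n) :
    ∃ C : Finset (Fin n → ZMod 2), (∀ (m : ℕ) (f : (Fin m → ZMod 2) → ZMod 2), Cl f C) ∧ Dist d C ∧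
      C.card = 2 ^ (n / d) := by
  have hq : 1 ≤ n / d := (Nat.one_le_div_iff (by omega)).2 hn
  set q := n / d with hqdef
  let b : Fin n → Fin q := fun i => ⟨min ((i : ℕ) / d) (q - 1), by omega⟩
  -- coordinates of a block
  have hqd : q * d ≤ n := Nat.div_mul_le_self n d
  have hlt : ∀ (j : Fin q) (r : Fin d), (j : ℕ) * d + r < n := by
    intro j r
    have h1 : ((j : ℕ) + 1) * d ≤ q * d := Nat.mul_le_mul_right d (by omega)
    have h2 : ((j : ℕ) + 1) * d = (j : ℕ) * d + d := by ring
    have := r.2
    omega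
  have hb : ∀ (j : Fin q) (r : Fin d), b ⟨(j : ℕ) * d + r, hlt j r⟩ = j := by
    intro j r
    apply Fin.ext
    show min (((j : ℕ) * d + r) / d) (q - 1) = j
    have : ((j : ℕ) * d + r) / d = j := by
      rw [Nat.add_comm, Nat.add_mul_div_right _ _ (by omega : 0 < d), Nat.div_eq_of_lt r.2]
      omega
    rw [this]
    have := j.2
    omega
  let φ : (Fin q → ZMod 2) → (Fin n → ZMod 2) := fun g i => g (b i)
  have hφ : Function.Injective φ := by
    intro g h hgh
    funext j
    have := congrFun hgh ⟨(j : ℕ) * d + (0 : ℕ), hlt j ⟨0, hd⟩⟩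
    have h1 := hb j ⟨0, hd⟩
    simp only [φ] at this
    rw [h1] at this
    exact this
  refine ⟨Finset.univ.image φ, ?_, ?_, ?_⟩
  · intro m f w hw
    have hw' : ∀ l, ∃ g, φ g = w l := by
      intro l
      obtain ⟨g, _, hg⟩ := Finset.mem_image.1 (hw l)
      exact ⟨g, hg⟩
    choose g hg using hw'
    refine Finset.mem_image.2 ⟨fun j => f (fun l => g l j), Finset.mem_univ _, ?_⟩
    funext i
    simp only [φ]
    congr 1
    funext l
    rw [← hg l]
  · intro x hx y hy hxy
    obtain ⟨g, _, rfl⟩ := Finset.mem_image.1 hx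
    obtain ⟨h, _, rfl⟩ := Finset.mem_image.1 hy
    have hne : g ≠ h := by
      rintro rfl
      exact hxy rfl
    obtain ⟨j, hj⟩ := Function.ne_iff.1 hne
    have : (Finset.univ.image (fun r : Fin d => (⟨(j : ℕ) * d + r, hlt j r⟩ : Fin n))) ⊆
        Finset.univ.filter (fun i => φ g i ≠ φ h i) := by
      intro i hi
      obtain ⟨r, _, rfl⟩ := Finset.mem_image.1 hi
      rw [Finset.mem_filter]
      refine ⟨Finset.mem_univ _, ?_⟩
      simp only [φ, hb]
      exact hj
    have h1 := Finset.card_le_card this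
    rw [Finset.card_image_of_injective _ (by
      intro r s hrs
      have : (j : ℕ) * d + r = (j : ℕ) * d + s := by
        simpa using hrs
      apply Fin.ext
      omega)] at h1
    simpa [hammingDist] using h1
  · rw [Finset.card_image_of_injective _ hφ]
    simp [ZMod.card]

/-- translate of a code -/
def trans {n : ℕ} (C : Finset (Fin n → ZMod 2)) (v : Fin n → ZMod 2) :
    Finset (Fin n → ZMod 2) := C.image (fun x => x + v)

theorem add_add_self {n : ℕ} (x v : Fin n → ZMod 2) : x + v + v = x := by
  funext i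
  simp only [Pi.add_apply]
  rw [add_assoc, add_self, add_zero]

theorem mem_trans {n : ℕ} {C : Finset (Fin n → ZMod 2)} {v x : Fin n → ZMod 2} :
    x ∈ trans C v ↔ x + v ∈ C := by
  unfold trans
  rw [Finset.mem_image]
  constructor
  · rintro ⟨y, hy, rfl⟩
    rw [add_add_self]
    exact hy
  · intro h
    exact ⟨_, h, add_add_self x v⟩

theorem card_trans {n : ℕ} (C : Finset (Fin n → ZMod 2)) (v : Fin n → ZMod 2) :
    (trans C v).card = C.card :=
  Finset.card_image_of_injective _ (fun _ _ h => add_right_cancel h)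

theorem dist_trans {n d : ℕ} {C : Finset (Fin n → ZMod 2)} (h : Dist d C) (v : Fin n → ZMod 2) :
    Dist d (trans C v) := by
  intro x hx y hy hxy
  rw [mem_trans] at hx hy
  have := h _ hx _ hy (fun e => hxy (add_right_cancel e))
  refine this.trans (le_of_eq ?_)
  unfold hammingDist
  congr 1
  ext i
  simp

theorem sSup_le_sSup_of {S T : Set ℕ} (hT : BddAbove T)
    (h : ∀ s ∈ S, s = 0 ∨ ∃ t ∈ T, s ≤ t) : sSup S ≤ sSup T := by
  rcases Set.eq_empty_or_nonempty S with rfl | hS
  · simp
  · apply csSup_le hS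
    intro s hs
    rcases h s hs with rfl | ⟨t, ht, hst⟩
    · exact Nat.zero_le _
    · exact hst.trans (le_csSup hT ht)

/-- The largest size of a code of distance `d` with property `P`. -/
noncomputable def maxSize (n d : ℕ) (P : Finset (Fin n → ZMod 2) → Prop) : ℕ :=
  sSup {k | ∃ C : Finset (Fin n → ZMod 2), Dist d C ∧ P C ∧ C.card = k}

theorem bddAbove_maxSize (n d : ℕ) (P : Finset (Fin n → ZMod 2) → Prop) :
    BddAbove {k | ∃ C : Finset (Fin n → ZMod 2), Dist d C ∧ P C ∧ C.card = k} := by
  refine ⟨Fintype.card (Fin n → ZMod 2), ?_⟩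
  rintro k ⟨C, _, _, rfl⟩
  exact Finset.card_le_univ C

theorem maxSize_le {n d : ℕ} {P Q : Finset (Fin n → ZMod 2) → Prop}
    (h : ∀ C, C.Nonempty → Dist d C → P C → ∃ C', Dist d C' ∧ Q C' ∧ C.card ≤ C'.card) :
    maxSize n d P ≤ maxSize n d Q := by
  apply sSup_le_sSup_of (bddAbove_maxSize n d Q)
  rintro s ⟨C, hC, hP, rfl⟩
  rcases Finset.eq_empty_or_nonempty C with rfl | hne
  · exact Or.inl rfl
  · obtain ⟨C', h1, h2, h3⟩ := h C hne hC hP
    exact Or.inr ⟨C'.card, ⟨C', h1, h2, rfl⟩, h3⟩

/-- linear codes -/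
def Lin {n : ℕ} (C : Finset (Fin n → ZMod 2)) : Prop := 0 ∈ C ∧ ∀ x ∈ C, ∀ y ∈ C, x + y ∈ C

theorem lin_sum {n : ℕ} {C : Finset (Fin n → ZMod 2)} (h : Lin C) (a : κ → ZMod 2)
    (w : κ → Fin n → ZMod 2) (hw : ∀ l, w l ∈ C) (s : Finset κ) :
    (fun i => ∑ l ∈ s, a l * w l i) ∈ C := by
  induction s using Finset.induction_on with
  | empty =>
    have : (fun i => ∑ l ∈ (∅ : Finset κ), a l * w l i) = (0 : Fin n → ZMod 2) := by
      funext i
      simp
    rw [this]
    exact h.1
  | insert l s hl ih =>
    have : (fun i => ∑ k ∈ insert l s, a k * w k i)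
        = (fun i => a l * w l i) + (fun i => ∑ k ∈ s, a k * w k i) := by
      funext i
      rw [Finset.sum_insert hl]
      rfl
    rw [this]
    apply h.2 _ _ _ ih
    rcases zmod_cases (a l) with h0 | h0
    · have : (fun i => a l * w l i) = 0 := by
        funext i
        simp [h0]
      rw [this]
      exact h.1
    · have : (fun i => a l * w l i) = w l := by
        funext i
        simp [h0]
      rw [this]
      exact hw l

theorem sum_eq_of_two (a : κ → ZMod 2) {p q : κ} (hpq : p ≠ q) (hp : a p = 1) (hq : a q = 1)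
    (x y z : ZMod 2) :
    ∑ l, a l * (if l = p then x else if l = q then y else z) = x + y + (∑ l, a l) * z := by
  have e : ∀ l, a l * (if l = p then x else if l = q then y else z)
      = a l * z + ((if l = p then a l * (x - z) else 0) + (if l = q then a l * (y - z) else 0)) := by
    intro l
    by_cases h1 : l = p
    · subst h1
      rw [if_pos rfl, if_pos rfl, if_neg hpq]
      ring
    · by_cases h2 : l = q
      · subst h2
        rw [if_neg h1, if_pos rfl, if_neg h1, if_pos rfl]
        ring
      · rw [if_neg h1, if_neg h2, if_neg h1, if_neg h2]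
        ring
  rw [Finset.sum_congr rfl (fun l _ => e l), Finset.sum_add_distrib, Finset.sum_add_distrib,
    Finset.sum_ite_eq' Finset.univ p, Finset.sum_ite_eq' Finset.univ q]
  simp only [Finset.mem_univ, if_true, hp, hq, one_mul]
  rw [← Finset.sum_mul]
  have e1 := add_self z
  linear_combination (-1 : ZMod 2) * e1

/-- affine operations in at least two variables: closed codes are cosets -/
theorem closed_two {f : (κ → ZMod 2) → ZMod 2} {c : ZMod 2} {a : κ → ZMod 2}
    (hf : ∀ x, f x = c + ∑ l, a l * x l) (h2 : 2 ≤ (univ.filter fun l => a l ≠ 0).card)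
    {n : ℕ} {C : Finset (Fin n → ZMod 2)} (hC : Cl f C) :
    (∀ x ∈ C, ∀ y ∈ C, ∀ z ∈ C, x + y + z ∈ C) ∧
    ((∑ l, a l = 1 ∧ c = 1) → ∀ x ∈ C, x + 1 ∈ C) := by
  obtain ⟨p, hp, q, hq, hpq⟩ := Finset.one_lt_card.1 h2
  rw [Finset.mem_filter] at hp hq
  have hp' : a p = 1 := (zmod_cases (a p)).resolve_left hp.2
  have hq' : a q = 1 := (zmod_cases (a q)).resolve_left hq.2
  have key : ∀ x ∈ C, ∀ y ∈ C, ∀ z ∈ C,
      (fun i => c + (x i + y i + (∑ l, a l) * z i)) ∈ C := by
    intro x hx y hy z hz
    have := hC (fun l => if l = p then x else if l = q then y else z) (by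
      intro l
      split_ifs
      · exact hx
      · exact hy
      · exact hz)
    convert this using 2 with i
    rw [hf, ← sum_eq_of_two a hpq hp' hq']
    congr 1
    apply Finset.sum_congr rfl
    intro l _
    congr 1
    split_ifs <;> rfl
  rcases zmod_cases (∑ l, a l) with hA | hA
  · -- A = 0
    refine ⟨?_, fun h => absurd (hA ▸ h.1) (by decide)⟩
    intro x hx y hy z hz
    have h1 := key x hx y hy z hz
    have h3 := key _ h1 z hz z hz
    convert h3 using 1
    funext i
    simp only [hA, Pi.add_apply]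
    have e1 := add_self c
    linear_combination (-1 : ZMod 2) * e1
  · constructor
    · intro x hx y hy z hz
      have h1 := key x hx y hy z hz
      have h3 := key _ h1 z hz z hz
      convert h3 using 1
      funext i
      simp only [hA, Pi.add_apply]
      have e1 := add_self c
      have e2 := add_self (z i)
      linear_combination (-1 : ZMod 2) * e1 - e2
    · rintro ⟨_, hc⟩ x hx
      have h1 := key x hx x hx x hx
      convert h1 using 1
      funext i
      simp only [hA, hc, Pi.add_apply, Pi.one_apply]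
      have e2 := add_self (x i)
      linear_combination (-1 : ZMod 2) * e2

end Pool.Agent.Lib.MP_0430e4_lc.Closed
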