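import Pool.Agent.Lib.MP_0430e4_lc.Limit

/-!
# Convexity of the exponent of a submultiplicative code parameter
-/

set_option autoImplicit false

namespace Pool.Agent.Lib.MP_0430e4_lc

open Filter Topology

section

variable {Φ : ℕ → ℕ → ℝ}

theorem expo_add_le (h1 : ∀ n d, 1 ≤ Φ n d) (hmono : ∀ n d d', d ≤ d' → Φ n d' ≤ Φ n d)
    (hadd : ∀ n m d e, Φ (n + m) (d + e + 1) ≤ Φ n (d + 1) * Φ m (e + 1))
    {δ δ₁ δ₂ : ℝ} {n m : ℕ} (hn : 1 ≤ n) (hm : 1 ≤ m)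
    (hδ₁ : 0 ≤ δ₁) (hδ₂ : 0 ≤ δ₂)
    (h : δ₁ * n + δ₂ * m ≤ δ * (n + m : ℕ)) :
    expo Φ δ (n + m) ≤ (n : ℝ) / (n + m : ℕ) * expo Φ δ₁ n
      + (m : ℝ) / (n + m : ℕ) * expo Φ δ₂ m := by
  have hn0 : (0 : ℝ) < n := by exact_mod_cast hn
  have hm0 : (0 : ℝ) < m := by exact_mod_cast hm
  have hfl : ⌊δ₁ * n⌋₊ + ⌊δ₂ * m⌋₊ + 1 ≤ ⌊δ * (n + m : ℕ)⌋₊ + 1 := by
    apply Nat.succ_le_succ
    apply Nat.le_floor
    refine le_trans ?_ h
    push_cast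
    exact add_le_add (Nat.floor_le (by positivity)) (Nat.floor_le (by positivity))
  have hmain := (hmono (n + m) _ _ hfl).trans (hadd n m ⌊δ₁ * n⌋₊ ⌊δ₂ * m⌋₊)
  have hp1 : 0 < Φ n (⌊δ₁ * n⌋₊ + 1) := lt_of_lt_of_le one_pos (h1 _ _)
  have hp2 : 0 < Φ m (⌊δ₂ * m⌋₊ + 1) := lt_of_lt_of_le one_pos (h1 _ _)
  have hp : 0 < Φ (n + m) (⌊δ * (n + m : ℕ)⌋₊ + 1) := lt_of_lt_of_le one_pos (h1 _ _)
  have hlog := Real.logb_le_logb_of_le (b := 2) (by norm_num) hp hmain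
  rw [Real.logb_mul hp1.ne' hp2.ne'] at hlog
  unfold expo
  have hnm : (0 : ℝ) < (n + m : ℕ) := by
    push_cast
    positivity
  rw [div_le_iff₀ hnm]
  refine hlog.trans (le_of_eq ?_)
  field_simp

theorem limExpo_convex (h1 : ∀ n d, 1 ≤ Φ n d) (hmono : ∀ n d d', d ≤ d' → Φ n d' ≤ Φ n d)
    (hext : ∀ n r d, Φ (n + r) d ≤ 2 ^ r * Φ n d)
    (hpow : ∀ n k d, Φ (k * n) (k * d + 1) ≤ Φ n (d + 1) ^ k)
    (hadd : ∀ n m d e, Φ (n + m) (d + e + 1) ≤ Φ n (d + 1) * Φ m (e + 1))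
    {δ₁ δ₂ t : ℝ} (hδ₂ : 0 ≤ δ₂) (hδ : δ₂ ≤ δ₁) (ht0 : 0 < t) (ht1 : t < 1) :
    limExpo Φ (t * δ₁ + (1 - t) * δ₂) ≤ t * limExpo Φ δ₁ + (1 - t) * limExpo Φ δ₂ := by
  have hδ₁ : 0 ≤ δ₁ := hδ₂.trans hδ
  have hδ0 : 0 ≤ t * δ₁ + (1 - t) * δ₂ := by
    have : 0 ≤ 1 - t := by linarith
    positivity
  set n : ℕ → ℕ := fun N => ⌊t * (N : ℝ)⌋₊ with hn
  set m : ℕ → ℕ := fun N => N - n N with hm
  have hnN : ∀ N, n N ≤ N := by
    intro N
    apply Nat.floor_le_of_le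
    have : (0 : ℝ) ≤ N := Nat.cast_nonneg _
    nlinarith
  have hsum : ∀ N, n N + m N = N := fun N => Nat.add_sub_cancel' (hnN N)
  have htn : Tendsto (fun N => ((n N : ℕ) : ℝ) / N) atTop (𝓝 t) :=
    (tendsto_nat_floor_mul_div_atTop ht0.le).comp tendsto_natCast_atTop_atTop
  have hn_top : Tendsto n atTop atTop :=
    tendsto_nat_floor_atTop.comp
      ((tendsto_natCast_atTop_atTop (R := ℝ)).const_mul_atTop ht0)
  have hm_top : Tendsto m atTop atTop := by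
    rw [← tendsto_natCast_atTop_iff (R := ℝ)]
    apply tendsto_atTop_mono (f := fun N : ℕ => (1 - t) * (N : ℝ))
    · intro N
      have h2 : ((n N : ℕ) : ℝ) ≤ t * N := Nat.floor_le (by positivity)
      have h3 : ((m N : ℕ) : ℝ) = N - n N := by
        rw [hm, Nat.cast_sub (hnN N)]
      rw [h3]
      linarith
    · exact (tendsto_natCast_atTop_atTop (R := ℝ)).const_mul_atTop (by linarith)
  have htm : Tendsto (fun N => ((m N : ℕ) : ℝ) / N) atTop (𝓝 (1 - t)) := by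
    have h2 : Tendsto (fun N => 1 - ((n N : ℕ) : ℝ) / N) atTop (𝓝 (1 - t)) := htn.const_sub 1
    apply h2.congr'
    filter_upwards [eventually_ge_atTop 1] with N hN
    have hN0 : (0 : ℝ) < N := by exact_mod_cast hN
    rw [hm, Nat.cast_sub (hnN N)]
    field_simp
  have hL1 := (tendsto_expo h1 hmono hext hpow hδ₁).comp hn_top
  have hL2 := (tendsto_expo h1 hmono hext hpow hδ₂).comp hm_top
  have hR := (htn.mul hL1).add (htm.mul hL2)
  have hL := tendsto_expo h1 hmono hext hpow hδ0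
  apply le_of_tendsto_of_tendsto hL hR
  filter_upwards [hn_top.eventually_ge_atTop 1, hm_top.eventually_ge_atTop 1] with N hN1 hN2
  have h3 : δ₁ * n N + δ₂ * m N ≤ (t * δ₁ + (1 - t) * δ₂) * (n N + m N : ℕ) := by
    have h2 : ((n N : ℕ) : ℝ) ≤ t * N := Nat.floor_le (by positivity)
    have h5 : ((m N : ℕ) : ℝ) = N - n N := by
      rw [hm, Nat.cast_sub (hnN N)]
    rw [hsum N, h5]
    nlinarith
  have h4 := expo_add_le h1 hmono hadd hN1 hN2 hδ₁ hδ₂ h3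
  simp only [hsum N] at h4
  exact h4

theorem convexOn_limExpo (h1 : ∀ n d, 1 ≤ Φ n d) (hmono : ∀ n d d', d ≤ d' → Φ n d' ≤ Φ n d)
    (hext : ∀ n r d, Φ (n + r) d ≤ 2 ^ r * Φ n d)
    (hpow : ∀ n k d, Φ (k * n) (k * d + 1) ≤ Φ n (d + 1) ^ k)
    (hadd : ∀ n m d e, Φ (n + m) (d + e + 1) ≤ Φ n (d + 1) * Φ m (e + 1)) :
    ConvexOn ℝ (Set.Ici 0) (limExpo Φ) := by
  refine ⟨convex_Ici 0, ?_⟩
  intro x hx y hy a b ha hb hab
  rw [Set.mem_Ici] at hx hy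
  simp only [smul_eq_mul]
  rcases ha.eq_or_lt with rfl | ha
  · rw [zero_add] at hab
    subst hab
    simp
  rcases hb.eq_or_lt with rfl | hb
  · rw [add_zero] at hab
    subst hab
    simp
  rcases le_total y x with h | h
  · have hb' : b = 1 - a := by linarith
    subst hb'
    exact limExpo_convex h1 hmono hext hpow hadd hy h ha (by linarith)
  · have ha' : a = 1 - b := by linarith
    subst ha'
    rw [add_comm, add_comm ((1 - b) * limExpo Φ x)]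
    exact limExpo_convex h1 hmono hext hpow hadd hx h hb (by linarith)

end

end Pool.Agent.Lib.MP_0430e4_lc
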