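import Pool.Agent.Lib.MP_0430e4_lc.TensorWindow

/-!
# Certificates coming from slices
-/

set_option autoImplicit false
set_option linter.unusedSectionVars false

namespace Pool.Agent.Lib.MP_0430e4_lc.Tensor

open Finset

variable {ι : Type*} [Fintype ι] [DecidableEq ι] {w : ℕ}

theorem finrank_Q_le (j : ℕ) : Module.finrank ℝ (Q ι w j)
    ≤ (univ.filter fun T : Finset ι => T.card < j).card := by
  classical
  have h : Q ι w j = Submodule.span ℝ
      (((univ.filter fun T : Finset ι => T.card < j).image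
        (fun T => (mono T : Slice ι w → ℝ)) : Finset (Slice ι w → ℝ)) : Set (Slice ι w → ℝ)) := by
    unfold Q
    congr 1
    ext f
    simp only [Set.mem_ofPred_eq, Finset.coe_image, Set.mem_image, Finset.mem_coe,
      Finset.mem_filter, Finset.mem_univ, true_and]
    constructor
    · rintro ⟨T, h1, h2⟩
      exact ⟨T, h1, h2.symm⟩
    · rintro ⟨T, h1, h2⟩
      exact ⟨T, h1, h2.symm⟩
  rw [h]
  exact (finrank_span_finset_le_card _).trans Finset.card_image_le

namespace EB

variable (B : EB ι w)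

theorem count_le (j : ℕ) (I : Finset (Slice ι w)) (hI : ∀ k ∈ I, B.v k ∈ Q ι w j) :
    I.card ≤ (univ.filter fun T : Finset ι => T.card < j).card := by
  have hli : LinearIndependent ℝ (fun k : I => B.v k.1) := by
    rw [Fintype.linearIndependent_iff]
    intro g hg k
    have h1 : ∑ z, B.v k.1 z * (∑ i : I, g i • B.v i.1) z = 0 := by
      rw [hg]
      simp
    simp only [Finset.sum_apply, Pi.smul_apply, smul_eq_mul, Finset.mul_sum] at h1
    rw [Finset.sum_comm] at h1
    have h2 : ∀ i : I, ∑ z, B.v k.1 z * (g i * B.v i.1 z) = if k = i then g i else 0 := by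
      intro i
      calc ∑ z, B.v k.1 z * (g i * B.v i.1 z) = g i * ∑ z, B.v k.1 z * B.v i.1 z := by
            rw [Finset.mul_sum]
            apply Finset.sum_congr rfl
            intro z _
            ring
        _ = _ := by
            rw [B.orth]
            by_cases h : k = i
            · simp [h]
            · rw [if_neg h, if_neg (fun h' => h (Subtype.ext h')), mul_zero]
    simp only [h2, Finset.sum_ite_eq, Finset.mem_univ, if_true] at h1
    exact h1
  have h1 := finrank_span_eq_card hli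
  have h2 : Submodule.span ℝ (Set.range fun k : I => B.v k.1) ≤ Q ι w j := by
    rw [Submodule.span_le]
    rintro _ ⟨k, rfl⟩
    exact hI k.1 k.2
  have h3 := Submodule.finrank_mono h2
  rw [h1, Fintype.card_coe] at h3
  exact h3.trans (finrank_Q_le j)

/-- the certificate -/
def hJ (e : ℝ → ℝ) (y : ι → Bool) : ℝ :=
  ∑ z : Slice ι w, ∑ z' : Slice ι w, chi z.1 y * chi z'.1 y * B.ker e z z' ^ 2

theorem hJ_cert {e : ℝ → ℝ} (he : ∀ t, 0 ≤ e t) {c : ℝ}
    (H : ∀ f : Slice ι w → ℝ, c * ∑ k, e (B.lam k) * (B.co k f) ^ 2 ≤ B.Kf e f f)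
    {k₀ : Slice ι w} (hk : 0 < e (B.lam k₀)) : IsCert c (B.hJ e) := by
  refine ⟨?_, ?_, ?_, ?_⟩
  · intro y
    exact B.schur_nonneg he (fun z => chi z.1 y)
  · intro x
    have h1 : ∑ y, B.hJ e y * chi x y = ∑ z : Slice ι w, ∑ z' : Slice ι w,
        B.ker e z z' ^ 2 * ∑ y, chi (fun i => xor (xor (z.1 i) (z'.1 i)) (x i)) y := by
      unfold hJ
      simp only [Finset.sum_mul]
      rw [Finset.sum_comm]
      apply Finset.sum_congr rfl
      intro z _
      rw [Finset.sum_comm]
      apply Finset.sum_congr rfl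
      intro z' _
      rw [Finset.mul_sum]
      apply Finset.sum_congr rfl
      intro y _
      rw [chi_xor (fun i => xor (z.1 i) (z'.1 i)) x, chi_xor]
      ring
    rw [h1]
    apply Finset.sum_nonneg
    intro z _
    apply Finset.sum_nonneg
    intro z' _
    apply mul_nonneg (sq_nonneg _)
    rw [sum_chi]
    apply Finset.prod_nonneg
    intro i _
    split_ifs <;> norm_num
  · intro y
    have h1 : ∑ i, B.hJ e (flp y i) = ∑ z : Slice ι w, ∑ z' : Slice ι w,
        chi z.1 y * chi z'.1 y * (rho z z' * B.ker e z z' ^ 2) := by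
      unfold hJ
      rw [Finset.sum_comm]
      apply Finset.sum_congr rfl
      intro z _
      rw [Finset.sum_comm]
      apply Finset.sum_congr rfl
      intro z' _
      unfold rho
      rw [Finset.sum_mul, Finset.mul_sum]
      apply Finset.sum_congr rfl
      intro i _
      rw [chi_flp, chi_flp]
      unfold sb
      ring
    rw [h1]
    exact B.schur_ge he H (fun z => chi z.1 y)
  · have h1 : B.hJ e (fun _ => false) = ∑ k, e (B.lam k) ^ 2 := by
      unfold hJ
      simp only [chi_zero_right, one_mul]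
      exact B.sum_ker_sq e
    rw [h1]
    apply Finset.sum_pos'
    · intro k _
      exact sq_nonneg _
    · exact ⟨k₀, Finset.mem_univ _, by positivity⟩

theorem sum_chi_xor (z z' : Slice ι w) :
    ∑ y, chi (fun i => xor (z.1 i) (z'.1 i)) y = if z = z' then 2 ^ Fintype.card ι else 0 := by
  rw [sum_chi]
  split_ifs with h
  · subst h
    simp
  · have : ∃ i, z.1 i ≠ z'.1 i := by
      by_contra hne
      push Not at hne
      exact h (Subtype.ext (funext hne))
    obtain ⟨i, hi⟩ := this
    apply Finset.prod_eq_zero (Finset.mem_univ i)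
    rw [if_pos]
    revert hi
    cases z.1 i <;> cases z'.1 i <;> simp

theorem hJ_sum (e : ℝ → ℝ) : ∑ y, B.hJ e y = 2 ^ Fintype.card ι * ∑ z, B.ker e z z ^ 2 := by
  have h1 : ∑ y, B.hJ e y = ∑ z : Slice ι w, ∑ z' : Slice ι w,
      B.ker e z z' ^ 2 * ∑ y, chi (fun i => xor (z.1 i) (z'.1 i)) y := by
    unfold hJ
    rw [Finset.sum_comm]
    apply Finset.sum_congr rfl
    intro z _
    rw [Finset.sum_comm]
    apply Finset.sum_congr rfl
    intro z' _
    rw [Finset.mul_sum]
    apply Finset.sum_congr rfl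
    intro y _
    rw [chi_xor]
    ring
  rw [h1, Finset.mul_sum]
  apply Finset.sum_congr rfl
  intro z _
  simp only [sum_chi_xor, mul_ite, mul_zero, Finset.sum_ite_eq, Finset.mem_univ, if_true]
  ring

theorem hJ_val {e : ℝ → ℝ} (he : ∀ t, 0 ≤ e t) {k₀ : Slice ι w} (hk : 0 < e (B.lam k₀))
    (j : ℕ) (hj : ∀ k, e (B.lam k) ≠ 0 → B.v k ∈ Q ι w j) :
    val (B.hJ e) ≤ 2 ^ Fintype.card ι * (univ.filter fun T : Finset ι => T.card < j).card
      / (Fintype.card ι).choose w := by
  have h0 : B.hJ e (fun _ => false) = ∑ k, e (B.lam k) ^ 2 := by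
    unfold hJ
    simp only [chi_zero_right, one_mul]
    exact B.sum_ker_sq e
  have hpos : 0 < ∑ k, e (B.lam k) ^ 2 := by
    apply Finset.sum_pos'
    · intro k _
      exact sq_nonneg _
    · exact ⟨k₀, Finset.mem_univ _, by positivity⟩
  have hS : (0 : ℝ) < (Fintype.card ι).choose w := by
    rw [← card_slice]
    exact_mod_cast Fintype.card_pos_iff.2 ⟨k₀⟩
  unfold val
  rw [h0, hJ_sum, div_le_div_iff₀ hpos hS]
  have h2 := B.sum_ker_diag_sq e
  rw [card_slice] at h2
  have h3 : (∑ k, e (B.lam k)) ^ 2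
      ≤ (univ.filter fun k => e (B.lam k) ≠ 0).card * ∑ k, e (B.lam k) ^ 2 := by
    have h4 : ∑ k, e (B.lam k) = ∑ k ∈ univ.filter (fun k => e (B.lam k) ≠ 0), e (B.lam k) := by
      rw [Finset.sum_filter_ne_zero]
    rw [h4]
    refine (sq_sum_le_card_mul_sum_sq).trans ?_
    apply mul_le_mul_of_nonneg_left _ (Nat.cast_nonneg _)
    apply Finset.sum_le_sum_of_subset_of_nonneg (Finset.filter_subset _ _)
    intro k _ _
    exact sq_nonneg _
  have h5 : ((univ.filter fun k => e (B.lam k) ≠ 0).card : ℝ)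
      ≤ (univ.filter fun T : Finset ι => T.card < j).card := by
    exact_mod_cast B.count_le j _ (fun k hk => hj k (Finset.mem_filter.1 hk).2)
  calc (2 ^ Fintype.card ι * ∑ z, B.ker e z z ^ 2) * ((Fintype.card ι).choose w : ℝ)
      = 2 ^ Fintype.card ι * (((Fintype.card ι).choose w : ℝ) * ∑ z, B.ker e z z ^ 2) := by
        ring
    _ = 2 ^ Fintype.card ι * (∑ k, e (B.lam k)) ^ 2 := by rw [h2]
    _ ≤ 2 ^ Fintype.card ι * ((univ.filter fun T : Finset ι => T.card < j).card
          * ∑ k, e (B.lam k) ^ 2) := by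
        gcongr
        exact h3.trans (mul_le_mul_of_nonneg_right h5 hpos.le)
    _ = _ := by ring

end EB

/-- The second linear programming bound as a tensorisable certificate. -/
theorem exists_cert (hw : 2 * w ≤ Fintype.card ι) {a r : ℕ} (ha : 1 ≤ a) (har : a + r < w)
    {Xp Xm X0 : ℝ} (hXp : 0 < Xp) (hXm : 0 < Xm)
    (hp : ∀ j ∈ Finset.Icc a (a + r), Xp ≤ xp (Fintype.card ι) w j)
    (hm : ∀ j ∈ Finset.Icc a (a + r), Xm ≤ xm (Fintype.card ι) w j)
    (h0 : ∀ j ∈ Finset.Icc a (a + r),
      X0 ≤ Fintype.card ι - xp (Fintype.card ι) w j - xm (Fintype.card ι) w j) :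
    ∃ h : (ι → Bool) → ℝ,
      IsCert (X0 + 2 * Real.sqrt (Xp * Xm) * Real.cos (Real.pi / (r + 2))) h ∧
      val h ≤ 2 ^ Fintype.card ι * (univ.filter fun T : Finset ι => T.card < a + r + 1).card
        / (Fintype.card ι).choose w := by
  obtain ⟨B⟩ := exists_EB ι w
  set g := Real.sqrt (Xm / Xp) with hg
  have hg0 : 0 < g := Real.sqrt_pos.2 (div_pos hXm hXp)
  set e := ew (Fintype.card ι) a r g with he
  have he0 : ∀ t, 0 ≤ e t := ew_nonneg _ _ _ hg0.le
  obtain ⟨k₀, hk₀⟩ := B.exists_lam hw a (by omega)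
  have hk : 0 < e (B.lam k₀) := by
    rw [hk₀, he, th_eq, ew_mid g (by omega) (by rw [Finset.mem_Icc]; omega)]
    exact mul_pos (sw_pos a r) (pow_pos hg0 a)
  refine ⟨B.hJ e, B.hJ_cert he0 (B.window_ineq hw ha har hXp hXm hp hm h0) hk,
    B.hJ_val he0 hk _ ?_⟩
  intro k hk
  obtain ⟨j, hj, hj2⟩ := ew_support hk
  rw [Finset.mem_Icc] at hj
  have h1 : B.v k ∈ Q ι w (j + 1) := by
    apply eig_mem_Q hw (by omega : 2 * j ≤ Fintype.card ι)
    intro z
    rw [B.eig, hj2]
  exact Q_le (by omega) h1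

end Pool.Agent.Lib.MP_0430e4_lc.Tensor
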