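import Pool.Agent.Lib.MP_0430e4_lc.TensorRate
import Pool.Agent.Lib.MP_0430e4_lc.TensorSecond
import Pool.Agent.Lib.MP_0430e4_lc.TensorEntropy

/-!
# Asymptotics of the slice certificates
-/

set_option autoImplicit false
set_option linter.unusedSectionVars false

namespace Pool.Agent.Lib.MP_0430e4_lc.Tensor

open Finset Filter Topology

noncomputable def Gp (x y z : ℝ) : ℝ :=
  4 * ((1 + x - z) * (y - z) * (1 - y - z)) / ((1 - 2 * z) * (1 - 2 * z + x))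

noncomputable def Gm (x y z : ℝ) : ℝ :=
  4 * (z * (y - z + x) * (1 - y - z + x)) / ((1 + 2 * x - 2 * z) * (1 - 2 * z + x))

theorem xp_eq {n w J : ℝ} (hn : 0 < n) : xp n w J / n = Gp (1 / n) (w / n) (J / n) := by
  unfold xp Gp
  have e1 : (1 - 2 * (J / n)) * (1 - 2 * (J / n) + 1 / n)
      = ((n - 2 * J) * (n - 2 * J + 1)) / n ^ 2 := by
    field_simp
  have e2 : 4 * ((1 + 1 / n - J / n) * (w / n - J / n) * (1 - w / n - J / n))
      = 4 * ((n + 1 - J) * (w - J) * (n - w - J)) / n ^ 3 := by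
    field_simp
  rw [e1, e2]
  rcases eq_or_ne ((n - 2 * J) * (n - 2 * J + 1)) 0 with h | h
  · rw [h]
    simp
  · field_simp

theorem xm_eq {n w J : ℝ} (hn : 0 < n) : xm n w J / n = Gm (1 / n) (w / n) (J / n) := by
  unfold xm Gm
  have e1 : (1 + 2 * (1 / n) - 2 * (J / n)) * (1 - 2 * (J / n) + 1 / n)
      = ((n + 2 - 2 * J) * (n - 2 * J + 1)) / n ^ 2 := by
    field_simp
  have e2 : 4 * (J / n * (w / n - J / n + 1 / n) * (1 - w / n - J / n + 1 / n))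
      = 4 * (J * (w - J + 1) * (n - w - J + 1)) / n ^ 3 := by
    field_simp
  rw [e1, e2]
  rcases eq_or_ne ((n + 2 - 2 * J) * (n - 2 * J + 1)) 0 with h | h
  · rw [h]
    simp
  · field_simp

theorem tendsto_Gp {α σ : ℝ} (hσ : σ < 1 / 2) {x y z : ℕ → ℝ} (hx : Tendsto x atTop (𝓝 0))
    (hy : Tendsto y atTop (𝓝 α)) (hz : Tendsto z atTop (𝓝 σ)) :
    Tendsto (fun n => Gp (x n) (y n) (z n)) atTop (𝓝 (Gp 0 α σ)) := by
  unfold Gp
  apply Tendsto.div
  · exact ((((hx.const_add 1).sub hz).mul (hy.sub hz)).mul ((hy.const_sub 1).sub hz)).const_mul 4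
  · exact ((hz.const_mul 2).const_sub 1).mul (((hz.const_mul 2).const_sub 1).add hx)
  · have : 0 < 1 - 2 * σ := by linarith
    have h2 : 0 < 1 - 2 * σ + 0 := by linarith
    exact (mul_pos this h2).ne'

theorem tendsto_Gm {α σ : ℝ} (hσ : σ < 1 / 2) {x y z : ℕ → ℝ} (hx : Tendsto x atTop (𝓝 0))
    (hy : Tendsto y atTop (𝓝 α)) (hz : Tendsto z atTop (𝓝 σ)) :
    Tendsto (fun n => Gm (x n) (y n) (z n)) atTop (𝓝 (Gm 0 α σ)) := by
  unfold Gm
  apply Tendsto.div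
  · exact ((hz.mul ((hy.sub hz).add hx)).mul (((hy.const_sub 1).sub hz).add hx)).const_mul 4
  · exact (((hx.const_mul 2).const_add 1).sub (hz.const_mul 2)).mul
      (((hz.const_mul 2).const_sub 1).add hx)
  · have : 0 < 1 + 2 * 0 - 2 * σ := by linarith
    have h2 : 0 < 1 - 2 * σ + 0 := by linarith
    exact (mul_pos this h2).ne'

theorem tendsto_floor_div {σ : ℝ} (hσ : 0 ≤ σ) :
    Tendsto (fun n : ℕ => ((⌊σ * n⌋₊ : ℕ) : ℝ) / n) atTop (𝓝 σ) :=
  (tendsto_nat_floor_mul_div_atTop hσ).comp tendsto_natCast_atTop_atTop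

theorem tendsto_floor_add_div {σ : ℝ} (hσ : 0 ≤ σ) (t : ℕ) :
    Tendsto (fun n : ℕ => ((⌊σ * n⌋₊ + t : ℕ) : ℝ) / n) atTop (𝓝 σ) := by
  have h := (tendsto_floor_div hσ).add (tendsto_const_div_atTop_nhds_zero_nat (t : ℝ))
  rw [add_zero] at h
  refine h.congr ?_
  intro n
  push_cast
  rw [add_div]

/-- limits of the neighbour weights -/
noncomputable def Fp (σ α : ℝ) : ℝ := Gp 0 α σ
noncomputable def Fm (σ α : ℝ) : ℝ := Gm 0 α σ

theorem tendsto_xp {σ α : ℝ} (hσ0 : 0 ≤ σ) (hσ : σ < 1 / 2) (hα : 0 ≤ α) (t : ℕ) :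
    Tendsto (fun n : ℕ => xp n (⌊α * n⌋₊ : ℕ) (⌊σ * n⌋₊ + t : ℕ) / n) atTop (𝓝 (Fp σ α)) := by
  have h := tendsto_Gp hσ tendsto_one_div_atTop_nhds_zero_nat (tendsto_floor_div hα)
    (tendsto_floor_add_div hσ0 t)
  apply h.congr'
  filter_upwards [eventually_ge_atTop 1] with n hn
  rw [xp_eq (by exact_mod_cast hn)]

theorem tendsto_xm {σ α : ℝ} (hσ0 : 0 ≤ σ) (hσ : σ < 1 / 2) (hα : 0 ≤ α) (t : ℕ) :
    Tendsto (fun n : ℕ => xm n (⌊α * n⌋₊ : ℕ) (⌊σ * n⌋₊ + t : ℕ) / n) atTop (𝓝 (Fm σ α)) := by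
  have h := tendsto_Gm hσ tendsto_one_div_atTop_nhds_zero_nat (tendsto_floor_div hα)
    (tendsto_floor_add_div hσ0 t)
  apply h.congr'
  filter_upwards [eventually_ge_atTop 1] with n hn
  rw [xm_eq (by exact_mod_cast hn)]

/-- the certificates for large `n` -/
theorem asym_cert {σ α : ℝ} (hσ0 : 0 < σ) (hσα : σ < α) (hα : α ≤ 1 / 2) (r : ℕ) {ε : ℝ}
    (hε : 0 < ε) (hp : ε < Fp σ α) (hm : ε < Fm σ α) :
    ∀ᶠ n : ℕ in atTop, ∃ h : (Fin n → Bool) → ℝ,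
      IsCert (n * ((1 - Fp σ α - Fm σ α - ε) + 2 * Real.sqrt ((Fp σ α - ε) * (Fm σ α - ε))
        * Real.cos (Real.pi / (r + 2)))) h ∧
      val h ≤ 2 ^ n * (univ.filter fun T : Finset (Fin n) => T.card < ⌊σ * n⌋₊ + r + 1).card
        / n.choose ⌊α * n⌋₊ := by
  have hσ : σ < 1 / 2 := by linarith
  have hα0 : 0 ≤ α := by linarith
  have h1 : ∀ᶠ n : ℕ in atTop, ∀ t ∈ range (r + 1),
      (Fp σ α - ε) < xp n (⌊α * n⌋₊ : ℕ) (⌊σ * n⌋₊ + t : ℕ) / n := by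
    rw [Filter.eventually_all_finset]
    intro t _
    exact (tendsto_xp hσ0.le hσ hα0 t).eventually_const_lt (by linarith)
  have h2 : ∀ᶠ n : ℕ in atTop, ∀ t ∈ range (r + 1),
      (Fm σ α - ε) < xm n (⌊α * n⌋₊ : ℕ) (⌊σ * n⌋₊ + t : ℕ) / n := by
    rw [Filter.eventually_all_finset]
    intro t _
    exact (tendsto_xm hσ0.le hσ hα0 t).eventually_const_lt (by linarith)
  have h3 : ∀ᶠ n : ℕ in atTop, ∀ t ∈ range (r + 1),
      (1 - Fp σ α - Fm σ α - ε) < 1 - xp n (⌊α * n⌋₊ : ℕ) (⌊σ * n⌋₊ + t : ℕ) / n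
        - xm n (⌊α * n⌋₊ : ℕ) (⌊σ * n⌋₊ + t : ℕ) / n := by
    rw [Filter.eventually_all_finset]
    intro t _
    exact (((tendsto_xp hσ0.le hσ hα0 t).const_sub 1).sub
      (tendsto_xm hσ0.le hσ hα0 t)).eventually_const_lt (by linarith)
  have h4 : ∀ᶠ n : ℕ in atTop, ⌊σ * n⌋₊ + r < ⌊α * n⌋₊ := by
    have h5 := (tendsto_floor_div hα0).sub (tendsto_floor_add_div hσ0.le r)
    filter_upwards [h5.eventually_const_lt (show 0 < α - σ by linarith),
      eventually_ge_atTop 1] with n hn hn1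
    have hn0 : (0 : ℝ) < n := by exact_mod_cast hn1
    rw [← sub_div, lt_div_iff₀ hn0, zero_mul] at hn
    have : ((⌊σ * n⌋₊ + r : ℕ) : ℝ) < (⌊α * n⌋₊ : ℕ) := by linarith
    exact_mod_cast this
  have h5 : ∀ᶠ n : ℕ in atTop, 1 ≤ ⌊σ * n⌋₊ := by
    have : Tendsto (fun n : ℕ => σ * (n : ℝ)) atTop atTop :=
      (tendsto_natCast_atTop_atTop (R := ℝ)).const_mul_atTop hσ0
    filter_upwards [this.eventually_ge_atTop 1] with n hn
    exact Nat.le_floor (by exact_mod_cast hn)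
  filter_upwards [h1, h2, h3, h4, h5, eventually_ge_atTop 1] with n g1 g2 g3 g4 g5 g6
  have hn0 : (0 : ℝ) < n := by exact_mod_cast g6
  have hw : 2 * ⌊α * n⌋₊ ≤ Fintype.card (Fin n) := by
    rw [Fintype.card_fin]
    have : (⌊α * n⌋₊ : ℝ) ≤ α * n := Nat.floor_le (by positivity)
    have h7 : (2 * ⌊α * n⌋₊ : ℝ) ≤ n := by nlinarith
    exact_mod_cast h7
  have key : ∀ j ∈ Finset.Icc ⌊σ * n⌋₊ (⌊σ * n⌋₊ + r), ∃ t ∈ range (r + 1), j = ⌊σ * n⌋₊ + t := by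
    intro j hj
    rw [Finset.mem_Icc] at hj
    exact ⟨j - ⌊σ * n⌋₊, by rw [Finset.mem_range]; omega, by omega⟩
  obtain ⟨h, hh1, hh2⟩ := exists_cert (ι := Fin n) (w := ⌊α * n⌋₊) hw (a := ⌊σ * n⌋₊) (r := r)
    g5 g4 (Xp := n * (Fp σ α - ε)) (Xm := n * (Fm σ α - ε)) (X0 := n * (1 - Fp σ α - Fm σ α - ε))
    (mul_pos hn0 (by linarith)) (mul_pos hn0 (by linarith))
    (by
      intro j hj
      obtain ⟨t, ht, rfl⟩ := key j hj
      have := g1 t ht
      rw [lt_div_iff₀ hn0] at this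
      rw [Fintype.card_fin]
      linarith)
    (by
      intro j hj
      obtain ⟨t, ht, rfl⟩ := key j hj
      have := g2 t ht
      rw [lt_div_iff₀ hn0] at this
      rw [Fintype.card_fin]
      linarith)
    (by
      intro j hj
      obtain ⟨t, ht, rfl⟩ := key j hj
      have := g3 t ht
      rw [Fintype.card_fin]
      have e1 : (n : ℝ) - xp n (⌊α * n⌋₊ : ℕ) (⌊σ * n⌋₊ + t : ℕ) - xm n (⌊α * n⌋₊ : ℕ) (⌊σ * n⌋₊ + t : ℕ)
          = n * (1 - xp n (⌊α * n⌋₊ : ℕ) (⌊σ * n⌋₊ + t : ℕ) / n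
            - xm n (⌊α * n⌋₊ : ℕ) (⌊σ * n⌋₊ + t : ℕ) / n) := by
        field_simp
      rw [e1]
      exact mul_le_mul_of_nonneg_left this.le hn0.le)
  refine ⟨h, ?_, ?_⟩
  · have e1 : Real.sqrt (n * (Fp σ α - ε) * (n * (Fm σ α - ε)))
        = n * Real.sqrt ((Fp σ α - ε) * (Fm σ α - ε)) := by
      rw [show (n : ℝ) * (Fp σ α - ε) * (n * (Fm σ α - ε))
        = n ^ 2 * ((Fp σ α - ε) * (Fm σ α - ε)) by ring, Real.sqrt_mul (by positivity),
        Real.sqrt_sq hn0.le]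
    rw [e1] at hh1
    convert hh1 using 1
    ring
  · rw [Fintype.card_fin] at hh2
    exact hh2

theorem tendsto_level (F0 P M : ℝ) :
    Tendsto (fun k : ℕ => (F0 - 1 / ((k : ℝ) + 1)) + 2 * Real.sqrt ((P - 1 / ((k : ℝ) + 1))
      * (M - 1 / ((k : ℝ) + 1))) * Real.cos (Real.pi / (k + 2))) atTop
      (𝓝 (F0 + 2 * Real.sqrt (P * M))) := by
  have h1 : Tendsto (fun k : ℕ => 1 / ((k : ℝ) + 1)) atTop (𝓝 0) :=
    tendsto_one_div_add_atTop_nhds_zero_nat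
  have h2 : Tendsto (fun k : ℕ => Real.pi / ((k : ℝ) + 2)) atTop (𝓝 0) := by
    apply Tendsto.div_atTop tendsto_const_nhds
    exact tendsto_atTop_add_const_right _ _ (tendsto_natCast_atTop_atTop (R := ℝ))
  have h3 := (Real.continuous_cos.tendsto 0).comp h2
  rw [Real.cos_zero] at h3
  have h4 := ((h1.const_sub P).mul (h1.const_sub M))
  have h5 := (Real.continuous_sqrt.tendsto _).comp h4
  have h6 := (h1.const_sub F0).add ((h5.const_mul 2).mul h3)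
  simpa using h6

theorem ell_le_aux {σ α δ : ℝ} (hσ0 : 0 < σ) (hσα : σ < α) (hα : α ≤ 1 / 2) (hδ : 0 ≤ δ)
    (hlt : 1 - 2 * δ < (1 - Fp σ α - Fm σ α) + 2 * Real.sqrt (Fp σ α * Fm σ α))
    (hp : 0 < Fp σ α) (hm : 0 < Fm σ α) {σ' : ℝ} (hσ' : σ < σ') (hσ'2 : σ' ≤ 1 / 2) :
    ell δ ≤ 1 + (Real.binEntropy σ' - Real.binEntropy α) / Real.log 2 := by
  obtain ⟨k, hk1, hk2, hk3⟩ := (((tendsto_level (1 - Fp σ α - Fm σ α) (Fp σ α)
    (Fm σ α)).eventually_const_lt hlt).and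
    (((tendsto_one_div_add_atTop_nhds_zero_nat (𝕜 := ℝ)).eventually_lt_const hp).and
    ((tendsto_one_div_add_atTop_nhds_zero_nat (𝕜 := ℝ)).eventually_lt_const hm))).exists
  have hcert := asym_cert hσ0 hσα hα k (ε := 1 / ((k : ℝ) + 1)) (by positivity) hk2 hk3
  have hα0 : 0 < α := by linarith
  have hlog2 : 0 < Real.log 2 := Real.log_pos (by norm_num)
  have hlim : Tendsto (fun n : ℕ => 1 + (Real.binEntropy σ'
      - (Real.binEntropy (((⌊α * n⌋₊ : ℕ) : ℝ) / n) - Real.log (n + 1) / n)) / Real.log 2) atTop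
      (𝓝 (1 + (Real.binEntropy σ' - (Real.binEntropy α - 0)) / Real.log 2)) := by
    apply Tendsto.const_add
    apply Tendsto.div_const
    apply Tendsto.const_sub
    apply Tendsto.sub
    · exact (Real.binEntropy_continuous.tendsto α).comp (tendsto_floor_div hα0.le)
    · have h1 : Tendsto (fun n : ℕ => Real.log ((n : ℝ) + 1) / ((n : ℝ) + 1)) atTop (𝓝 0) := by
        have h2 : Tendsto (fun x : ℝ => Real.log x / x) atTop (𝓝 0) := by
          have := Real.isLittleO_log_id_atTop.tendsto_div_nhds_zero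
          simpa using this
        exact h2.comp (tendsto_atTop_add_const_right _ _ (tendsto_natCast_atTop_atTop (R := ℝ)))
      have h3 : Tendsto (fun n : ℕ => ((n : ℝ) + 1) / n) atTop (𝓝 1) := by
        have h4 := (tendsto_const_nhds (x := (1 : ℝ))).add
          (tendsto_one_div_atTop_nhds_zero_nat (𝕜 := ℝ))
        rw [add_zero] at h4
        apply h4.congr'
        filter_upwards [eventually_ge_atTop 1] with n hn
        have hn0 : (0 : ℝ) < n := by exact_mod_cast hn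
        field_simp
      have h5 := h1.mul h3
      rw [zero_mul] at h5
      apply h5.congr'
      filter_upwards [eventually_ge_atTop 1] with n hn
      have hn0 : (0 : ℝ) < n := by exact_mod_cast hn
      field_simp
  rw [sub_zero] at hlim
  apply ge_of_tendsto hlim
  have hev : ∀ᶠ n : ℕ in atTop, ((⌊σ * n⌋₊ + k : ℕ) : ℝ) ≤ σ' * n := by
    filter_upwards [(tendsto_floor_add_div hσ0.le k).eventually_lt_const hσ',
      eventually_ge_atTop 1] with n hn hn1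
    have hn0 : (0 : ℝ) < n := by exact_mod_cast hn1
    rw [div_lt_iff₀ hn0] at hn
    exact hn.le
  have hev2 : ∀ᶠ n : ℕ in atTop, 0 < ⌊α * n⌋₊ := by
    have : Tendsto (fun n : ℕ => α * (n : ℝ)) atTop atTop :=
      (tendsto_natCast_atTop_atTop (R := ℝ)).const_mul_atTop hα0
    filter_upwards [this.eventually_ge_atTop 1] with n hn
    exact Nat.floor_pos.2 hn
  filter_upwards [hcert, hev, hev2, eventually_ge_atTop 1] with n hc he he2 hn1
  have hn0 : (0 : ℝ) < n := by exact_mod_cast hn1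
  obtain ⟨h, hh1, hh2⟩ := hc
  have hh3 : IsCert ((1 - 2 * δ) * n) h := by
    apply hh1.mono
    rw [mul_comm]
    exact mul_le_mul_of_nonneg_left hk1.le hn0.le
  refine (ell_le_of_cert hδ hn1 hh3).trans ?_
  have hwn : ⌊α * n⌋₊ < n := by
    have : (⌊α * n⌋₊ : ℝ) ≤ α * n := Nat.floor_le (by positivity)
    have h7 : (⌊α * n⌋₊ : ℝ) < n := by nlinarith
    exact_mod_cast h7
  have hcard := card_small_le (n := n) (m := ⌊σ * n⌋₊ + k) (p := σ') (by linarith) hσ'2 he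
  have hch := entropy_le_log_choose he2 hwn
  have hchp : (0 : ℝ) < n.choose ⌊α * n⌋₊ := by exact_mod_cast Nat.choose_pos hwn.le
  have hval : val h ≤ 2 ^ n * Real.exp (n * Real.binEntropy σ') / n.choose ⌊α * n⌋₊ := by
    refine hh2.trans ?_
    gcongr
  have hv1 : 0 < val h := lt_of_lt_of_le one_pos (one_le_val hh1)
  have hlog := Real.log_le_log hv1 hval
  rw [Real.log_div (by positivity) hchp.ne', Real.log_mul (by positivity) (by positivity),
    Real.log_pow, Real.log_exp] at hlog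
  rw [Real.logb, div_div, mul_comm (Real.log 2) (n : ℝ), div_le_iff₀ (by positivity)]
  have e1 : (1 + (Real.binEntropy σ'
      - (Real.binEntropy (((⌊α * n⌋₊ : ℕ) : ℝ) / n) - Real.log (n + 1) / n)) / Real.log 2)
      * (n * Real.log 2) = n * Real.log 2 + n * Real.binEntropy σ'
        - (n * Real.binEntropy (((⌊α * n⌋₊ : ℕ) : ℝ) / n) - Real.log (n + 1)) := by
    field_simp
    ring
  rw [e1]
  linarith

theorem ell_le_pair {σ α δ : ℝ} (hσ0 : 0 < σ) (hσα : σ < α) (hα : α ≤ 1 / 2) (hδ : 0 ≤ δ)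
    (hlt : 1 - 2 * δ < (1 - Fp σ α - Fm σ α) + 2 * Real.sqrt (Fp σ α * Fm σ α))
    (hp : 0 < Fp σ α) (hm : 0 < Fm σ α) :
    ell δ ≤ 1 + (Real.binEntropy σ - Real.binEntropy α) / Real.log 2 := by
  have hlim : Tendsto (fun σ' : ℝ => 1 + (Real.binEntropy σ' - Real.binEntropy α) / Real.log 2)
      (𝓝[>] σ) (𝓝 (1 + (Real.binEntropy σ - Real.binEntropy α) / Real.log 2)) := by
    apply Tendsto.const_add
    apply Tendsto.div_const
    apply Tendsto.sub_const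
    exact (Real.binEntropy_continuous.tendsto σ).mono_left nhdsWithin_le_nhds
  apply ge_of_tendsto hlim
  have : Set.Ioo σ (1 / 2) ∈ 𝓝[>] σ := Ioo_mem_nhdsGT (by linarith)
  filter_upwards [this] with x hx
  exact ell_le_aux hσ0 hσα hα hδ hlt hp hm hx.1 hx.2.le

/-- the second linear programming bound for the exponent -/
theorem ell_le_B {δ u : ℝ} (hδ0 : 0 < δ) (hu0 : 0 < u) (hu : u ≤ 1 - 2 * δ) :
    ell δ ≤ 1 + (Real.binEntropy (1 / 2 - 1 / 2 * Real.sqrt (1 - u ^ 2))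
      - Real.binEntropy (1 / 2 - 1 / 2 * Real.sqrt (1 - (u ^ 2 + 2 * δ * u + 2 * δ))))
        / Real.log 2 := by
  have hu1 : u < 1 := by linarith
  have hs2 : 0 < 1 - u ^ 2 := by nlinarith
  set s := Real.sqrt (1 - u ^ 2) with hs
  have hs0 : 0 < s := Real.sqrt_pos.2 hs2
  have hssq : s ^ 2 = 1 - u ^ 2 := Real.sq_sqrt hs2.le
  have hs1 : s < 1 := by nlinarith
  have hv : 0 ≤ 1 - (u ^ 2 + 2 * δ * u + 2 * δ) := by
    have : 1 - (u ^ 2 + 2 * δ * u + 2 * δ) = (1 + u) * (1 - 2 * δ - u) := by ring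
    rw [this]
    apply mul_nonneg <;> linarith
  set c0 := Real.sqrt (1 - (u ^ 2 + 2 * δ * u + 2 * δ)) with hc0
  have hc0n : 0 ≤ c0 := Real.sqrt_nonneg _
  have hc0sq : c0 ^ 2 = 1 - (u ^ 2 + 2 * δ * u + 2 * δ) := Real.sq_sqrt hv
  have hc0s : c0 < s := by
    apply lt_of_pow_lt_pow_left₀ 2 hs0.le
    rw [hssq, hc0sq]
    nlinarith
  set σ := 1 / 2 - 1 / 2 * s with hσ
  set α₀ := 1 / 2 - 1 / 2 * c0 with hα₀
  have hlim : Tendsto (fun α : ℝ => 1 + (Real.binEntropy σ - Real.binEntropy α) / Real.log 2)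
      (𝓝[<] α₀) (𝓝 (1 + (Real.binEntropy σ - Real.binEntropy α₀) / Real.log 2)) := by
    apply Tendsto.const_add
    apply Tendsto.div_const
    apply Tendsto.const_sub
    exact (Real.binEntropy_continuous.tendsto α₀).mono_left nhdsWithin_le_nhds
  apply ge_of_tendsto hlim
  have : Set.Ioo σ α₀ ∈ 𝓝[<] α₀ := Ioo_mem_nhdsLT (by rw [hσ, hα₀]; linarith)
  filter_upwards [this] with α hα
  obtain ⟨hα1, hα2⟩ := hα
  set c := 1 - 2 * α with hc
  have hcc0 : c0 < c := by rw [hc]; linarith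
  have hcs : c < s := by rw [hc]; linarith
  have hD : 0 < s ^ 2 - c ^ 2 := by nlinarith
  have hFp : Fp σ α = (1 - σ) * (s ^ 2 - c ^ 2) / s ^ 2 := by
    unfold Fp Gp
    have e1 : (1 - 2 * σ) * (1 - 2 * σ + 0) = s ^ 2 := by rw [hσ]; ring
    rw [e1]
    congr 1
    rw [hσ, hc]
    ring
  have hFm : Fm σ α = σ * (s ^ 2 - c ^ 2) / s ^ 2 := by
    unfold Fm Gm
    have e1 : (1 + 2 * 0 - 2 * σ) * (1 - 2 * σ + 0) = s ^ 2 := by rw [hσ]; ring
    rw [e1]
    congr 1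
    rw [hσ, hc]
    ring
  have hσ0 : 0 < σ := by rw [hσ]; linarith
  have hσ1 : σ < 1 := by rw [hσ]; linarith
  have hp : 0 < Fp σ α := by
    rw [hFp]
    apply div_pos (mul_pos (by linarith) hD) (by positivity)
  have hm : 0 < Fm σ α := by
    rw [hFm]
    apply div_pos (mul_pos hσ0 hD) (by positivity)
  apply ell_le_pair hσ0 hα1 (by linarith) hδ0.le _ hp hm
  have hsqrt : Real.sqrt (Fp σ α * Fm σ α) = u / 2 * ((s ^ 2 - c ^ 2) / s ^ 2) := by
    have : Fp σ α * Fm σ α = (u / 2 * ((s ^ 2 - c ^ 2) / s ^ 2)) ^ 2 := by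
      rw [hFp, hFm]
      have e2 : σ * (1 - σ) = (u / 2) ^ 2 := by
        rw [hσ]
        nlinarith
      calc (1 - σ) * (s ^ 2 - c ^ 2) / s ^ 2 * (σ * (s ^ 2 - c ^ 2) / s ^ 2)
          = (σ * (1 - σ)) * ((s ^ 2 - c ^ 2) / s ^ 2) ^ 2 := by ring
        _ = _ := by rw [e2]; ring
    rw [this, Real.sqrt_sq]
    positivity
  rw [hsqrt, hFp, hFm]
  have e3 : 1 - (1 - σ) * (s ^ 2 - c ^ 2) / s ^ 2 - σ * (s ^ 2 - c ^ 2) / s ^ 2
      + 2 * (u / 2 * ((s ^ 2 - c ^ 2) / s ^ 2)) = (c ^ 2 * (1 - u) + u * s ^ 2) / s ^ 2 := by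
    field_simp
    ring
  rw [e3, lt_div_iff₀ (by positivity), hssq]
  have h1 : c0 ^ 2 < c ^ 2 := by nlinarith
  rw [hc0sq] at h1
  have h2 : 0 < (1 - u) * (c ^ 2 - (1 - (u ^ 2 + 2 * δ * u + 2 * δ))) :=
    mul_pos (by linarith) (by linarith)
  nlinarith

end Pool.Agent.Lib.MP_0430e4_lc.Tensor
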