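import Mathlib

/-!
# Exponents of submultiplicative code parameters

If `Φ n d ≥ 1` decreases in `d`, `Φ (n + r) d ≤ 2 ^ r * Φ n d` and
`Φ (k * n) (k * d + 1) ≤ Φ n (d + 1) ^ k`, then `logb 2 (Φ n (⌊δ n⌋ + 1)) / n` converges to its
infimum over `n ≥ 1`.
-/

set_option autoImplicit false

namespace Pool.Agent.Lib.MP_0430e4_lc

open Filter Topology

/-- The normalised exponent. -/
noncomputable def expo (Φ : ℕ → ℕ → ℝ) (δ : ℝ) (n : ℕ) : ℝ :=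
  Real.logb 2 (Φ n (⌊δ * n⌋₊ + 1)) / n

section

variable {Φ : ℕ → ℕ → ℝ}

theorem expo_nonneg (h1 : ∀ n d, 1 ≤ Φ n d) (δ : ℝ) (n : ℕ) : 0 ≤ expo Φ δ n :=
  div_nonneg (Real.logb_nonneg (by norm_num) (h1 _ _)) (Nat.cast_nonneg _)

theorem expo_step (h1 : ∀ n d, 1 ≤ Φ n d) (hmono : ∀ n d d', d ≤ d' → Φ n d' ≤ Φ n d)
    (hext : ∀ n r d, Φ (n + r) d ≤ 2 ^ r * Φ n d)
    (hpow : ∀ n k d, Φ (k * n) (k * d + 1) ≤ Φ n (d + 1) ^ k)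
    {δ : ℝ} (hδ : 0 ≤ δ) {n : ℕ} (hn : 1 ≤ n) {N : ℕ} (hN : 1 ≤ N) :
    expo Φ δ N ≤ n / N + expo Φ δ n := by
  have hn0 : (0 : ℝ) < n := by exact_mod_cast hn
  have hN0 : (0 : ℝ) < N := by exact_mod_cast hN
  set k := N / n with hk
  set r := N % n with hr
  have hNkr : N = k * n + r := by
    rw [hk, hr, mul_comm]
    exact (Nat.div_add_mod N n).symm
  have hrn : r < n := Nat.mod_lt _ hn
  set d := ⌊δ * n⌋₊ with hd
  have hD : k * d + 1 ≤ ⌊δ * N⌋₊ + 1 := by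
    apply Nat.succ_le_succ
    apply Nat.le_floor
    have h2 : (d : ℝ) ≤ δ * n := Nat.floor_le (by positivity)
    have h3 : ((k * n : ℕ) : ℝ) ≤ N := by
      exact_mod_cast (by omega : k * n ≤ N)
    push_cast at h3 ⊢
    calc (k : ℝ) * d ≤ k * (δ * n) := by gcongr
      _ = δ * (k * n) := by ring
      _ ≤ δ * N := by gcongr
  have hmain : Φ N (⌊δ * N⌋₊ + 1) ≤ 2 ^ r * Φ n (d + 1) ^ k := by
    calc Φ N (⌊δ * N⌋₊ + 1) ≤ Φ N (k * d + 1) := hmono _ _ _ hD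
      _ = Φ (k * n + r) (k * d + 1) := by rw [← hNkr]
      _ ≤ 2 ^ r * Φ (k * n) (k * d + 1) := hext _ _ _
      _ ≤ 2 ^ r * Φ n (d + 1) ^ k := by
        gcongr
        exact hpow _ _ _
  have hpos : 0 < Φ N (⌊δ * N⌋₊ + 1) := lt_of_lt_of_le one_pos (h1 _ _)
  have hpos' : 0 < Φ n (d + 1) := lt_of_lt_of_le one_pos (h1 _ _)
  have hlog : Real.logb 2 (Φ N (⌊δ * N⌋₊ + 1)) ≤ r + k * Real.logb 2 (Φ n (d + 1)) := by
    have h2 := Real.logb_le_logb_of_le (b := 2) (by norm_num) hpos hmain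
    rw [Real.logb_mul (by positivity) (by positivity), Real.logb_pow, Real.logb_pow,
      Real.logb_self_eq_one (by norm_num)] at h2
    simpa using h2
  have hlog0 : 0 ≤ Real.logb 2 (Φ n (d + 1)) := Real.logb_nonneg (by norm_num) (h1 _ _)
  unfold expo
  rw [← hd, div_le_iff₀ hN0]
  have e1 : ((n : ℝ) / N + Real.logb 2 (Φ n (d + 1)) / n) * N
      = n + Real.logb 2 (Φ n (d + 1)) * (N / n) := by
    field_simp
  rw [e1]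
  have h4 : (k : ℝ) ≤ N / n := by
    rw [le_div_iff₀ hn0]
    exact_mod_cast (by omega : k * n ≤ N)
  have h5 : (r : ℝ) ≤ n := by exact_mod_cast hrn.le
  calc _ ≤ (r : ℝ) + k * Real.logb 2 (Φ n (d + 1)) := hlog
    _ ≤ n + (N / n) * Real.logb 2 (Φ n (d + 1)) := by gcongr
    _ = _ := by ring

/-- The limit of the exponents. -/
noncomputable def limExpo (Φ : ℕ → ℕ → ℝ) (δ : ℝ) : ℝ := sInf (expo Φ δ '' Set.Ici 1)

theorem limExpo_le (h1 : ∀ n d, 1 ≤ Φ n d) (δ : ℝ) {n : ℕ} (hn : 1 ≤ n) :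
    limExpo Φ δ ≤ expo Φ δ n := by
  apply csInf_le
  · exact ⟨0, by rintro _ ⟨m, -, rfl⟩; exact expo_nonneg h1 δ m⟩
  · exact ⟨n, hn, rfl⟩

theorem limExpo_nonneg (h1 : ∀ n d, 1 ≤ Φ n d) (δ : ℝ) : 0 ≤ limExpo Φ δ := by
  apply Real.sInf_nonneg
  rintro _ ⟨m, -, rfl⟩
  exact expo_nonneg h1 δ m

theorem tendsto_expo (h1 : ∀ n d, 1 ≤ Φ n d) (hmono : ∀ n d d', d ≤ d' → Φ n d' ≤ Φ n d)
    (hext : ∀ n r d, Φ (n + r) d ≤ 2 ^ r * Φ n d)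
    (hpow : ∀ n k d, Φ (k * n) (k * d + 1) ≤ Φ n (d + 1) ^ k)
    {δ : ℝ} (hδ : 0 ≤ δ) :
    Tendsto (expo Φ δ) atTop (𝓝 (limExpo Φ δ)) := by
  rw [tendsto_order]
  constructor
  · intro a ha
    filter_upwards [eventually_ge_atTop 1] with n hn
    exact lt_of_lt_of_le ha (limExpo_le h1 δ hn)
  · intro a ha
    obtain ⟨x, ⟨n, hn, rfl⟩, hx⟩ := exists_lt_of_csInf_lt (s := expo Φ δ '' Set.Ici 1)
      ⟨_, 1, Set.mem_Ici.2 le_rfl, rfl⟩ ha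
    have h2 : Tendsto (fun N : ℕ => (n : ℝ) / N + expo Φ δ n) atTop (𝓝 (0 + expo Φ δ n)) :=
      (tendsto_const_div_atTop_nhds_zero_nat _).add_const _
    rw [zero_add] at h2
    filter_upwards [eventually_ge_atTop 1, h2.eventually_lt_const hx] with N hN hN2
    exact lt_of_le_of_lt (expo_step h1 hmono hext hpow hδ hn hN) hN2

theorem ceil_step (h1 : ∀ n d, 1 ≤ Φ n d)
    {B : ℕ → ℕ → ℝ} (hB : ∀ n d, B n d ≤ Φ n d) (hB1 : ∀ n d, 1 ≤ B n d)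
    (hshort : ∀ n d, B (n + 1) d ≤ 2 * B n d)
    (hBmono : ∀ n d d', d ≤ d' → B n d' ≤ B n d)
    {δ : ℝ} (hδ : 0 < δ) (m : ℕ) (hm : 1 ≤ m) :
    Real.logb 2 (B (m + 1) ⌈δ * (m + 1 : ℕ)⌉₊) / (m + 1 : ℕ)
      ≤ 1 / ((m : ℝ) + 1) + expo Φ δ m := by
  have hc : ⌊δ * m⌋₊ + 1 ≤ ⌈δ * (m + 1 : ℕ)⌉₊ := by
    rw [Nat.succ_le_iff, Nat.lt_ceil]
    calc ((⌊δ * m⌋₊ : ℕ) : ℝ) ≤ δ * m := Nat.floor_le (by positivity)
      _ < δ * (m + 1 : ℕ) := by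
        push_cast
        nlinarith
  have h2 : B (m + 1) ⌈δ * (m + 1 : ℕ)⌉₊ ≤ 2 * Φ m (⌊δ * m⌋₊ + 1) := by
    have h4 := hBmono m _ _ hc
    have h5 := hB m (⌊δ * m⌋₊ + 1)
    have h6 := hshort m ⌈δ * (m + 1 : ℕ)⌉₊
    linarith
  have hpos : 0 < B (m + 1) ⌈δ * (m + 1 : ℕ)⌉₊ := lt_of_lt_of_le one_pos (hB1 _ _)
  have hpos' : 0 < Φ m (⌊δ * m⌋₊ + 1) := lt_of_lt_of_le one_pos (h1 _ _)
  have h4 := Real.logb_le_logb_of_le (b := 2) (by norm_num) hpos h2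
  rw [Real.logb_mul (by norm_num) hpos'.ne', Real.logb_self_eq_one (by norm_num)] at h4
  have hlog0 : 0 ≤ Real.logb 2 (Φ m (⌊δ * m⌋₊ + 1)) := Real.logb_nonneg (by norm_num) (h1 _ _)
  unfold expo
  have hm0 : (0 : ℝ) < m := by exact_mod_cast hm
  have h5 : Real.logb 2 (B (m + 1) ⌈δ * (m + 1 : ℕ)⌉₊) / (m + 1 : ℕ)
      ≤ (1 + Real.logb 2 (Φ m (⌊δ * m⌋₊ + 1))) / (m + 1 : ℕ) := by
    gcongr
  refine h5.trans ?_
  rw [add_div]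
  push_cast
  gcongr
  linarith

theorem ceil_step' (h1 : ∀ n d, 1 ≤ Φ n d)
    {B : ℕ → ℕ → ℝ} (hB : ∀ n d, B n d ≤ Φ n d) (hB1 : ∀ n d, 1 ≤ B n d)
    (hshort : ∀ n d, B (n + 1) d ≤ 2 * B n d)
    (hBmono : ∀ n d d', d ≤ d' → B n d' ≤ B n d)
    {δ : ℝ} (hδ : 0 < δ) (n : ℕ) (hn : 2 ≤ n) :
    Real.logb 2 (B n ⌈δ * n⌉₊) / n ≤ 1 / (n : ℝ) + expo Φ δ (n - 1) := by
  obtain ⟨m, rfl⟩ : ∃ m, n = m + 1 := ⟨n - 1, by omega⟩
  have := ceil_step h1 hB hB1 hshort hBmono hδ m (by omega)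
  simpa using this

theorem tendsto_shift (h1 : ∀ n d, 1 ≤ Φ n d) (hmono : ∀ n d d', d ≤ d' → Φ n d' ≤ Φ n d)
    (hext : ∀ n r d, Φ (n + r) d ≤ 2 ^ r * Φ n d)
    (hpow : ∀ n k d, Φ (k * n) (k * d + 1) ≤ Φ n (d + 1) ^ k)
    {δ : ℝ} (hδ : 0 < δ) :
    Tendsto (fun n : ℕ => 1 / (n : ℝ) + expo Φ δ (n - 1)) atTop (𝓝 (limExpo Φ δ)) := by
  have hlim : Tendsto (fun n : ℕ => 1 / (n : ℝ) + expo Φ δ (n - 1)) atTop
      (𝓝 (0 + limExpo Φ δ)) := by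
    apply Tendsto.add tendsto_one_div_atTop_nhds_zero_nat
    exact (tendsto_expo h1 hmono hext hpow hδ.le).comp (tendsto_sub_atTop_nat 1)
  rwa [zero_add] at hlim

/-- The same limit with `⌈δ n⌉` in place of `⌊δ n⌋ + 1`. -/
theorem tendsto_ceil (h1 : ∀ n d, 1 ≤ Φ n d) (hmono : ∀ n d d', d ≤ d' → Φ n d' ≤ Φ n d)
    (hext : ∀ n r d, Φ (n + r) d ≤ 2 ^ r * Φ n d)
    (hpow : ∀ n k d, Φ (k * n) (k * d + 1) ≤ Φ n (d + 1) ^ k)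
    {δ : ℝ} (hδ : 0 < δ) :
    Tendsto (fun n : ℕ => Real.logb 2 (Φ n ⌈δ * n⌉₊) / n) atTop (𝓝 (limExpo Φ δ)) := by
  apply tendsto_of_tendsto_of_tendsto_of_le_of_le' (tendsto_expo h1 hmono hext hpow hδ.le)
    (tendsto_shift h1 hmono hext hpow hδ)
  · filter_upwards with n
    unfold expo
    have h2 : ⌈δ * n⌉₊ ≤ ⌊δ * n⌋₊ + 1 := Nat.ceil_le_floor_add_one _
    have h3 := hmono n _ _ h2
    have hpos : 0 < Φ n (⌊δ * n⌋₊ + 1) := lt_of_lt_of_le one_pos (h1 _ _)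
    have h4 := Real.logb_le_logb_of_le (b := 2) (by norm_num) hpos h3
    gcongr
  · filter_upwards [eventually_ge_atTop 2] with n hn
    exact ceil_step' h1 (fun _ _ => le_rfl) h1 (fun n d => by simpa using hext n 1 d) hmono hδ n hn

/-- Code sizes bounded by `Φ` have limsup exponent at most the limit. -/
theorem limsup_le (h1 : ∀ n d, 1 ≤ Φ n d) (hmono : ∀ n d d', d ≤ d' → Φ n d' ≤ Φ n d)
    (hext : ∀ n r d, Φ (n + r) d ≤ 2 ^ r * Φ n d)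
    (hpow : ∀ n k d, Φ (k * n) (k * d + 1) ≤ Φ n (d + 1) ^ k)
    {A : ℕ → ℕ → ℕ} (hA : ∀ n d, (A n d : ℝ) ≤ Φ n d) (hA1 : ∀ n d, 1 ≤ A n d)
    {δ : ℝ} (hδ : 0 < δ) :
    limsup (fun n : ℕ => Real.logb 2 (A n ⌈δ * n⌉₊) / n) atTop ≤ limExpo Φ δ := by
  have hlim := tendsto_ceil h1 hmono hext hpow hδ
  rw [← hlim.limsup_eq]
  apply limsup_le_limsup
  · filter_upwards with n
    have hpos : (0 : ℝ) < A n ⌈δ * n⌉₊ := by exact_mod_cast hA1 _ _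
    have h4 := Real.logb_le_logb_of_le (b := 2) (by norm_num) hpos (hA n ⌈δ * n⌉₊)
    gcongr
  · apply IsCoboundedUnder.of_frequently_ge (a := 0)
    apply Eventually.frequently
    filter_upwards with n
    exact div_nonneg (Real.logb_nonneg (by norm_num) (by exact_mod_cast hA1 _ _))
      (Nat.cast_nonneg _)
  · exact hlim.isBoundedUnder_le

theorem isGLB_limExpo (h1 : ∀ n d, 1 ≤ Φ n d) (δ : ℝ) :
    IsGLB {x : ℝ | ∃ n : ℕ, 1 ≤ n ∧ x = Real.logb 2 (Φ n (⌊δ * n⌋₊ + 1)) / n}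
      (limExpo Φ δ) := by
  constructor
  · rintro _ ⟨n, hn, rfl⟩
    exact limExpo_le h1 δ hn
  · intro b hb
    apply le_csInf
    · exact ⟨_, 1, Set.mem_Ici.2 le_rfl, rfl⟩
    · rintro _ ⟨n, hn, rfl⟩
      exact hb ⟨n, hn, rfl⟩

end

end Pool.Agent.Lib.MP_0430e4_lc
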