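import Mathlib

/-!
# Shannon capacities of the graphs of close binary words
-/

set_option autoImplicit false

namespace Pool.Agent.Lib.MP_0430e4_lc

open Finset

/-- `closeGraph n d` joins two distinct binary words of length `n` when their Hamming distance is
less than `d`; its independent sets are the binary codes of minimum distance at least `d`. -/
def closeGraph (n d : ℕ) : SimpleGraph (Fin n → Bool) where
  Adj x y := x ≠ y ∧ hammingDist x y < d
  symm := ⟨fun x y h => ⟨h.1.symm, by rw [hammingDist_comm]; exact h.2⟩⟩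
  loopless := ⟨fun x h => h.1 rfl⟩

/-- The `k`-th strong power of a graph. -/
def strongPow {V : Type} (G : SimpleGraph V) (k : ℕ) : SimpleGraph (Fin k → V) where
  Adj x y := x ≠ y ∧ ∀ i, x i = y i ∨ G.Adj (x i) (y i)
  symm := ⟨fun x y h => ⟨h.1.symm, fun i => (h.2 i).imp Eq.symm (fun h => h.symm)⟩⟩
  loopless := ⟨fun x h => h.1 rfl⟩

/-- The Shannon capacity `sup_{k ≥ 1} α(G^k)^{1/k}`. -/
noncomputable def shannonCapacity {V : Type} (G : SimpleGraph V) : ℝ :=
  ⨆ k : ℕ, ((strongPow G (k + 1)).indepNum : ℝ) ^ ((1 : ℝ) / (k + 1))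

section General

variable {V : Type} [Fintype V]

theorem indepNum_le_card (G : SimpleGraph V) : G.indepNum ≤ Fintype.card V := by
  classical
  obtain ⟨s, hs⟩ := G.exists_isNIndepSet_indepNum
  rw [← hs.card_eq]
  exact Finset.card_le_univ s

theorem le_indepNum (G : SimpleGraph V) (s : Finset V)
    (hs : ∀ x ∈ s, ∀ y ∈ s, x ≠ y → ¬ G.Adj x y) : #s ≤ G.indepNum := by
  apply SimpleGraph.IsIndepSet.card_le_indepNum
  intro x hx y hy hxy
  exact hs x hx y hy hxy

theorem exists_indep (G : SimpleGraph V) :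
    ∃ s : Finset V, (∀ x ∈ s, ∀ y ∈ s, x ≠ y → ¬ G.Adj x y) ∧ #s = G.indepNum := by
  obtain ⟨s, hs⟩ := G.exists_isNIndepSet_indepNum
  exact ⟨s, fun x hx y hy hxy => hs.isIndepSet hx hy hxy, hs.card_eq⟩

theorem one_le_indepNum [Nonempty V] (G : SimpleGraph V) : 1 ≤ G.indepNum := by
  obtain ⟨v⟩ := ‹Nonempty V›
  have := le_indepNum G {v} (by simp)
  simpa using this

theorem pow_indepNum_le (G : SimpleGraph V) (k : ℕ) :
    ((strongPow G (k + 1)).indepNum : ℝ) ^ ((1 : ℝ) / (k + 1)) ≤ Fintype.card V := by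
  have h1 : ((strongPow G (k + 1)).indepNum : ℝ) ≤ (Fintype.card V : ℝ) ^ (k + 1) := by
    have := indepNum_le_card (strongPow G (k + 1))
    rw [Fintype.card_fun, Fintype.card_fin] at this
    exact_mod_cast this
  calc ((strongPow G (k + 1)).indepNum : ℝ) ^ ((1 : ℝ) / (k + 1))
      ≤ ((Fintype.card V : ℝ) ^ (k + 1)) ^ ((1 : ℝ) / (k + 1)) := by
        gcongr
    _ = Fintype.card V := by
        rw [← Real.rpow_natCast, ← Real.rpow_mul (by positivity)]
        push_cast
        rw [mul_one_div_cancel (by positivity), Real.rpow_one]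

theorem bddAbove_capacity (G : SimpleGraph V) :
    BddAbove (Set.range fun k : ℕ =>
      ((strongPow G (k + 1)).indepNum : ℝ) ^ ((1 : ℝ) / (k + 1))) :=
  ⟨Fintype.card V, by rintro _ ⟨k, rfl⟩; exact pow_indepNum_le G k⟩

theorem term_le_capacity (G : SimpleGraph V) (k : ℕ) :
    ((strongPow G (k + 1)).indepNum : ℝ) ^ ((1 : ℝ) / (k + 1)) ≤ shannonCapacity G :=
  le_ciSup (bddAbove_capacity G) k

theorem one_le_capacity [Nonempty V] (G : SimpleGraph V) : 1 ≤ shannonCapacity G := by
  refine le_trans ?_ (term_le_capacity G 0)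
  have h1 : (1 : ℝ) ≤ ((strongPow G (0 + 1)).indepNum : ℝ) := by
    exact_mod_cast one_le_indepNum (strongPow G (0 + 1))
  exact Real.one_le_rpow h1 (by norm_num)

theorem indepNum_strongPow_le [Nonempty V] (G : SimpleGraph V) (m : ℕ) :
    ((strongPow G m).indepNum : ℝ) ≤ shannonCapacity G ^ m := by
  cases m with
  | zero =>
    have := indepNum_le_card (strongPow G 0)
    rw [Fintype.card_fun, Fintype.card_fin, pow_zero] at this
    rw [pow_zero]
    exact_mod_cast this
  | succ k =>
    have h := term_le_capacity G k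
    have h0 : (0 : ℝ) ≤ ((strongPow G (k + 1)).indepNum : ℝ) := Nat.cast_nonneg _
    calc ((strongPow G (k + 1)).indepNum : ℝ)
        = (((strongPow G (k + 1)).indepNum : ℝ) ^ ((1 : ℝ) / (k + 1))) ^ (k + 1) := by
          rw [← Real.rpow_natCast (_ ^ _), ← Real.rpow_mul h0]
          push_cast
          rw [one_div_mul_cancel (by positivity), Real.rpow_one]
      _ ≤ _ := by gcongr

theorem capacity_le {G : SimpleGraph V} {c : ℝ}
    (h : ∀ j : ℕ, ((strongPow G (j + 1)).indepNum : ℝ) ≤ c ^ (j + 1)) (hc : 0 ≤ c) :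
    shannonCapacity G ≤ c := by
  apply ciSup_le
  intro j
  calc ((strongPow G (j + 1)).indepNum : ℝ) ^ ((1 : ℝ) / (j + 1))
      ≤ (c ^ (j + 1)) ^ ((1 : ℝ) / (j + 1)) := by
        gcongr
        exact h j
    _ = c := by
        rw [← Real.rpow_natCast, ← Real.rpow_mul hc]
        push_cast
        rw [mul_one_div_cancel (by positivity), Real.rpow_one]

/-- An injective map sending distinct nonadjacent vertices to distinct nonadjacent vertices. -/
theorem indepNum_le_of_map {W : Type} [Fintype W] (G : SimpleGraph V) (H : SimpleGraph W)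
    (f : V → W)
    (hf : ∀ x y, x ≠ y → ¬ G.Adj x y → f x ≠ f y ∧ ¬ H.Adj (f x) (f y)) :
    G.indepNum ≤ H.indepNum := by
  classical
  obtain ⟨s, hs, hc⟩ := exists_indep G
  rw [← hc]
  have hinj : Set.InjOn f s := by
    intro x hx y hy hxy
    by_contra hne
    exact (hf x y hne (hs x hx y hy hne)).1 hxy
  rw [← Finset.card_image_of_injOn hinj]
  apply le_indepNum
  intro a ha b hb hab
  obtain ⟨x, hx, rfl⟩ := Finset.mem_image.1 ha
  obtain ⟨y, hy, rfl⟩ := Finset.mem_image.1 hb
  have hne : x ≠ y := fun h => hab (by rw [h])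
  exact (hf x y hne (hs x hx y hy hne)).2

theorem indepNum_le_strongPow_one (G : SimpleGraph V) :
    G.indepNum ≤ (strongPow G (0 + 1)).indepNum := by
  apply indepNum_le_of_map G _ (fun v _ => v)
  intro x y hxy hadj
  refine ⟨fun h => hxy (congrFun h 0), fun h => ?_⟩
  rcases h.2 0 with h2 | h2
  · exact hxy h2
  · exact hadj h2

theorem indepNum_le_capacity [Nonempty V] (G : SimpleGraph V) :
    (G.indepNum : ℝ) ≤ shannonCapacity G := by
  have h1 := indepNum_strongPow_le G (0 + 1)
  rw [zero_add, pow_one] at h1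
  refine le_trans ?_ h1
  exact_mod_cast indepNum_le_strongPow_one G

end General

section Words

theorem not_adj_closeGraph {n d : ℕ} {x y : Fin n → Bool} (hxy : x ≠ y) :
    ¬ (closeGraph n d).Adj x y ↔ d ≤ hammingDist x y := by
  simp [closeGraph, hxy]

theorem not_adj_strongPow_closeGraph {n d k : ℕ} {x y : Fin k → Fin n → Bool} (hxy : x ≠ y) :
    ¬ (strongPow (closeGraph n d) k).Adj x y ↔ ∃ i, x i ≠ y i ∧ d ≤ hammingDist (x i) (y i) := by
  simp only [strongPow, closeGraph, ne_eq, hxy, not_false_eq_true, true_and, not_forall,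
    not_or, not_and, not_lt]
  constructor
  · rintro ⟨i, h1, h2⟩
    exact ⟨i, h1, h2 h1⟩
  · rintro ⟨i, h1, h2⟩
    exact ⟨i, h1, fun _ => h2⟩

theorem hammingDist_eq_sum {ι : Type} [Fintype ι] (x y : ι → Bool) :
    hammingDist x y = ∑ i, if x i ≠ y i then 1 else 0 := by
  rw [hammingDist, Finset.card_filter]

theorem hammingDist_add {n r : ℕ} (x y : Fin (n + r) → Bool)
    (h : ∀ t : Fin r, x (Fin.natAdd n t) = y (Fin.natAdd n t)) :
    hammingDist x y = hammingDist (fun t => x (Fin.castAdd r t)) (fun t => y (Fin.castAdd r t)) := by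
  rw [hammingDist_eq_sum, hammingDist_eq_sum, Fin.sum_univ_add]
  simp [h]

theorem hammingDist_mul {k n : ℕ} (x y : Fin (k * n) → Bool) :
    hammingDist x y = ∑ b : Fin k, hammingDist (fun t => x (finProdFinEquiv (b, t)))
      (fun t => y (finProdFinEquiv (b, t))) := by
  simp only [hammingDist_eq_sum]
  rw [← finProdFinEquiv.sum_comp, Fintype.sum_prod_type]

theorem indepNum_mono {n d d' : ℕ} (h : d ≤ d') (j : ℕ) :
    (strongPow (closeGraph n d') j).indepNum ≤ (strongPow (closeGraph n d) j).indepNum := by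
  apply indepNum_le_of_map _ _ id
  intro x y hxy hadj
  refine ⟨hxy, ?_⟩
  rw [not_adj_strongPow_closeGraph hxy] at hadj
  rw [id, id, not_adj_strongPow_closeGraph hxy]
  obtain ⟨i, h1, h2⟩ := hadj
  exact ⟨i, h1, h.trans h2⟩

theorem indepNum_ext (n r d j : ℕ) :
    (strongPow (closeGraph (n + r) d) j).indepNum
      ≤ (strongPow (closeGraph n d) j).indepNum * 2 ^ (r * j) := by
  classical
  obtain ⟨s, hs, hc⟩ := exists_indep (strongPow (closeGraph (n + r) d) j)
  rw [← hc]
  have hcard : #(Finset.univ : Finset (Fin j → Fin r → Bool)) = 2 ^ (r * j) := by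
    rw [Finset.card_univ, Fintype.card_fun, Fintype.card_fun, Fintype.card_fin, Fintype.card_fin,
      Fintype.card_bool, ← pow_mul]
  rw [← hcard]
  apply Finset.card_le_mul_card_image_of_maps_to
    (f := fun w i t => w i (Fin.natAdd n t)) (fun a _ => Finset.mem_univ _)
  intro b _
  set F := s.filter (fun w => (fun i t => w i (Fin.natAdd n t)) = b) with hF
  have hprop : ∀ x ∈ F, ∀ y ∈ F, x ≠ y →
      (fun i t => x i (Fin.castAdd r t)) ≠ (fun (i : Fin j) (t : Fin n) => y i (Fin.castAdd r t)) ∧
      ¬ (strongPow (closeGraph n d) j).Adj (fun i t => x i (Fin.castAdd r t))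
        (fun i t => y i (Fin.castAdd r t)) := by
    intro x hx y hy hxy
    rw [hF, Finset.mem_filter] at hx hy
    have hsame : ∀ i t, x i (Fin.natAdd n t) = y i (Fin.natAdd n t) := by
      intro i t
      have := hx.2.trans hy.2.symm
      exact congrFun (congrFun this i) t
    have hadj := hs x hx.1 y hy.1 hxy
    rw [not_adj_strongPow_closeGraph hxy] at hadj
    obtain ⟨i, h1, h2⟩ := hadj
    rw [hammingDist_add _ _ (hsame i)] at h2
    have hne1 : (fun t => x i (Fin.castAdd r t)) ≠ (fun (t : Fin n) => y i (Fin.castAdd r t)) := by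
      intro h
      apply h1
      funext t
      refine Fin.addCases (fun t => ?_) (fun t => ?_) t
      · exact congrFun h t
      · exact hsame i t
    have hne : (fun i t => x i (Fin.castAdd r t)) ≠
        (fun (i : Fin j) (t : Fin n) => y i (Fin.castAdd r t)) := fun h => hne1 (congrFun h i)
    exact ⟨hne, (not_adj_strongPow_closeGraph hne).2 ⟨i, hne1, h2⟩⟩
  have hinj : Set.InjOn (fun (w : Fin j → Fin (n + r) → Bool) i t => w i (Fin.castAdd r t)) F := by
    intro x hx y hy hxy
    by_contra hne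
    exact (hprop x hx y hy hne).1 hxy
  rw [← Finset.card_image_of_injOn hinj]
  apply le_indepNum
  intro a ha b hb hab
  obtain ⟨x, hx, rfl⟩ := Finset.mem_image.1 ha
  obtain ⟨y, hy, rfl⟩ := Finset.mem_image.1 hb
  have hne : x ≠ y := fun h => hab (by rw [h])
  exact (hprop x hx y hy hne).2

theorem indepNum_mul (n k d j : ℕ) :
    (strongPow (closeGraph (k * n) (k * d + 1)) j).indepNum
      ≤ (strongPow (closeGraph n (d + 1)) (j * k)).indepNum := by
  apply indepNum_le_of_map _ _ (fun w l t =>
    w (finProdFinEquiv.symm l).1 (finProdFinEquiv ((finProdFinEquiv.symm l).2, t)))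
  intro x y hxy hadj
  rw [not_adj_strongPow_closeGraph hxy] at hadj
  obtain ⟨i, h1, h2⟩ := hadj
  rw [hammingDist_mul] at h2
  obtain ⟨b, -, hb⟩ : ∃ b ∈ (Finset.univ : Finset (Fin k)),
      d < hammingDist (fun t => x i (finProdFinEquiv (b, t)))
        (fun t => y i (finProdFinEquiv (b, t))) := by
    by_contra hcon
    push_neg at hcon
    have := Finset.sum_le_card_nsmul _ _ _ hcon
    rw [Finset.card_univ, Fintype.card_fin, smul_eq_mul] at this
    omega
  have hne1 : (fun t => x i (finProdFinEquiv (b, t))) ≠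
      (fun t => y i (finProdFinEquiv (b, t))) := by
    intro h
    rw [h, hammingDist_self] at hb
    omega
  have hblock : ∀ (w : Fin j → Fin (k * n) → Bool), (fun l t =>
      w (finProdFinEquiv.symm l).1 (finProdFinEquiv ((finProdFinEquiv.symm l).2, t)))
      (finProdFinEquiv (i, b)) = (fun t => w i (finProdFinEquiv (b, t))) := by
    intro w
    funext t
    simp
  have hne : (fun l t =>
      x (finProdFinEquiv.symm l).1 (finProdFinEquiv ((finProdFinEquiv.symm l).2, t))) ≠
      (fun (l : Fin (j * k)) t =>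
      y (finProdFinEquiv.symm l).1 (finProdFinEquiv ((finProdFinEquiv.symm l).2, t))) := by
    intro h
    apply hne1
    have := congrFun h (finProdFinEquiv (i, b))
    rw [← hblock x, ← hblock y]
    exact this
  refine ⟨hne, (not_adj_strongPow_closeGraph hne).2 ⟨finProdFinEquiv (i, b), ?_, ?_⟩⟩
  · intro h
    apply hne1
    rw [← hblock x, ← hblock y]
    exact h
  · have e1 := hblock x
    have e2 := hblock y
    simp only at e1 e2 ⊢
    rw [e1, e2]
    omega

/-- The capacity `Θ(closeGraph n d)`. -/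
noncomputable def cap (n d : ℕ) : ℝ := shannonCapacity (closeGraph n d)

theorem one_le_cap (n d : ℕ) : 1 ≤ cap n d := one_le_capacity _

theorem cap_mono (n d d' : ℕ) (h : d ≤ d') : cap n d' ≤ cap n d := by
  apply capacity_le _ (le_trans zero_le_one (one_le_cap n d))
  intro j
  calc ((strongPow (closeGraph n d') (j + 1)).indepNum : ℝ)
      ≤ ((strongPow (closeGraph n d) (j + 1)).indepNum : ℝ) := by
        exact_mod_cast indepNum_mono h (j + 1)
    _ ≤ _ := indepNum_strongPow_le _ _

theorem cap_ext (n r d : ℕ) : cap (n + r) d ≤ 2 ^ r * cap n d := by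
  have h1 := one_le_cap n d
  apply capacity_le _ (by positivity)
  intro j
  calc ((strongPow (closeGraph (n + r) d) (j + 1)).indepNum : ℝ)
      ≤ ((strongPow (closeGraph n d) (j + 1)).indepNum : ℝ) * 2 ^ (r * (j + 1)) := by
        exact_mod_cast indepNum_ext n r d (j + 1)
    _ ≤ (shannonCapacity (closeGraph n d)) ^ (j + 1) * 2 ^ (r * (j + 1)) := by
        gcongr
        exact indepNum_strongPow_le _ _
    _ = (2 ^ r * cap n d) ^ (j + 1) := by
        rw [mul_pow, ← pow_mul, cap]
        ring

theorem cap_pow (n k d : ℕ) : cap (k * n) (k * d + 1) ≤ cap n (d + 1) ^ k := by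
  have h1 := one_le_cap n (d + 1)
  apply capacity_le _ (by positivity)
  intro j
  calc ((strongPow (closeGraph (k * n) (k * d + 1)) (j + 1)).indepNum : ℝ)
      ≤ ((strongPow (closeGraph n (d + 1)) ((j + 1) * k)).indepNum : ℝ) := by
        exact_mod_cast indepNum_mul n k d (j + 1)
    _ ≤ (shannonCapacity (closeGraph n (d + 1))) ^ ((j + 1) * k) := indepNum_strongPow_le _ _
    _ = (cap n (d + 1) ^ k) ^ (j + 1) := by
        rw [← pow_mul, cap, mul_comm]

end Words

end Pool.Agent.Lib.MP_0430e4_lc
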