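import Mathlib

/-!
# Tensorisable linear programming certificates for binary codes

A certificate of level `l` on the cube indexed by `ι` is a nonnegative function `h` with
nonnegative Fourier transform, `h 0 > 0` and `l * h y ≤ ∑ i, h (y + e_i)` for every `y`.
-/

set_option autoImplicit false
set_option linter.unusedSectionVars false

namespace Pool.Agent.Lib.MP_0430e4_lc.Tensor

open Finset

variable {ι κ : Type*} [Fintype ι] [DecidableEq ι] [Fintype κ] [DecidableEq κ]

/-- `(-1)^{ab}` -/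
def sg (a b : Bool) : ℝ := if a = true ∧ b = true then -1 else 1

/-- the character `(-1)^{⟨x, y⟩}` -/
def chi (x y : ι → Bool) : ℝ := ∏ i, if x i = true ∧ y i = true then (-1 : ℝ) else 1

/-- flip the `i`-th coordinate -/
def flp (y : ι → Bool) (i : ι) : ι → Bool := Function.update y i (!(y i))

structure IsCert (l : ℝ) (h : (ι → Bool) → ℝ) : Prop where
  nonneg : ∀ y, 0 ≤ h y
  fourier : ∀ x, 0 ≤ ∑ y, h y * chi x y
  adj : ∀ y, l * h y ≤ ∑ i, h (flp y i)
  pos : 0 < h (fun _ => false)

theorem chi_eq (x y : ι → Bool) : chi x y = ∏ i, sg (x i) (y i) := rfl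

theorem sg_xor (a a' b : Bool) : sg (xor a a') b = sg a b * sg a' b := by
  cases a <;> cases a' <;> cases b <;> simp [sg]

theorem sg_not (a b : Bool) : sg a (!b) = (if a = true then (-1 : ℝ) else 1) * sg a b := by
  cases a <;> cases b <;> simp [sg]

theorem sg_comm (a b : Bool) : sg a b = sg b a := by
  cases a <;> cases b <;> simp [sg]

theorem sg_false (a : Bool) : sg a false = 1 := by simp [sg]

theorem sg_false_left (a : Bool) : sg false a = 1 := by simp [sg]

theorem chi_comm (x y : ι → Bool) : chi x y = chi y x := by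
  simp only [chi_eq]
  exact Finset.prod_congr rfl fun i _ => sg_comm _ _

theorem chi_xor (x x' y : ι → Bool) :
    chi (fun i => xor (x i) (x' i)) y = chi x y * chi x' y := by
  simp only [chi_eq, sg_xor, Finset.prod_mul_distrib]

theorem chi_zero_right (x : ι → Bool) : chi x (fun _ => false) = 1 := by
  simp [chi_eq, sg_false]

theorem chi_zero_left (y : ι → Bool) : chi (fun _ => false) y = 1 := by
  simp [chi_eq, sg_false_left]

theorem chi_flp (x y : ι → Bool) (i : ι) :
    chi x (flp y i) = (if x i = true then (-1 : ℝ) else 1) * chi x y := by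
  simp only [chi_eq, flp]
  rw [← Finset.mul_prod_erase Finset.univ _ (Finset.mem_univ i),
    ← Finset.mul_prod_erase Finset.univ (fun j => sg (x j) (y j)) (Finset.mem_univ i)]
  rw [Function.update_self, sg_not, mul_assoc]
  congr 2
  apply Finset.prod_congr rfl
  intro j hj
  rw [Function.update_of_ne (Finset.ne_of_mem_erase hj)]

theorem flp_flp (y : ι → Bool) (i : ι) : flp (flp y i) i = y := by
  unfold flp
  simp

/-- flipping a coordinate as a permutation -/
def flpPerm (i : ι) : Equiv.Perm (ι → Bool) :=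
  Function.Involutive.toPerm (fun y => flp y i) (fun y => flp_flp y i)

theorem sum_flp (i : ι) (f : (ι → Bool) → ℝ) : ∑ y, f (flp y i) = ∑ y, f y :=
  Equiv.sum_comp (flpPerm i) f

theorem sum_ite_sign (x : ι → Bool) :
    ∑ i, (if x i = true then (-1 : ℝ) else 1)
      = Fintype.card ι - 2 * (univ.filter fun i => x i = true).card := by
  have : ∀ i, (if x i = true then (-1 : ℝ) else 1) = 1 - 2 * (if x i = true then (1 : ℝ) else 0) := by
    intro i
    split_ifs <;> norm_num
  simp only [this]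
  rw [Finset.sum_sub_distrib, ← Finset.mul_sum, Finset.sum_boole]
  simp

/-- Fourier transform of the neighbour sum -/
theorem sum_adj_chi (h : (ι → Bool) → ℝ) (x : ι → Bool) :
    ∑ y, (∑ i, h (flp y i)) * chi x y
      = (Fintype.card ι - 2 * (univ.filter fun i => x i = true).card) * ∑ y, h y * chi x y := by
  rw [← sum_ite_sign]
  calc ∑ y, (∑ i, h (flp y i)) * chi x y = ∑ i, ∑ y, h (flp y i) * chi x y := by
        simp only [Finset.sum_mul]
        rw [Finset.sum_comm]
    _ = ∑ i, ∑ y, h y * chi x (flp y i) := by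
        apply Finset.sum_congr rfl
        intro i _
        rw [← sum_flp i (fun y => h y * chi x (flp y i))]
        apply Finset.sum_congr rfl
        intro y _
        rw [flp_flp]
    _ = ∑ i, (if x i = true then (-1 : ℝ) else 1) * ∑ y, h y * chi x y := by
        apply Finset.sum_congr rfl
        intro i _
        rw [Finset.mul_sum]
        apply Finset.sum_congr rfl
        intro y _
        rw [chi_flp]
        ring
    _ = _ := by rw [← Finset.sum_mul]

theorem hammingDist_eq_card_xor (x y : ι → Bool) :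
    hammingDist x y = (univ.filter fun i => (xor (x i) (y i)) = true).card := by
  unfold hammingDist
  congr 1
  ext i
  simp only [mem_filter, mem_univ, true_and]
  cases x i <;> cases y i <;> simp

/-- The linear programming bound from a certificate. -/
theorem card_le_of_cert {l : ℝ} {h : (ι → Bool) → ℝ} (hh : IsCert l h)
    (C : Finset (ι → Bool)) (D : ℕ) (hC : ∀ x ∈ C, ∀ y ∈ C, x ≠ y → D ≤ hammingDist x y)
    (hl : (Fintype.card ι : ℝ) - 2 * D < l) :
    (C.card : ℝ) * ((l - (Fintype.card ι - 2 * D)) * h (fun _ => false)) ≤ 2 * D * ∑ y, h y := by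
  classical
  set μ : ℝ := Fintype.card ι - 2 * D with hμ
  set g : (ι → Bool) → ℝ := fun y => (∑ i, h (flp y i)) - μ * h y with hg
  have hg0 : ∀ y, (l - μ) * h y ≤ g y := by
    intro y
    have := hh.adj y
    simp only [hg]
    linarith
  have hgnn : ∀ y, 0 ≤ g y := fun y => le_trans (mul_nonneg (by linarith) (hh.nonneg y)) (hg0 y)
  -- the double sum
  have h1 : ∑ x ∈ C, ∑ x' ∈ C, ∑ y, g y * chi (fun i => xor (x i) (x' i)) y
      = ∑ y, g y * (∑ x ∈ C, chi x y) ^ 2 := by
    simp only [chi_xor]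
    calc ∑ x ∈ C, ∑ x' ∈ C, ∑ y, g y * (chi x y * chi x' y)
        = ∑ x ∈ C, ∑ y, ∑ x' ∈ C, g y * (chi x y * chi x' y) := by
          apply Finset.sum_congr rfl
          intro x _
          rw [Finset.sum_comm]
      _ = ∑ y, ∑ x ∈ C, ∑ x' ∈ C, g y * (chi x y * chi x' y) := Finset.sum_comm
      _ = _ := by
          apply Finset.sum_congr rfl
          intro y _
          rw [sq, Finset.sum_mul_sum, Finset.mul_sum]
          apply Finset.sum_congr rfl
          intro x _
          rw [Finset.mul_sum]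
  have h2 : (l - μ) * h (fun _ => false) * (C.card : ℝ) ^ 2
      ≤ ∑ y, g y * (∑ x ∈ C, chi x y) ^ 2 := by
    calc (l - μ) * h (fun _ => false) * (C.card : ℝ) ^ 2
        ≤ g (fun _ => false) * (∑ x ∈ C, chi x (fun _ => false)) ^ 2 := by
          simp only [chi_zero_right, Finset.sum_const, nsmul_eq_mul, mul_one]
          exact mul_le_mul_of_nonneg_right (hg0 _) (sq_nonneg _)
      _ ≤ _ := Finset.single_le_sum (f := fun y => g y * (∑ x ∈ C, chi x y) ^ 2)
          (fun y _ => mul_nonneg (hgnn y) (sq_nonneg _)) (Finset.mem_univ _)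
  have h3 : ∀ z : ι → Bool, ∑ y, g y * chi z y
      = ((Fintype.card ι - 2 * (univ.filter fun i => z i = true).card) - μ)
        * ∑ y, h y * chi z y := by
    intro z
    rw [sub_mul, ← sum_adj_chi, Finset.mul_sum, ← Finset.sum_sub_distrib]
    apply Finset.sum_congr rfl
    intro y _
    simp only [hg]
    ring
  have h4 : ∑ x ∈ C, ∑ x' ∈ C, ∑ y, g y * chi (fun i => xor (x i) (x' i)) y
      ≤ C.card * (2 * D * ∑ y, h y) := by
    rw [← nsmul_eq_mul, ← Finset.sum_const]
    apply Finset.sum_le_sum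
    intro x hx
    rw [← Finset.add_sum_erase C _ hx]
    have e1 : ∑ y, g y * chi (fun i => xor (x i) (x i)) y = 2 * D * ∑ y, h y := by
      rw [h3]
      have : (fun i => xor (x i) (x i)) = (fun _ => false) := by
        funext i
        simp
      rw [this]
      simp only [chi_zero_left, mul_one]
      simp [hμ]
    have e2 : ∑ x' ∈ C.erase x, ∑ y, g y * chi (fun i => xor (x i) (x' i)) y ≤ 0 := by
      apply Finset.sum_nonpos
      intro x' hx'
      rw [h3]
      have hne : x ≠ x' := (Finset.ne_of_mem_erase hx').symm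
      have hD := hC x hx x' (Finset.mem_of_mem_erase hx') hne
      rw [hammingDist_eq_card_xor] at hD
      apply mul_nonpos_of_nonpos_of_nonneg
      · rw [hμ]
        have : (D : ℝ) ≤ ((univ.filter fun i => (xor (x i) (x' i)) = true).card : ℝ) := by
          exact_mod_cast hD
        linarith
      · exact hh.fourier _
    linarith
  have h5 : (l - μ) * h (fun _ => false) * (C.card : ℝ) ^ 2 ≤ C.card * (2 * D * ∑ y, h y) := by
    linarith
  rcases Nat.eq_zero_or_pos C.card with h0 | h0
  · rw [h0]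
    simp only [Nat.cast_zero, zero_mul]
    have : 0 ≤ ∑ y, h y := Finset.sum_nonneg fun y _ => hh.nonneg y
    positivity
  · have h0' : (0 : ℝ) < C.card := by exact_mod_cast h0
    have : (C.card : ℝ) * ((C.card : ℝ) * ((l - μ) * h (fun _ => false)))
        ≤ C.card * (2 * D * ∑ y, h y) := by
      nlinarith
    exact le_of_mul_le_mul_left this h0'

/-- the value of a certificate -/
noncomputable def val (h : (ι → Bool) → ℝ) : ℝ := (∑ y, h y) / h (fun _ => false)

theorem one_le_val {l : ℝ} {h : (ι → Bool) → ℝ} (hh : IsCert l h) : 1 ≤ val h := by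
  unfold val
  rw [le_div_iff₀ hh.pos, one_mul]
  exact Finset.single_le_sum (f := h) (fun y _ => hh.nonneg y) (Finset.mem_univ _)

theorem IsCert.mono {l l' : ℝ} {h : (ι → Bool) → ℝ} (hh : IsCert l h) (hl : l' ≤ l) :
    IsCert l' h :=
  ⟨hh.nonneg, hh.fourier,
    fun y => le_trans (mul_le_mul_of_nonneg_right hl (hh.nonneg y)) (hh.adj y), hh.pos⟩

theorem sum_chi (x : ι → Bool) : ∑ y, chi x y = ∏ i, (if x i = true then (0 : ℝ) else 2) := by
  have h1 : ∀ i, (if x i = true then (0 : ℝ) else 2) = ∑ b : Bool, sg (x i) b := by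
    intro i
    cases x i
    · simp [sg]
    · simp [sg]
  simp only [h1, chi_eq]
  rw [Finset.prod_univ_sum]
  rw [Fintype.piFinset_univ]

theorem isCert_one {l : ℝ} (hl : l ≤ Fintype.card ι) : IsCert l (fun _ : ι → Bool => (1 : ℝ)) := by
  refine ⟨fun _ => zero_le_one, fun x => ?_, fun y => ?_, one_pos⟩
  · simp only [one_mul]
    rw [sum_chi]
    apply Finset.prod_nonneg
    intro i _
    split_ifs <;> norm_num
  · simp
    exact hl

theorem val_one : val (fun _ : ι → Bool => (1 : ℝ)) = 2 ^ Fintype.card ι := by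
  simp [val]

/-- product certificate -/
def prodCert (h₁ : (ι → Bool) → ℝ) (h₂ : (κ → Bool) → ℝ) : (ι ⊕ κ → Bool) → ℝ :=
  fun y => h₁ (fun i => y (Sum.inl i)) * h₂ (fun i => y (Sum.inr i))

theorem sum_sumArrow (F : (ι → Bool) → (κ → Bool) → ℝ) :
    ∑ y : ι ⊕ κ → Bool, F (fun i => y (Sum.inl i)) (fun i => y (Sum.inr i))
      = ∑ y₁, ∑ y₂, F y₁ y₂ := by
  rw [← Fintype.sum_prod_type' (f := F)]
  exact Equiv.sum_comp (Equiv.sumArrowEquivProdArrow ι κ Bool) (fun p => F p.1 p.2)

theorem chi_sum (x y : ι ⊕ κ → Bool) :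
    chi x y = chi (fun i => x (Sum.inl i)) (fun i => y (Sum.inl i))
      * chi (fun i => x (Sum.inr i)) (fun i => y (Sum.inr i)) := by
  simp only [chi_eq]
  rw [Fintype.prod_sum_type]

theorem flp_inl_l (y : ι ⊕ κ → Bool) (i : ι) :
    (fun j => flp y (Sum.inl i) (Sum.inl j)) = flp (fun j => y (Sum.inl j)) i := by
  funext j
  unfold flp
  by_cases h : j = i
  · subst h
    simp
  · rw [Function.update_of_ne h, Function.update_of_ne (by simpa using h)]

theorem flp_inl_r (y : ι ⊕ κ → Bool) (i : ι) :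
    (fun j => flp y (Sum.inl i) (Sum.inr j)) = fun j => y (Sum.inr j) := by
  funext j
  unfold flp
  rw [Function.update_of_ne (by simp)]

theorem flp_inr_r (y : ι ⊕ κ → Bool) (i : κ) :
    (fun j => flp y (Sum.inr i) (Sum.inr j)) = flp (fun j => y (Sum.inr j)) i := by
  funext j
  unfold flp
  by_cases h : j = i
  · subst h
    simp
  · rw [Function.update_of_ne h, Function.update_of_ne (by simpa using h)]

theorem flp_inr_l (y : ι ⊕ κ → Bool) (i : κ) :
    (fun j => flp y (Sum.inr i) (Sum.inl j)) = fun j => y (Sum.inl j) := by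
  funext j
  unfold flp
  rw [Function.update_of_ne (by simp)]

theorem IsCert.prod {l₁ l₂ : ℝ} {h₁ : (ι → Bool) → ℝ} {h₂ : (κ → Bool) → ℝ}
    (c₁ : IsCert l₁ h₁) (c₂ : IsCert l₂ h₂) : IsCert (l₁ + l₂) (prodCert h₁ h₂) := by
  refine ⟨fun y => mul_nonneg (c₁.nonneg _) (c₂.nonneg _), fun x => ?_, fun y => ?_,
    mul_pos c₁.pos c₂.pos⟩
  · have : ∑ y, prodCert h₁ h₂ y * chi x y
        = (∑ y₁, h₁ y₁ * chi (fun i => x (Sum.inl i)) y₁)
          * (∑ y₂, h₂ y₂ * chi (fun i => x (Sum.inr i)) y₂) := by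
      rw [Finset.sum_mul_sum, ← sum_sumArrow]
      apply Finset.sum_congr rfl
      intro y _
      rw [chi_sum]
      unfold prodCert
      ring
    rw [this]
    exact mul_nonneg (c₁.fourier _) (c₂.fourier _)
  · rw [Fintype.sum_sum_type]
    unfold prodCert
    simp only [flp_inl_l, flp_inl_r, flp_inr_r, flp_inr_l]
    rw [← Finset.sum_mul, ← Finset.mul_sum]
    have e1 := mul_le_mul_of_nonneg_right (c₁.adj (fun j => y (Sum.inl j)))
      (c₂.nonneg (fun j => y (Sum.inr j)))
    have e2 := mul_le_mul_of_nonneg_left (c₂.adj (fun j => y (Sum.inr j)))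
      (c₁.nonneg (fun j => y (Sum.inl j)))
    linarith

theorem val_prod (h₁ : (ι → Bool) → ℝ) (h₂ : (κ → Bool) → ℝ) :
    val (prodCert h₁ h₂) = val h₁ * val h₂ := by
  unfold val prodCert
  rw [sum_sumArrow (fun y₁ y₂ => h₁ y₁ * h₂ y₂), ← Finset.sum_mul_sum]
  rw [mul_div_mul_comm]

/-- transport of a function along an equivalence of index types -/
def transp (e : ι ≃ κ) (h : (ι → Bool) → ℝ) : (κ → Bool) → ℝ := fun y => h (fun i => y (e i))

theorem sum_transp (e : ι ≃ κ) (F : (ι → Bool) → ℝ) :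
    ∑ y : κ → Bool, F (fun i => y (e i)) = ∑ y, F y :=
  Equiv.sum_comp (Equiv.arrowCongr e.symm (Equiv.refl Bool)) F

theorem IsCert.transp {l : ℝ} {h : (ι → Bool) → ℝ} (c : IsCert l h) (e : ι ≃ κ) :
    IsCert l (transp e h) := by
  refine ⟨fun y => c.nonneg _, fun x => ?_, fun y => ?_, c.pos⟩
  · have : ∑ y, Tensor.transp e h y * chi x y = ∑ y, h y * chi (fun i => x (e i)) y := by
      rw [← sum_transp e]
      apply Finset.sum_congr rfl
      intro y _
      unfold Tensor.transp
      congr 1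
      simp only [chi_eq]
      exact (Equiv.prod_comp e (fun k => sg (x k) (y k))).symm
    rw [this]
    exact c.fourier _
  · have h1 := c.adj (fun i => y (e i))
    unfold Tensor.transp
    refine h1.trans (le_of_eq ?_)
    rw [← Equiv.sum_comp e]
    apply Finset.sum_congr rfl
    intro i _
    congr 1
    funext j
    unfold flp
    by_cases hj : j = i
    · subst hj
      simp
    · rw [Function.update_of_ne hj, Function.update_of_ne (by simpa using hj)]

theorem val_transp (e : ι ≃ κ) (h : (ι → Bool) → ℝ) : val (transp e h) = val h := by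
  unfold val transp
  rw [sum_transp]

/-- the optimal value `Λ(n, l)` -/
noncomputable def Lam (n : ℕ) (l : ℝ) : ℝ :=
  sInf {v : ℝ | ∃ h : (Fin n → Bool) → ℝ, IsCert l h ∧ v = val h}

theorem lam_bdd (n : ℕ) (l : ℝ) :
    BddBelow {v : ℝ | ∃ h : (Fin n → Bool) → ℝ, IsCert l h ∧ v = val h} := by
  refine ⟨1, ?_⟩
  rintro v ⟨h, hh, rfl⟩
  exact one_le_val hh

theorem lam_nonempty {n : ℕ} {l : ℝ} (hl : l ≤ n) :
    {v : ℝ | ∃ h : (Fin n → Bool) → ℝ, IsCert l h ∧ v = val h}.Nonempty :=
  ⟨_, _, isCert_one (by simpa using hl), rfl⟩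

theorem one_le_lam {n : ℕ} {l : ℝ} (hl : l ≤ n) : 1 ≤ Lam n l := by
  apply le_csInf (lam_nonempty hl)
  rintro v ⟨h, hh, rfl⟩
  exact one_le_val hh

theorem lam_le_of_cert {n : ℕ} {l : ℝ} {h : (Fin n → Bool) → ℝ} (hh : IsCert l h) :
    Lam n l ≤ val h := csInf_le (lam_bdd n l) ⟨h, hh, rfl⟩

theorem lam_mono {n : ℕ} {l l' : ℝ} (h : l ≤ l') (hl : l' ≤ n) : Lam n l ≤ Lam n l' := by
  apply le_csInf (lam_nonempty hl)
  rintro v ⟨h', hh, rfl⟩
  exact lam_le_of_cert (hh.mono h)

theorem lam_mul {n m : ℕ} {l l' : ℝ} (hl : l ≤ n) (hl' : l' ≤ m) :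
    Lam (n + m) (l + l') ≤ Lam n l * Lam m l' := by
  have key : ∀ (h₁ : (Fin n → Bool) → ℝ) (h₂ : (Fin m → Bool) → ℝ), IsCert l h₁ →
      IsCert l' h₂ → Lam (n + m) (l + l') ≤ val h₁ * val h₂ := by
    intro h₁ h₂ c₁ c₂
    rw [← val_prod, ← val_transp finSumFinEquiv]
    exact lam_le_of_cert ((c₁.prod c₂).transp finSumFinEquiv)
  have hp1 : 0 < Lam n l := lt_of_lt_of_le one_pos (one_le_lam hl)
  have hp2 : 0 < Lam m l' := lt_of_lt_of_le one_pos (one_le_lam hl')
  have s1 : ∀ h₁ : (Fin n → Bool) → ℝ, IsCert l h₁ →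
      Lam (n + m) (l + l') ≤ val h₁ * Lam m l' := by
    intro h₁ c₁
    have hv : 0 < val h₁ := lt_of_lt_of_le one_pos (one_le_val c₁)
    rw [← div_le_iff₀' hv]
    apply le_csInf (lam_nonempty hl')
    rintro v ⟨h₂, c₂, rfl⟩
    rw [div_le_iff₀' hv]
    exact key h₁ h₂ c₁ c₂
  rw [← div_le_iff₀ hp2]
  apply le_csInf (lam_nonempty hl)
  rintro v ⟨h₁, c₁, rfl⟩
  rw [div_le_iff₀ hp2]
  exact s1 h₁ c₁

theorem lam_le_two_pow {n : ℕ} {l : ℝ} (hl : l ≤ n) : Lam n l ≤ 2 ^ n := by
  have := lam_le_of_cert (isCert_one (ι := Fin n) (l := l) (by simpa using hl))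
  rwa [val_one, Fintype.card_fin] at this

/-- LP bound in terms of `Λ`. -/
theorem card_le_lam {n : ℕ} {l : ℝ} (hln : l ≤ n) (C : Finset (Fin n → Bool)) (D : ℕ)
    (hC : ∀ x ∈ C, ∀ y ∈ C, x ≠ y → D ≤ hammingDist x y) (hl : (n : ℝ) - 2 * D < l) :
    (C.card : ℝ) * (l - (n - 2 * D)) ≤ 2 * D * Lam n l := by
  have hgap : 0 < l - (n - 2 * D) := by linarith
  rcases Nat.eq_zero_or_pos D with h0 | h0
  · exfalso
    subst h0
    simp at hl
    linarith
  have hD : (0 : ℝ) < 2 * D := by positivity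
  rw [← div_le_iff₀' hD]
  apply le_csInf (lam_nonempty hln)
  rintro v ⟨h, hh, rfl⟩
  rw [div_le_iff₀' hD]
  have h1 := card_le_of_cert hh C D hC (by simpa using hl)
  rw [Fintype.card_fin] at h1
  unfold val
  rw [mul_div_assoc', le_div_iff₀ hh.pos]
  linarith

end Pool.Agent.Lib.MP_0430e4_lc.Tensor
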