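import Pool.Agent.Lib.MP_0430e4_lc.TensorSpec

/-!
# The three moments and the main operator inequality
-/

set_option autoImplicit false
set_option linter.unusedSectionVars false

namespace Pool.Agent.Lib.MP_0430e4_lc.Tensor

open Finset

variable {ι : Type*} [Fintype ι] [DecidableEq ι] {w : ℕ}

/-- eigenvalue as a function of a real degree -/
noncomputable def thr (n J : ℝ) : ℝ := 2 * (J * (n + 1 - J))

theorem th_eq (n j : ℕ) : th n j = thr n j := rfl

/-- weight of the upper neighbour -/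
noncomputable def xp (n w J : ℝ) : ℝ :=
  4 * ((n + 1 - J) * (w - J) * (n - w - J)) / ((n - 2 * J) * (n - 2 * J + 1))

/-- weight of the lower neighbour -/
noncomputable def xm (n w J : ℝ) : ℝ :=
  4 * (J * (w - J + 1) * (n - w - J + 1)) / ((n + 2 - 2 * J) * (n - 2 * J + 1))

namespace EB

variable (B : EB ι w)

theorem S0 (i : ι) (f : Slice ι w → ℝ) : ∑ k, B.co k (Dop i f) ^ 2 = ∑ z, f z ^ 2 := by
  have h := B.parseval (Dop i f) (Dop i f)
  have h1 : ∑ z, Dop i f z * Dop i f z = ∑ z, f z ^ 2 := by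
    apply Finset.sum_congr rfl
    intro z _
    unfold Dop
    have := sb_sq (z.1 i)
    calc sb (z.1 i) * f z * (sb (z.1 i) * f z) = (sb (z.1 i) * sb (z.1 i)) * f z ^ 2 := by ring
      _ = f z ^ 2 := by rw [this, one_mul]
  rw [← h1, h]
  apply Finset.sum_congr rfl
  intro k _
  ring

theorem S1 (i : ι) {μ : ℝ} {f : Slice ι w → ℝ} (hf : ∀ z, Lop f z = μ * f z) :
    ∑ k, B.lam k * B.co k (Dop i f) ^ 2 = ∑ z, f z * (μ * f z + 4 * Rop i f z) := by
  have h := B.parseval (Dop i f) (Lop (Dop i f))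
  simp only [co_Lop] at h
  have h1 : ∑ z, Dop i f z * Lop (Dop i f) z = ∑ z, f z * (μ * f z + 4 * Rop i f z) := by
    apply Finset.sum_congr rfl
    intro z _
    rw [Lop_Dop, hf]
    unfold Dop
    have := sb_sq (z.1 i)
    calc sb (z.1 i) * f z * (sb (z.1 i) * (μ * f z + 4 * Rop i f z))
        = (sb (z.1 i) * sb (z.1 i)) * (f z * (μ * f z + 4 * Rop i f z)) := by ring
      _ = _ := by rw [this, one_mul]
  rw [← h1, h]
  apply Finset.sum_congr rfl
  intro k _
  ring

theorem S2 (i : ι) {μ : ℝ} {f : Slice ι w → ℝ} (hf : ∀ z, Lop f z = μ * f z) :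
    ∑ k, B.lam k ^ 2 * B.co k (Dop i f) ^ 2 = ∑ z, (μ * f z + 4 * Rop i f z) ^ 2 := by
  have h := B.parseval (Lop (Dop i f)) (Lop (Dop i f))
  simp only [co_Lop] at h
  have h1 : ∑ z, Lop (Dop i f) z * Lop (Dop i f) z = ∑ z, (μ * f z + 4 * Rop i f z) ^ 2 := by
    apply Finset.sum_congr rfl
    intro z _
    rw [Lop_Dop, hf]
    have := sb_sq (z.1 i)
    calc sb (z.1 i) * (μ * f z + 4 * Rop i f z) * (sb (z.1 i) * (μ * f z + 4 * Rop i f z))
        = (sb (z.1 i) * sb (z.1 i)) * (μ * f z + 4 * Rop i f z) ^ 2 := by ring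
      _ = _ := by rw [this, one_mul]
  rw [← h1, h]
  apply Finset.sum_congr rfl
  intro k _
  ring

end EB

theorem sum_f_Rop {μ : ℝ} {f : Slice ι w → ℝ} (hf : ∀ z, Lop f z = μ * f z) :
    ∑ i, ∑ z, f z * Rop i f z
      = (2 * (w * (Fintype.card ι - w)) - μ) * ∑ z, f z ^ 2 := by
  rw [Finset.sum_comm, Finset.mul_sum]
  apply Finset.sum_congr rfl
  intro z _
  rw [← Finset.mul_sum, sum_Rop, hf]
  ring

theorem sum_Rop_sq {μ : ℝ} {f : Slice ι w → ℝ} (hf : ∀ z, Lop f z = μ * f z) :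
    ∑ i, ∑ z, Rop i f z ^ 2
      = (2 * (w * (Fintype.card ι - w)) + (Fintype.card ι - 2) / 2
          * (2 * (w * (Fintype.card ι - w)) - μ)) * ∑ z, f z ^ 2 := by
  have h1 : ∀ i, ∑ z, Rop i f z ^ 2 = ∑ z, f z * Rop i (Rop i f) z := by
    intro i
    rw [← Rop_symm]
    apply Finset.sum_congr rfl
    intro z _
    ring
  simp only [h1]
  rw [Finset.sum_comm, Finset.mul_sum]
  apply Finset.sum_congr rfl
  intro z _
  rw [← Finset.mul_sum, sum_Rop_Rop, sum_Rop, hf]
  ring

namespace EB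

variable (B : EB ι w)

theorem T0 (f : Slice ι w → ℝ) :
    ∑ i, ∑ k, B.co k (Dop i f) ^ 2 = Fintype.card ι * ∑ z, f z ^ 2 := by
  simp only [S0]
  simp

theorem T1 {μ : ℝ} {f : Slice ι w → ℝ} (hf : ∀ z, Lop f z = μ * f z) :
    ∑ i, ∑ k, B.lam k * B.co k (Dop i f) ^ 2
      = (Fintype.card ι * μ + 4 * (2 * (w * (Fintype.card ι - w)) - μ)) * ∑ z, f z ^ 2 := by
  have h1 : ∀ i, ∑ k, B.lam k * B.co k (Dop i f) ^ 2
      = μ * ∑ z, f z ^ 2 + 4 * ∑ z, f z * Rop i f z := by
    intro i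
    rw [B.S1 i hf, Finset.mul_sum, Finset.mul_sum, ← Finset.sum_add_distrib]
    apply Finset.sum_congr rfl
    intro z _
    ring
  simp only [h1, Finset.sum_add_distrib, ← Finset.mul_sum]
  rw [sum_f_Rop hf]
  simp
  ring

theorem T2 {μ : ℝ} {f : Slice ι w → ℝ} (hf : ∀ z, Lop f z = μ * f z) :
    ∑ i, ∑ k, B.lam k ^ 2 * B.co k (Dop i f) ^ 2
      = (Fintype.card ι * μ ^ 2 + 8 * μ * (2 * (w * (Fintype.card ι - w)) - μ)
          + 16 * (2 * (w * (Fintype.card ι - w)) + (Fintype.card ι - 2) / 2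
          * (2 * (w * (Fintype.card ι - w)) - μ))) * ∑ z, f z ^ 2 := by
  have h1 : ∀ i, ∑ k, B.lam k ^ 2 * B.co k (Dop i f) ^ 2
      = μ ^ 2 * ∑ z, f z ^ 2 + 8 * μ * ∑ z, f z * Rop i f z + 16 * ∑ z, Rop i f z ^ 2 := by
    intro i
    rw [B.S2 i hf, Finset.mul_sum, Finset.mul_sum, Finset.mul_sum, ← Finset.sum_add_distrib,
      ← Finset.sum_add_distrib]
    apply Finset.sum_congr rfl
    intro z _
    ring
  simp only [h1, Finset.sum_add_distrib, ← Finset.mul_sum]
  rw [sum_f_Rop hf, sum_Rop_sq hf]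
  simp
  ring

theorem v_ne_zero (k : Slice ι w) : B.v k ≠ 0 := by
  intro h
  have := B.orth k k
  rw [h] at this
  simp at this

theorem lam_eq_th (k : Slice ι w) : ∃ m, m ≤ w ∧ B.lam k = th (Fintype.card ι) m ∧
    B.v k ∈ Q ι w (m + 1) := eigen_mem_Q (B.eig k) (B.v_ne_zero k)

end EB

theorem th_inj {n j k : ℕ} (hj : 2 * j ≤ n) (hk : 2 * k ≤ n) (h : th n j = th n k) : j = k := by
  rcases lt_trichotomy j k with h1 | h1 | h1
  · exact absurd h (th_ne h1 hk)
  · exact h1
  · exact absurd h.symm (th_ne h1 hj)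

theorem eig_mem_Q (hw : 2 * w ≤ Fintype.card ι) {j : ℕ} (hj : 2 * j ≤ Fintype.card ι)
    {f : Slice ι w → ℝ} (hf : ∀ z, Lop f z = th (Fintype.card ι) j * f z) :
    f ∈ Q ι w (j + 1) := by
  by_cases h0 : f = 0
  · rw [h0]
    exact Submodule.zero_mem _
  · obtain ⟨k, hk, hk2, hk3⟩ := eigen_mem_Q hf h0
    have : j = k := th_inj hj (by omega) hk2
    rw [this]
    exact hk3

namespace EB

variable (B : EB ι w)

/-- multiplication by a sign moves the degree by at most one -/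
theorem support (hw : 2 * w ≤ Fintype.card ι) {j : ℕ} (hj : 2 * j ≤ Fintype.card ι)
    {f : Slice ι w → ℝ} (hf : ∀ z, Lop f z = th (Fintype.card ι) j * f z) (i : ι)
    (k : Slice ι w) (hk : B.co k (Dop i f) ≠ 0) :
    B.lam k = thr (Fintype.card ι) ((j : ℝ) - 1) ∨ B.lam k = thr (Fintype.card ι) j ∨
      B.lam k = thr (Fintype.card ι) ((j : ℝ) + 1) := by
  obtain ⟨m, hm, hm2, hm3⟩ := B.lam_eq_th k
  have hfQ := eig_mem_Q hw hj hf
  by_cases h1 : j + 2 ≤ m
  · exfalso
    apply hk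
    have h2 : 2 * m ≤ Fintype.card ι := by omega
    have h3 : ∀ z, Lop (B.v k) z = th (Fintype.card ι) m * B.v k z := by
      intro z
      rw [B.eig, hm2]
    exact orth_Q h2 h3 (j + 2) h1 _ (Q_Dop i hfQ)
  · by_cases h2 : m + 2 ≤ j
    · exfalso
      apply hk
      rw [co_def, ← Dop_symm]
      have := orth_Q hj hf (m + 2) h2 _ (Q_Dop i hm3)
      rw [← this]
      apply Finset.sum_congr rfl
      intro z _
      ring
    · have h4 : m + 1 = j ∨ m = j ∨ m = j + 1 := by omega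
      rcases h4 with h4 | h4 | h4
      · left
        rw [hm2, th_eq, ← h4]
        push_cast
        congr 1
        ring
      · right
        left
        rw [hm2, th_eq, h4]
      · right
        right
        rw [hm2, th_eq, h4]
        push_cast
        rfl

/-- the main identity: the quadratic form of `φ(L)` summed over all sign multiplications -/
theorem main_identity (hw : 2 * w ≤ Fintype.card ι) {j : ℕ} (hj : 2 * j < Fintype.card ι)
    {f : Slice ι w → ℝ} (hf : ∀ z, Lop f z = th (Fintype.card ι) j * f z) (φ : ℝ → ℝ) :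
    ∑ i, ∑ k, φ (B.lam k) * B.co k (Dop i f) ^ 2
      = (φ (thr (Fintype.card ι) j) * Fintype.card ι
        + (φ (thr (Fintype.card ι) (j + 1)) - φ (thr (Fintype.card ι) j))
          * xp (Fintype.card ι) w j
        + (φ (thr (Fintype.card ι) (j - 1)) - φ (thr (Fintype.card ι) j))
          * xm (Fintype.card ι) w j) * ∑ z, f z ^ 2 := by
  set n : ℝ := (Fintype.card ι : ℝ) with hn
  set J : ℝ := (j : ℝ) with hJ
  have hP : 0 < n - 2 * J := by
    have : (2 * j : ℝ) < n := by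
      rw [hn]
      exact_mod_cast hj
    linarith
  set μ := thr n J with hμ
  set μp := thr n (J + 1) with hμp
  set μm := thr n (J - 1) with hμm
  set P : ℝ := μp - μ with hPdef
  set R : ℝ := μ - μm with hRdef
  have hPv : P = 2 * (n - 2 * J) := by
    rw [hPdef, hμp, hμ]
    unfold thr
    ring
  have hRv : R = 2 * (n + 2 - 2 * J) := by
    rw [hRdef, hμ, hμm]
    unfold thr
    ring
  have hP0 : P ≠ 0 := by
    rw [hPv]
    positivity
  have hR0 : R ≠ 0 := by
    rw [hRv]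
    have : 0 < n + 2 - 2 * J := by linarith
    positivity
  have hPR : P + R ≠ 0 := by
    rw [hPv, hRv]
    have : 0 < n + 2 - 2 * J := by linarith
    positivity
  set dp : ℝ := φ μp - φ μ with hdp
  set dm : ℝ := φ μm - φ μ with hdm
  set α : ℝ := (dp * R / P - dm * P / R) / (P + R) with hα
  set β : ℝ := (dp / P + dm / R) / (P + R) with hβ
  have hq : ∀ t, (t = μm ∨ t = μ ∨ t = μp) → φ t = φ μ + α * (t - μ) + β * (t - μ) ^ 2 := by
    intro t ht
    rcases ht with h | h | h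
    · rw [h]
      have : μm - μ = -R := by rw [hRdef]; ring
      rw [this, hα, hβ]
      field_simp
      rw [hdm]
      ring
    · rw [h]
      ring
    · rw [h]
      have : μp - μ = P := by rw [hPdef]
      rw [this, hα, hβ]
      field_simp
      rw [hdp]
      ring
  have h1 : ∀ i k, φ (B.lam k) * B.co k (Dop i f) ^ 2
      = (φ μ - α * μ + β * μ ^ 2) * B.co k (Dop i f) ^ 2
        + (α - 2 * β * μ) * (B.lam k * B.co k (Dop i f) ^ 2)
        + β * (B.lam k ^ 2 * B.co k (Dop i f) ^ 2) := by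
    intro i k
    by_cases hk : B.co k (Dop i f) = 0
    · rw [hk]
      ring
    · have h2 := B.support hw hj.le hf i k hk
      rw [← hn, ← hJ] at h2
      rw [hq _ h2]
      ring
  simp only [h1, Finset.sum_add_distrib, ← Finset.mul_sum]
  have hf' : ∀ z, Lop f z = μ * f z := hf
  rw [B.T0, B.T1 hf', B.T2 hf', ← hn]
  have hxp : xp n w J = (4 * (2 * (w * (n - w)) - μ) * R + 16 * (2 * (w * (n - w)) + (n - 2) / 2
          * (2 * (w * (n - w)) - μ))) / (P * (P + R)) := by
    unfold xp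
    rw [hPv, hRv, hμ]
    unfold thr
    have e1 : n - 2 * J ≠ 0 := hP.ne'
    have e2 : n - 2 * J + 1 ≠ 0 := by linarith
    have e3 : 2 * (n - 2 * J) * (2 * (n - 2 * J) + 2 * (n + 2 - 2 * J)) ≠ 0 := by
      have : 0 < n + 2 - 2 * J := by linarith
      positivity
    rw [div_eq_div_iff (mul_ne_zero e1 e2) e3]
    ring
  have hxm : xm n w J = (-(4 * (2 * (w * (n - w)) - μ)) * P + 16 * (2 * (w * (n - w)) + (n - 2) / 2
          * (2 * (w * (n - w)) - μ))) / (R * (P + R)) := by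
    unfold xm
    rw [hPv, hRv, hμ]
    unfold thr
    have e1 : n + 2 - 2 * J ≠ 0 := by linarith
    have e2 : n - 2 * J + 1 ≠ 0 := by linarith
    have e3 : 2 * (n + 2 - 2 * J) * (2 * (n - 2 * J) + 2 * (n + 2 - 2 * J)) ≠ 0 := by
      have : 0 < n + 2 - 2 * J := by linarith
      positivity
    rw [div_eq_div_iff (mul_ne_zero e1 e2) e3]
    ring
  rw [hxp, hxm, hα, hβ]
  clear_value dp dm P R μ n
  field_simp
  ring

end EB

end Pool.Agent.Lib.MP_0430e4_lc.Tensor
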