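import Pool.Agent.Lib.MP_0430e4_lc.TensorSlice

/-!
# Polynomials on a slice and the spectrum of the Johnson Laplacian
-/

set_option autoImplicit false
set_option linter.unusedSectionVars false

namespace Pool.Agent.Lib.MP_0430e4_lc.Tensor

open Finset

variable {ι : Type*} [Fintype ι] [DecidableEq ι] {w : ℕ}

/-- numerical value of a bit -/
def ub (b : Bool) : ℝ := if b = true then 1 else 0

theorem ub_sq (b : Bool) : ub b * ub b = ub b := by cases b <;> simp [ub]

theorem sb_eq (b : Bool) : sb b = 1 - 2 * ub b := by cases b <;> norm_num [ub, sb]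

/-- monomials -/
def mono (T : Finset ι) (z : Slice ι w) : ℝ := ∏ i ∈ T, ub (z.1 i)

theorem mono_swap_in {T : Finset ι} {a b : ι} (ha : a ∈ T) (hb : b ∈ T) (z : Slice ι w) :
    mono T (act (Equiv.swap a b) z) = mono T z := by
  unfold mono
  simp only [act_apply]
  apply Equiv.Perm.prod_comp (Equiv.swap a b) T (fun i => ub (z.1 i))
  intro x hx
  simp only [Set.mem_ofPred_eq, ne_eq] at hx
  by_contra hxT
  apply hx
  apply Equiv.swap_apply_of_ne_of_ne
  · rintro rfl
    exact hxT ha
  · rintro rfl
    exact hxT hb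

theorem mono_swap_out {T : Finset ι} {a b : ι} (ha : a ∉ T) (hb : b ∉ T) (z : Slice ι w) :
    mono T (act (Equiv.swap a b) z) = mono T z := by
  unfold mono
  simp only [act_apply]
  apply Finset.prod_congr rfl
  intro i hi
  rw [Equiv.swap_apply_of_ne_of_ne]
  · rintro rfl
    exact ha hi
  · rintro rfl
    exact hb hi

theorem mono_swap_mixed {T : Finset ι} {a b : ι} (ha : a ∈ T) (hb : b ∉ T) (z : Slice ι w) :
    mono T (act (Equiv.swap a b) z) = ub (z.1 b) * mono (T.erase a) z := by
  unfold mono
  simp only [act_apply]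
  rw [← Finset.mul_prod_erase T _ ha, Equiv.swap_apply_left]
  congr 1
  apply Finset.prod_congr rfl
  intro i hi
  rw [Equiv.swap_apply_of_ne_of_ne]
  · exact Finset.ne_of_mem_erase hi
  · rintro rfl
    exact hb (Finset.mem_of_mem_erase hi)

theorem ub_mul_mono_erase {T : Finset ι} {a b : ι} (ha : a ∈ T) (hb : b ∈ T) (z : Slice ι w) :
    ub (z.1 b) * mono (T.erase a) z = if b = a then mono T z else mono (T.erase a) z := by
  split_ifs with h
  · subst h
    unfold mono
    rw [Finset.mul_prod_erase T (fun i => ub (z.1 i)) hb]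
  · unfold mono
    have hb' : b ∈ T.erase a := Finset.mem_erase.2 ⟨h, hb⟩
    rw [← Finset.mul_prod_erase (T.erase a) (fun i => ub (z.1 i)) hb', ← mul_assoc, ub_sq]

theorem sum_ub (z : Slice ι w) : ∑ i, ub (z.1 i) = w := card_true z

/-- the Laplacian on monomials -/
theorem Lop_mono (T : Finset ι) (z : Slice ι w) :
    Lop (mono T) z = 2 * (T.card * (Fintype.card ι + 1 - T.card)) * mono T z
      - 2 * (w - T.card + 1) * ∑ a ∈ T, mono (T.erase a) z := by
  have key : ∀ a b : ι, mono T z - mono T (act (Equiv.swap a b) z)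
      = (if a ∈ T ∧ b ∉ T then mono T z - ub (z.1 b) * mono (T.erase a) z else 0)
        + (if b ∈ T ∧ a ∉ T then mono T z - ub (z.1 a) * mono (T.erase b) z else 0) := by
    intro a b
    by_cases ha : a ∈ T <;> by_cases hb : b ∈ T
    · rw [mono_swap_in ha hb]
      simp [ha, hb]
    · rw [mono_swap_mixed ha hb]
      simp [ha, hb]
    · rw [swap_act_comm, mono_swap_mixed hb ha]
      simp [ha, hb]
    · rw [mono_swap_out ha hb]
      simp [ha, hb]
  unfold Lop
  simp only [key, Finset.sum_add_distrib]
  have e1 : ∑ a, ∑ b, (if b ∈ T ∧ a ∉ T then mono T z - ub (z.1 a) * mono (T.erase b) z else 0)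
      = ∑ a, ∑ b, (if a ∈ T ∧ b ∉ T then mono T z - ub (z.1 b) * mono (T.erase a) z else 0) := by
    rw [Finset.sum_comm]
  rw [e1]
  have e2 : ∀ a, ∑ b, (if a ∈ T ∧ b ∉ T then mono T z - ub (z.1 b) * mono (T.erase a) z else 0)
      = if a ∈ T then (Fintype.card ι + 1 - T.card) * mono T z
        - (w - T.card + 1) * mono (T.erase a) z else 0 := by
    intro a
    by_cases ha : a ∈ T
    · simp only [ha, true_and, if_true]
      rw [← Finset.sum_filter]
      rw [Finset.sum_sub_distrib, Finset.sum_const, ← Finset.sum_mul]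
      have h1 : (univ.filter fun b => b ∉ T) = univ \ T := by
        ext b
        simp
      have h2 : ((univ \ T).card : ℝ) = Fintype.card ι - T.card := by
        rw [Finset.card_sdiff_of_subset (Finset.subset_univ T), Finset.card_univ,
          Nat.cast_sub (Finset.card_le_univ T)]
      have h3 : ∑ b ∈ univ \ T, ub (z.1 b) = w - ∑ b ∈ T, ub (z.1 b) := by
        rw [← sum_ub z, ← Finset.sum_sdiff (Finset.subset_univ T)]
        ring
      have h4 : (∑ b ∈ T, ub (z.1 b)) * mono (T.erase a) z
          = mono T z + (T.card - 1) * mono (T.erase a) z := by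
        rw [Finset.sum_mul]
        rw [Finset.sum_congr rfl (fun b hb => ub_mul_mono_erase ha hb z)]
        rw [← Finset.add_sum_erase T _ ha]
        simp only [if_true]
        congr 1
        rw [Finset.sum_congr rfl (fun b hb => if_neg (Finset.ne_of_mem_erase hb))]
        rw [Finset.sum_const, Finset.card_erase_of_mem ha, nsmul_eq_mul]
        have : 1 ≤ T.card := Finset.card_pos.2 ⟨a, ha⟩
        rw [Nat.cast_sub this]
        simp
      rw [h1, h3, nsmul_eq_mul, h2, sub_mul, sub_mul, h4]
      ring
    · simp [ha]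
  simp only [e2]
  rw [← Finset.sum_filter]
  have h5 : (univ.filter fun a => a ∈ T) = T := by
    ext a
    simp
  rw [h5, Finset.sum_sub_distrib, Finset.sum_const, nsmul_eq_mul, ← Finset.mul_sum]
  ring

/-- the Laplacian as a linear map -/
def LopL : (Slice ι w → ℝ) →ₗ[ℝ] (Slice ι w → ℝ) where
  toFun := Lop
  map_add' := by
    intro f g
    funext z
    simp only [Lop, Pi.add_apply]
    rw [← Finset.sum_add_distrib]
    apply Finset.sum_congr rfl
    intro a _
    rw [← Finset.sum_add_distrib]
    apply Finset.sum_congr rfl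
    intro b _
    ring
  map_smul' := by
    intro c f
    funext z
    simp only [Lop, Pi.smul_apply, smul_eq_mul, RingHom.id_apply, Finset.mul_sum]
    apply Finset.sum_congr rfl
    intro a _
    apply Finset.sum_congr rfl
    intro b _
    ring

theorem LopL_apply (f : Slice ι w → ℝ) : LopL f = Lop f := rfl

/-- polynomials of degree less than `j` -/
def Q (ι : Type*) [Fintype ι] [DecidableEq ι] (w j : ℕ) : Submodule ℝ (Slice ι w → ℝ) :=
  Submodule.span ℝ {f | ∃ T : Finset ι, T.card < j ∧ f = mono T}

theorem mono_mem_Q {T : Finset ι} {j : ℕ} (h : T.card < j) : (mono T : Slice ι w → ℝ) ∈ Q ι w j :=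
  Submodule.subset_span ⟨T, h, rfl⟩

theorem Q_zero : Q ι w 0 = ⊥ := by
  unfold Q
  have : {f : Slice ι w → ℝ | ∃ T : Finset ι, T.card < 0 ∧ f = mono T} = ∅ := by
    ext f
    simp
  rw [this, Submodule.span_empty]

theorem Q_le {j k : ℕ} (h : j ≤ k) : Q ι w j ≤ Q ι w k := by
  apply Submodule.span_mono
  rintro f ⟨T, hT, rfl⟩
  exact ⟨T, lt_of_lt_of_le hT h, rfl⟩

/-- eigenvalues of (twice) the Johnson Laplacian -/
noncomputable def th (n : ℕ) (j : ℕ) : ℝ := 2 * (j * (n + 1 - j))

theorem Lop_mono_mem {T : Finset ι} {j : ℕ} (h : T.card < j) :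
    (LopL (mono T) : Slice ι w → ℝ) ∈ Q ι w j := by
  have : (LopL (mono T) : Slice ι w → ℝ)
      = (2 * (T.card * (Fintype.card ι + 1 - T.card)) : ℝ) • mono T
        - (2 * (w - T.card + 1) : ℝ) • ∑ a ∈ T, mono (T.erase a) := by
    funext z
    rw [LopL_apply, Lop_mono]
    simp [Finset.sum_apply]
  rw [this]
  apply Submodule.sub_mem
  · exact Submodule.smul_mem _ _ (mono_mem_Q h)
  · apply Submodule.smul_mem
    apply Submodule.sum_mem
    intro a ha
    exact mono_mem_Q (lt_of_le_of_lt (Finset.card_erase_le) h)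

theorem Q_step {j : ℕ} {f : Slice ι w → ℝ} (hf : f ∈ Q ι w (j + 1)) :
    LopL f - (th (Fintype.card ι) j) • f ∈ Q ι w j := by
  unfold Q at hf
  induction hf using Submodule.span_induction with
  | mem f hf =>
    obtain ⟨T, hT, rfl⟩ := hf
    rcases Nat.lt_succ_iff_lt_or_eq.1 hT with h | h
    · exact Submodule.sub_mem _ (Lop_mono_mem h) (Submodule.smul_mem _ _ (mono_mem_Q h))
    · have : (LopL (mono T) - (th (Fintype.card ι) j) • mono T : Slice ι w → ℝ)
          = -((2 * (w - T.card + 1) : ℝ) • ∑ a ∈ T, mono (T.erase a)) := by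
        funext z
        simp only [LopL_apply, Lop_mono, Pi.sub_apply, Pi.smul_apply, Pi.neg_apply, smul_eq_mul,
          Finset.sum_apply]
        unfold th
        rw [h]
        ring
      rw [this]
      apply Submodule.neg_mem
      apply Submodule.smul_mem
      apply Submodule.sum_mem
      intro a ha
      apply mono_mem_Q
      rw [Finset.card_erase_of_mem ha, ← h]
      have : 0 < T.card := Finset.card_pos.2 ⟨a, ha⟩
      omega
  | zero => simp
  | add f g _ _ hf hg =>
    have : LopL (f + g) - (th (Fintype.card ι) j) • (f + g)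
        = (LopL f - (th (Fintype.card ι) j) • f) + (LopL g - (th (Fintype.card ι) j) • g) := by
      rw [map_add, smul_add]
      abel
    rw [this]
    exact Submodule.add_mem _ hf hg
  | smul c f _ hf =>
    have : LopL (c • f) - (th (Fintype.card ι) j) • (c • f)
        = c • (LopL f - (th (Fintype.card ι) j) • f) := by
      rw [map_smul, smul_sub, smul_comm]
    rw [this]
    exact Submodule.smul_mem _ _ hf

theorem Q_top : Q ι w (w + 1) = ⊤ := by
  rw [eq_top_iff]
  intro f _
  have : f = ∑ z : Slice ι w, f z • mono (univ.filter fun i => z.1 i = true) := by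
    funext y
    rw [Finset.sum_apply, Finset.sum_eq_single y]
    · simp only [Pi.smul_apply, smul_eq_mul]
      have : mono (univ.filter fun i => y.1 i = true) y = 1 := by
        unfold mono
        apply Finset.prod_eq_one
        intro i hi
        rw [Finset.mem_filter] at hi
        simp [ub, hi.2]
      rw [this, mul_one]
    · intro z _ hz
      simp only [Pi.smul_apply, smul_eq_mul]
      have : mono (univ.filter fun i => z.1 i = true) y = 0 := by
        by_contra h0
        apply hz
        have hsub : (univ.filter fun i => z.1 i = true) ⊆ (univ.filter fun i => y.1 i = true) := by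
          intro i hi
          rw [Finset.mem_filter]
          refine ⟨Finset.mem_univ _, ?_⟩
          by_contra h1
          apply h0
          unfold mono
          apply Finset.prod_eq_zero hi
          simp [ub, h1]
        have heq := Finset.eq_of_subset_of_card_le hsub (by rw [z.2, y.2])
        apply Subtype.ext
        funext i
        have h2 : i ∈ (univ.filter fun i => z.1 i = true) ↔ i ∈ (univ.filter fun i => y.1 i = true) := by
          rw [heq]
        simp only [Finset.mem_filter, Finset.mem_univ, true_and] at h2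
        cases h3 : z.1 i <;> cases h4 : y.1 i <;> simp_all
      rw [this, mul_zero]
    · intro h
      exact absurd (Finset.mem_univ _) h
  rw [this]
  apply Submodule.sum_mem
  intro z _
  apply Submodule.smul_mem
  apply mono_mem_Q
  rw [z.2]
  omega

theorem Q_ub {j : ℕ} {f : Slice ι w → ℝ} (i : ι) (hf : f ∈ Q ι w j) :
    (fun z => ub (z.1 i) * f z) ∈ Q ι w (j + 1) := by
  unfold Q at hf
  induction hf using Submodule.span_induction with
  | mem f hf =>
    obtain ⟨T, hT, rfl⟩ := hf
    by_cases hi : i ∈ T
    · have : (fun z : Slice ι w => ub (z.1 i) * mono T z) = mono T := by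
        funext z
        unfold mono
        rw [← Finset.mul_prod_erase T (fun i => ub (z.1 i)) hi, ← mul_assoc, ub_sq]
      rw [this]
      exact mono_mem_Q (by omega)
    · have : (fun z : Slice ι w => ub (z.1 i) * mono T z) = mono (insert i T) := by
        funext z
        unfold mono
        rw [Finset.prod_insert hi]
      rw [this]
      apply mono_mem_Q
      rw [Finset.card_insert_of_notMem hi]
      omega
  | zero =>
    have : (fun z : Slice ι w => ub (z.1 i) * (0 : Slice ι w → ℝ) z) = 0 := by
      funext z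
      simp
    rw [this]
    exact Submodule.zero_mem _
  | add f g _ _ hf hg =>
    have : (fun z : Slice ι w => ub (z.1 i) * (f + g) z)
        = (fun z => ub (z.1 i) * f z) + (fun z => ub (z.1 i) * g z) := by
      funext z
      simp only [Pi.add_apply]
      ring
    rw [this]
    exact Submodule.add_mem _ hf hg
  | smul c f _ hf =>
    have : (fun z : Slice ι w => ub (z.1 i) * (c • f) z)
        = c • (fun z => ub (z.1 i) * f z) := by
      funext z
      simp only [Pi.smul_apply, smul_eq_mul]
      ring
    rw [this]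
    exact Submodule.smul_mem _ _ hf

theorem Q_Dop {j : ℕ} {f : Slice ι w → ℝ} (i : ι) (hf : f ∈ Q ι w j) :
    Dop i f ∈ Q ι w (j + 1) := by
  have : Dop i f = f - (2 : ℝ) • (fun z => ub (z.1 i) * f z) := by
    funext z
    simp only [Dop, sb_eq, Pi.sub_apply, Pi.smul_apply, smul_eq_mul]
    ring
  rw [this]
  exact Submodule.sub_mem _ (Q_le (Nat.le_succ j) hf) (Submodule.smul_mem _ _ (Q_ub i hf))

theorem th_ne {n j k : ℕ} (hjk : j < k) (hk : 2 * k ≤ n) : th n j ≠ th n k := by
  unfold th
  intro h
  have h1 : (j : ℝ) < k := by exact_mod_cast hjk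
  have h2 : (2 * k : ℝ) ≤ n := by exact_mod_cast hk
  have h3 : ((k : ℝ) - j) * (n + 1 - j - k) = 0 := by linarith
  rcases mul_eq_zero.1 h3 with h4 | h4 <;> linarith

/-- eigenfunctions are orthogonal to polynomials of lower degree -/
theorem orth_Q {k : ℕ} (hk : 2 * k ≤ Fintype.card ι) {f : Slice ι w → ℝ}
    (hf : ∀ z, Lop f z = th (Fintype.card ι) k * f z) :
    ∀ (j : ℕ), j ≤ k → ∀ p ∈ Q ι w j, ∑ z, f z * p z = 0 := by
  intro j
  induction j with
  | zero =>
    intro _ p hp
    rw [Q_zero, Submodule.mem_bot] at hp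
    subst hp
    simp
  | succ j ih =>
    intro hj p hp
    have h1 := ih (by omega) _ (Q_step hp)
    simp only [Pi.sub_apply, Pi.smul_apply, smul_eq_mul, LopL_apply, mul_sub,
      Finset.sum_sub_distrib] at h1
    rw [← Lop_symm] at h1
    simp only [hf] at h1
    have h2 : (th (Fintype.card ι) k - th (Fintype.card ι) j) * ∑ z, f z * p z = 0 := by
      rw [sub_mul, Finset.mul_sum, Finset.mul_sum, ← h1]
      congr 1
      · apply Finset.sum_congr rfl
        intro z _
        ring
      · apply Finset.sum_congr rfl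
        intro z _
        ring
    rcases mul_eq_zero.1 h2 with h3 | h3
    · exact absurd (sub_eq_zero.1 h3).symm (th_ne (by omega) hk)
    · exact h3

/-- every eigenvalue is one of the `th j`, and the eigenfunction has degree at most `j` -/
theorem eigen_mem_Q {μ : ℝ} {f : Slice ι w → ℝ} (hf : ∀ z, Lop f z = μ * f z) (h0 : f ≠ 0) :
    ∃ k, k ≤ w ∧ μ = th (Fintype.card ι) k ∧ f ∈ Q ι w (k + 1) := by
  classical
  have hex : ∃ j, f ∈ Q ι w j := ⟨w + 1, by rw [Q_top]; trivial⟩
  have hmin := Nat.find_spec hex
  have hle : Nat.find hex ≤ w + 1 := Nat.find_min' hex (by rw [Q_top]; trivial)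
  have hpos : Nat.find hex ≠ 0 := by
    intro h
    rw [h, Q_zero, Submodule.mem_bot] at hmin
    exact h0 hmin
  obtain ⟨k, hk⟩ : ∃ k, Nat.find hex = k + 1 := ⟨Nat.find hex - 1, by omega⟩
  rw [hk] at hmin
  refine ⟨k, by omega, ?_, hmin⟩
  by_contra hne
  have h1 := Q_step hmin
  have h2 : LopL f - (th (Fintype.card ι) k) • f = (μ - th (Fintype.card ι) k) • f := by
    funext z
    simp only [Pi.sub_apply, Pi.smul_apply, smul_eq_mul, LopL_apply, hf]
    ring
  rw [h2] at h1
  have h3 : f ∈ Q ι w k := by
    have h4 : μ - th (Fintype.card ι) k ≠ 0 := sub_ne_zero.2 hne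
    have h5 := Submodule.smul_mem _ (μ - th (Fintype.card ι) k)⁻¹ h1
    rwa [smul_smul, inv_mul_cancel₀ h4, one_smul] at h5
  have := Nat.find_min' hex h3
  omega

end Pool.Agent.Lib.MP_0430e4_lc.Tensor
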