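import Pool.Agent.Lib.MP_0430e4_lc.TensorCert

/-!
# The Johnson Laplacian on a slice of the cube
-/

set_option autoImplicit false
set_option linter.unusedSectionVars false

namespace Pool.Agent.Lib.MP_0430e4_lc.Tensor

open Finset

/-- binary words of weight `w` -/
abbrev Slice (ι : Type*) [Fintype ι] (w : ℕ) : Type _ :=
  {z : ι → Bool // (univ.filter fun i => z i = true).card = w}

variable {ι : Type*} [Fintype ι] [DecidableEq ι] {w : ℕ}

/-- permuting the coordinates -/
def act (σ : Equiv.Perm ι) (z : Slice ι w) : Slice ι w :=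
  ⟨fun i => z.1 (σ i), (Finset.card_equiv σ (by simp)).trans z.2⟩

theorem act_apply (σ : Equiv.Perm ι) (z : Slice ι w) (i : ι) : (act σ z).1 i = z.1 (σ i) := rfl

theorem act_inv (σ : Equiv.Perm ι) (z : Slice ι w) : act σ⁻¹ (act σ z) = z := by
  apply Subtype.ext
  funext i
  simp [act_apply]

theorem act_inv' (σ : Equiv.Perm ι) (z : Slice ι w) : act σ (act σ⁻¹ z) = z := by
  apply Subtype.ext
  funext i
  simp [act_apply]

/-- permuting the coordinates, as a permutation of the slice -/
def actE (σ : Equiv.Perm ι) : Slice ι w ≃ Slice ι w :=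
  ⟨act σ, act σ⁻¹, act_inv σ, act_inv' σ⟩

theorem sum_act (σ : Equiv.Perm ι) (f : Slice ι w → ℝ) : ∑ z, f (act σ z) = ∑ z, f z :=
  Equiv.sum_comp (actE σ) f

theorem act_swap_swap (a b : ι) (z : Slice ι w) :
    act (Equiv.swap a b) (act (Equiv.swap a b) z) = z := by
  apply Subtype.ext
  funext i
  simp [act_apply]

theorem act_swap_of_eq {a b : ι} {z : Slice ι w} (h : z.1 a = z.1 b) :
    act (Equiv.swap a b) z = z := by
  apply Subtype.ext
  funext i
  rw [act_apply]
  by_cases h1 : i = a
  · subst h1
    rw [Equiv.swap_apply_left, h]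
  · by_cases h2 : i = b
    · subst h2
      rw [Equiv.swap_apply_right, h]
    · rw [Equiv.swap_apply_of_ne_of_ne h1 h2]

/-- twice the Laplacian of the Johnson graph -/
def Lop (f : Slice ι w → ℝ) (z : Slice ι w) : ℝ := ∑ a, ∑ b, (f z - f (act (Equiv.swap a b) z))

/-- sign of a bit -/
def sb (b : Bool) : ℝ := if b = true then -1 else 1

theorem sb_sq (b : Bool) : sb b * sb b = 1 := by cases b <;> simp [sb]

/-- multiplication by the sign of the `i`-th coordinate -/
def Dop (i : ι) (f : Slice ι w → ℝ) (z : Slice ι w) : ℝ := sb (z.1 i) * f z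

/-- the part of the Johnson graph crossing the `i`-th cut -/
def Rop (i : ι) (f : Slice ι w → ℝ) (z : Slice ι w) : ℝ :=
  ∑ b, if z.1 b ≠ z.1 i then f (act (Equiv.swap i b) z) else 0

theorem swap_act_comm (a b : ι) (z : Slice ι w) :
    act (Equiv.swap a b) z = act (Equiv.swap b a) z := by
  rw [Equiv.swap_comm]

theorem Rop_def (i : ι) (f : Slice ι w → ℝ) (z : Slice ι w) :
    Rop i f z = ∑ b, if z.1 b ≠ z.1 i then f (act (Equiv.swap i b) z) else 0 := rfl

/-- `L D_i = D_i (L + 4 R_i)` -/
theorem Lop_Dop (i : ι) (f : Slice ι w → ℝ) (z : Slice ι w) :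
    Lop (Dop i f) z = sb (z.1 i) * (Lop f z + 4 * Rop i f z) := by
  have key : ∀ a b : ι, (sb (z.1 i) - sb (z.1 (Equiv.swap a b i))) * f (act (Equiv.swap a b) z)
      = (if a = i then (sb (z.1 i) - sb (z.1 b)) * f (act (Equiv.swap i b) z) else 0)
        + (if b = i then (sb (z.1 i) - sb (z.1 a)) * f (act (Equiv.swap i a) z) else 0) := by
    intro a b
    by_cases ha : a = i
    · subst ha
      by_cases hb : b = a
      · subst hb
        simp
      · simp [hb]
    · by_cases hb : b = i
      · subst hb
        simp [ha, swap_act_comm b a]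
      · rw [Equiv.swap_apply_of_ne_of_ne (Ne.symm ha) (Ne.symm hb)]
        simp [ha, hb]
  have h2 : ∀ b : ι, (sb (z.1 i) - sb (z.1 b)) * f (act (Equiv.swap i b) z)
      = 2 * sb (z.1 i) * (if z.1 b ≠ z.1 i then f (act (Equiv.swap i b) z) else 0) := by
    intro b
    cases hb : z.1 b <;> cases hi : z.1 i <;> norm_num [sb]
  unfold Lop Dop Rop
  simp only [act_apply]
  have e1 : ∀ a b : ι, sb (z.1 i) * f z - sb (z.1 (Equiv.swap a b i)) * f (act (Equiv.swap a b) z)
      = sb (z.1 i) * (f z - f (act (Equiv.swap a b) z))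
        + (sb (z.1 i) - sb (z.1 (Equiv.swap a b i))) * f (act (Equiv.swap a b) z) := by
    intro a b
    ring
  simp only [e1, key, Finset.sum_add_distrib, ← Finset.mul_sum, h2]
  rw [mul_add]
  congr 1
  have e3 : ∑ a : ι, ∑ b : ι, (if a = i then
      2 * sb (z.1 i) * (if z.1 b ≠ z.1 i then f (act (Equiv.swap i b) z) else 0) else 0)
      = 2 * sb (z.1 i) * ∑ b, (if z.1 b ≠ z.1 i then f (act (Equiv.swap i b) z) else 0) := by
    rw [Finset.sum_comm, Finset.mul_sum]
    apply Finset.sum_congr rfl
    intro b _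
    rw [Finset.sum_ite_eq' Finset.univ i]
    simp
  have e4 : ∑ a : ι, ∑ b : ι, (if b = i then
      2 * sb (z.1 i) * (if z.1 a ≠ z.1 i then f (act (Equiv.swap i a) z) else 0) else 0)
      = 2 * sb (z.1 i) * ∑ b, (if z.1 b ≠ z.1 i then f (act (Equiv.swap i b) z) else 0) := by
    rw [Finset.mul_sum]
    apply Finset.sum_congr rfl
    intro b _
    rw [Finset.sum_ite_eq' Finset.univ i]
    simp
  rw [e3, e4]
  ring

/-- number of coordinates with a given value -/
theorem card_true (z : Slice ι w) : ∑ i, (if z.1 i = true then (1 : ℝ) else 0) = w := by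
  rw [Finset.sum_boole, z.2]

theorem card_false (z : Slice ι w) :
    ∑ i, (if z.1 i = false then (1 : ℝ) else 0) = Fintype.card ι - w := by
  have h : ∀ i, (if z.1 i = false then (1 : ℝ) else 0) = 1 - (if z.1 i = true then (1 : ℝ) else 0) := by
    intro i
    cases z.1 i <;> simp
  simp only [h, Finset.sum_sub_distrib, card_true]
  simp

/-- number of coordinates with a value other than that at `b` -/
def opp (z : Slice ι w) (b : ι) : ℝ := ∑ i, (if z.1 b ≠ z.1 i then (1 : ℝ) else 0)

theorem opp_true {z : Slice ι w} {b : ι} (h : z.1 b = true) : opp z b = Fintype.card ι - w := by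
  rw [← card_false z]
  unfold opp
  apply Finset.sum_congr rfl
  intro i _
  rw [h]
  cases z.1 i <;> simp

theorem opp_false {z : Slice ι w} {b : ι} (h : z.1 b = false) : opp z b = w := by
  rw [← card_true z]
  unfold opp
  apply Finset.sum_congr rfl
  intro i _
  rw [h]
  cases z.1 i <;> simp

theorem opp_add {z : Slice ι w} {a b : ι} (h : z.1 a ≠ z.1 b) :
    opp z a + opp z b = Fintype.card ι := by
  cases ha : z.1 a <;> cases hb : z.1 b
  · exact absurd (ha.trans hb.symm) h
  · rw [opp_false ha, opp_true hb]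
    ring
  · rw [opp_true ha, opp_false hb]
    ring
  · exact absurd (ha.trans hb.symm) h

/-- `W = w (n - w)` -/
theorem sum_opp (z : Slice ι w) : ∑ b, opp z b = 2 * (w * (Fintype.card ι - w)) := by
  have h : ∀ b, opp z b = (if z.1 b = true then (1 : ℝ) else 0) * (Fintype.card ι - w)
      + (if z.1 b = false then (1 : ℝ) else 0) * w := by
    intro b
    cases hb : z.1 b
    · rw [opp_false hb]
      simp
    · rw [opp_true hb]
      simp
  simp only [h, Finset.sum_add_distrib, ← Finset.sum_mul, card_true, card_false]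
  ring

/-- `∑ R_i = 2 W - L` -/
theorem sum_Rop (f : Slice ι w → ℝ) (z : Slice ι w) :
    ∑ i, Rop i f z = 2 * (w * (Fintype.card ι - w)) * f z - Lop f z := by
  rw [← sum_opp z]
  unfold Rop Lop opp
  rw [Finset.sum_mul, ← Finset.sum_sub_distrib]
  apply Finset.sum_congr rfl
  intro a _
  rw [Finset.sum_mul, ← Finset.sum_sub_distrib]
  apply Finset.sum_congr rfl
  intro b _
  by_cases h : z.1 a = z.1 b
  · rw [act_swap_of_eq h]
    simp [h]
  · rw [if_pos (Ne.symm h), if_pos h]
    ring

theorem Rop_Rop_aux (i b : ι) (f : Slice ι w → ℝ) (z : Slice ι w) (h : z.1 b ≠ z.1 i) :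
    Rop i f (act (Equiv.swap i b) z) = f z - f (act (Equiv.swap i b) z) + Rop b f z := by
  have hbi : b ≠ i := fun h' => h (by rw [h'])
  have key : ∀ c : ι, (if (act (Equiv.swap i b) z).1 c ≠ (act (Equiv.swap i b) z).1 i then
      f (act (Equiv.swap i c) (act (Equiv.swap i b) z)) else 0)
      = (if c = b then f z else 0) - (if c = i then f (act (Equiv.swap i b) z) else 0)
        + (if z.1 c ≠ z.1 b then f (act (Equiv.swap b c) z) else 0) := by
    intro c
    rw [act_apply, act_apply, Equiv.swap_apply_left]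
    by_cases hc : c = b
    · subst hc
      rw [Equiv.swap_apply_right, if_pos (Ne.symm h), act_swap_swap, if_pos rfl, if_neg hbi,
        if_neg (by simp)]
      ring
    · by_cases hc' : c = i
      · subst hc'
        rw [Equiv.swap_apply_left, if_neg (by simp), if_neg hc, if_pos rfl, if_pos (Ne.symm h),
          swap_act_comm b c]
        ring
      · rw [Equiv.swap_apply_of_ne_of_ne hc' hc, if_neg hc, if_neg hc']
        by_cases h3 : z.1 c = z.1 b
        · simp [h3]
        · rw [if_pos h3, if_pos h3]
          have hci : z.1 c = z.1 i := by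
            revert h3 h
            cases z.1 c <;> cases z.1 b <;> cases z.1 i <;> simp
          have : act (Equiv.swap i c) (act (Equiv.swap i b) z) = act (Equiv.swap b c) z := by
            apply Subtype.ext
            funext j
            simp only [act_apply]
            by_cases j1 : j = i
            · subst j1
              rw [Equiv.swap_apply_left, Equiv.swap_apply_of_ne_of_ne hc' hc,
                Equiv.swap_apply_of_ne_of_ne (Ne.symm hbi) (Ne.symm hc'), hci]
            · by_cases j2 : j = c
              · subst j2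
                rw [Equiv.swap_apply_right, Equiv.swap_apply_left, Equiv.swap_apply_right]
              · by_cases j3 : j = b
                · subst j3
                  rw [Equiv.swap_apply_of_ne_of_ne hbi (Ne.symm hc), Equiv.swap_apply_right,
                    Equiv.swap_apply_left, hci]
                · rw [Equiv.swap_apply_of_ne_of_ne j1 j2, Equiv.swap_apply_of_ne_of_ne j1 j3,
                    Equiv.swap_apply_of_ne_of_ne j3 j2]
          rw [this]
          ring
  rw [Rop_def i f (act (Equiv.swap i b) z)]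
  simp only [key, Finset.sum_add_distrib, Finset.sum_sub_distrib]
  rw [Finset.sum_ite_eq' Finset.univ b, Finset.sum_ite_eq' Finset.univ i]
  simp only [Finset.mem_univ, if_true]
  rfl

/-- `∑ R_i² = 2 W + ((n - 2)/2) ∑ R_i` -/
theorem sum_Rop_Rop (f : Slice ι w → ℝ) (z : Slice ι w) :
    ∑ i, Rop i (Rop i f) z = 2 * (w * (Fintype.card ι - w)) * f z
      + ((Fintype.card ι - 2) / 2) * ∑ i, Rop i f z := by
  have h1 : ∀ i, Rop i (Rop i f) z = ∑ b, (if z.1 b ≠ z.1 i then (1 : ℝ) else 0) *
      (f z + Rop b f z) - Rop i f z := by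
    intro i
    rw [Rop_def i (Rop i f) z, Rop_def i f z, ← Finset.sum_sub_distrib]
    apply Finset.sum_congr rfl
    intro b _
    by_cases h : z.1 b = z.1 i
    · simp [h]
    · rw [if_pos h, if_pos h, if_pos h, Rop_Rop_aux i b f z h]
      ring
  simp only [h1, Finset.sum_sub_distrib]
  have h2 : ∑ i, ∑ b, (if z.1 b ≠ z.1 i then (1 : ℝ) else 0) * (f z + Rop b f z)
      = ∑ b, opp z b * (f z + Rop b f z) := by
    rw [Finset.sum_comm]
    apply Finset.sum_congr rfl
    intro b _
    rw [← Finset.sum_mul]
    rfl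
  rw [h2]
  have h3 : ∑ b, opp z b * Rop b f z = (Fintype.card ι / 2 : ℝ) * ∑ b, Rop b f z := by
    have e1 : ∑ b, opp z b * Rop b f z
        = ∑ b, ∑ c, (if z.1 c ≠ z.1 b then opp z b * f (act (Equiv.swap b c) z) else 0) := by
      apply Finset.sum_congr rfl
      intro b _
      unfold Rop
      rw [Finset.mul_sum]
      apply Finset.sum_congr rfl
      intro c _
      rw [mul_ite, mul_zero]
    have e2 : ∑ b, opp z b * Rop b f z
        = ∑ b, ∑ c, (if z.1 c ≠ z.1 b then opp z c * f (act (Equiv.swap b c) z) else 0) := by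
      rw [e1, Finset.sum_comm]
      apply Finset.sum_congr rfl
      intro b _
      apply Finset.sum_congr rfl
      intro c _
      rw [swap_act_comm c b]
      simp only [ne_comm (a := z.1 b)]
    have e3 : 2 * ∑ b, opp z b * Rop b f z = Fintype.card ι * ∑ b, Rop b f z := by
      rw [two_mul]
      nth_rewrite 1 [e1]
      rw [e2, ← Finset.sum_add_distrib, Finset.mul_sum]
      apply Finset.sum_congr rfl
      intro b _
      unfold Rop
      rw [← Finset.sum_add_distrib, Finset.mul_sum]
      apply Finset.sum_congr rfl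
      intro c _
      by_cases h : z.1 c = z.1 b
      · simp [h]
      · rw [if_pos h, if_pos h, if_pos h, ← opp_add h]
        ring
    linarith
  simp only [mul_add, Finset.sum_add_distrib]
  rw [h3, ← Finset.sum_mul, sum_opp]
  ring

theorem Rop_symm (i : ι) (f g : Slice ι w → ℝ) :
    ∑ z, Rop i f z * g z = ∑ z, f z * Rop i g z := by
  unfold Rop
  simp only [Finset.sum_mul, Finset.mul_sum]
  rw [Finset.sum_comm]
  conv_rhs => rw [Finset.sum_comm]
  apply Finset.sum_congr rfl
  intro b _
  rw [← sum_act (Equiv.swap i b)]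
  apply Finset.sum_congr rfl
  intro z _
  rw [act_swap_swap, act_apply, act_apply, Equiv.swap_apply_left, Equiv.swap_apply_right]
  by_cases h : z.1 b = z.1 i
  · simp [h]
  · rw [if_pos h, if_pos (Ne.symm h)]

theorem Lop_symm (f g : Slice ι w → ℝ) : ∑ z, Lop f z * g z = ∑ z, f z * Lop g z := by
  unfold Lop
  simp only [Finset.sum_mul, Finset.mul_sum]
  rw [Finset.sum_comm]
  conv_rhs => rw [Finset.sum_comm]
  apply Finset.sum_congr rfl
  intro a _
  rw [Finset.sum_comm]
  conv_rhs => rw [Finset.sum_comm]
  apply Finset.sum_congr rfl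
  intro b _
  simp only [sub_mul, mul_sub, Finset.sum_sub_distrib]
  congr 1
  rw [← sum_act (Equiv.swap a b)]
  apply Finset.sum_congr rfl
  intro z _
  rw [act_swap_swap]

theorem Dop_symm (i : ι) (f g : Slice ι w → ℝ) :
    ∑ z, Dop i f z * g z = ∑ z, f z * Dop i g z := by
  apply Finset.sum_congr rfl
  intro z _
  unfold Dop
  ring

end Pool.Agent.Lib.MP_0430e4_lc.Tensor
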