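import Pool.Agent.Lib.MP_0430e4_lc.TensorPoly

/-!
# Kernels diagonalised by the Johnson Laplacian
-/

set_option autoImplicit false
set_option linter.unusedSectionVars false

namespace Pool.Agent.Lib.MP_0430e4_lc.Tensor

open Finset

theorem exists_eigenbasis_matrix {S : Type*} [Fintype S] [DecidableEq S] (M : Matrix S S ℝ)
    (hM : ∀ x y, M x y = M y x) :
    ∃ (v : S → S → ℝ) (lam : S → ℝ), (∀ k l, ∑ z, v k z * v l z = if k = l then 1 else 0) ∧
      (∀ z z', ∑ k, v k z * v k z' = if z = z' then 1 else 0) ∧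
      ∀ k z, ∑ z', M z z' * v k z' = lam k * v k z := by
  have hH : M.IsHermitian := by
    ext i j
    rw [Matrix.conjTranspose_apply, star_trivial, hM]
  set U : Matrix S S ℝ := (hH.eigenvectorUnitary : Matrix S S ℝ) with hU
  have h1 : star U * U = 1 := Unitary.coe_star_mul_self _
  have h2 : U * star U = 1 := Unitary.coe_mul_star_self _
  refine ⟨fun k z => U z k, hH.eigenvalues, ?_, ?_, ?_⟩
  · intro k l
    have := congrFun (congrFun h1 k) l
    rw [Matrix.mul_apply, Matrix.one_apply] at this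
    simpa [Matrix.star_apply] using this
  · intro z z'
    have := congrFun (congrFun h2 z) z'
    rw [Matrix.mul_apply, Matrix.one_apply] at this
    simpa [Matrix.star_apply] using this
  · intro k z
    have := congrFun (hH.mulVec_eigenvectorBasis k) z
    simp only [Matrix.mulVec, dotProduct, Pi.smul_apply, smul_eq_mul] at this
    exact this

variable {ι : Type*} [Fintype ι] [DecidableEq ι] {w : ℕ}

/-- an orthonormal eigenbasis of the Johnson Laplacian -/
structure EB (ι : Type*) [Fintype ι] [DecidableEq ι] (w : ℕ) where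
  v : Slice ι w → Slice ι w → ℝ
  lam : Slice ι w → ℝ
  orth : ∀ k l, ∑ z, v k z * v l z = if k = l then 1 else 0
  compl : ∀ z z', ∑ k, v k z * v k z' = if z = z' then 1 else 0
  eig : ∀ k z, Lop (v k) z = lam k * v k z

theorem exists_EB (ι : Type*) [Fintype ι] [DecidableEq ι] (w : ℕ) : Nonempty (EB ι w) := by
  have hsym : ∀ x y : Slice ι w, LinearMap.toMatrix' LopL x y = LinearMap.toMatrix' LopL y x := by
    intro x y
    have := Lop_symm (Pi.single y (1 : ℝ)) (Pi.single x (1 : ℝ))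
    rw [Finset.sum_eq_single x, Finset.sum_eq_single y] at this
    · simpa [LinearMap.toMatrix'_apply, LopL_apply] using this
    · intro z _ hz
      rw [Pi.single_eq_of_ne hz, zero_mul]
    · intro h
      exact absurd (Finset.mem_univ _) h
    · intro z _ hz
      rw [Pi.single_eq_of_ne hz, mul_zero]
    · intro h
      exact absurd (Finset.mem_univ _) h
  obtain ⟨v, lam, h1, h2, h3⟩ := exists_eigenbasis_matrix (LinearMap.toMatrix' LopL) hsym
  refine ⟨⟨v, lam, h1, h2, ?_⟩⟩
  intro k z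
  rw [← h3 k z]
  have := congrFun (LinearMap.toMatrix'_mulVec (LopL (ι := ι) (w := w)) (v k)) z
  rw [← LopL_apply, ← this]
  rfl

namespace EB

variable (B : EB ι w)

/-- coefficients -/
def co (k : Slice ι w) (f : Slice ι w → ℝ) : ℝ := ∑ z, B.v k z * f z

theorem co_def (k : Slice ι w) (f : Slice ι w → ℝ) : B.co k f = ∑ z, B.v k z * f z := rfl

theorem expand (f : Slice ι w → ℝ) (z : Slice ι w) : f z = ∑ k, B.co k f * B.v k z := by
  unfold co
  simp only [Finset.sum_mul]
  rw [Finset.sum_comm]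
  have : ∀ y, ∑ k, B.v k y * f y * B.v k z = (if y = z then 1 else 0) * f y := by
    intro y
    rw [← B.compl y z, Finset.sum_mul]
    apply Finset.sum_congr rfl
    intro k _
    ring
  simp only [this, ite_mul, one_mul, zero_mul]
  simp

theorem parseval (f g : Slice ι w → ℝ) : ∑ z, f z * g z = ∑ k, B.co k f * B.co k g := by
  calc ∑ z, f z * g z = ∑ z, f z * ∑ k, B.co k g * B.v k z := by
        apply Finset.sum_congr rfl
        intro z _
        rw [← B.expand g z]
    _ = ∑ k, B.co k f * B.co k g := by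
        simp only [Finset.mul_sum]
        rw [Finset.sum_comm]
        apply Finset.sum_congr rfl
        intro k _
        conv_rhs => rw [co, Finset.sum_mul]
        apply Finset.sum_congr rfl
        intro z _
        ring

theorem co_Lop (k : Slice ι w) (f : Slice ι w → ℝ) : B.co k (Lop f) = B.lam k * B.co k f := by
  unfold co
  rw [← Lop_symm, Finset.mul_sum]
  apply Finset.sum_congr rfl
  intro z _
  rw [B.eig]
  ring

theorem co_eig {μ : ℝ} {f : Slice ι w → ℝ} (hf : ∀ z, Lop f z = μ * f z) (k : Slice ι w)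
    (hk : B.lam k ≠ μ) : B.co k f = 0 := by
  have h1 := B.co_Lop k f
  have h2 : B.co k (Lop f) = μ * B.co k f := by
    unfold co
    rw [Finset.mul_sum]
    apply Finset.sum_congr rfl
    intro z _
    rw [hf]
    ring
  rw [h2] at h1
  have h3 : (μ - B.lam k) * B.co k f = 0 := by linarith
  rcases mul_eq_zero.1 h3 with h4 | h4
  · exact absurd (sub_eq_zero.1 h4).symm hk
  · exact h4

/-- the kernel `e(L)` -/
def ker (e : ℝ → ℝ) (z z' : Slice ι w) : ℝ := ∑ k, e (B.lam k) * B.v k z * B.v k z'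

theorem ker_symm (e : ℝ → ℝ) (z z' : Slice ι w) : B.ker e z z' = B.ker e z' z := by
  unfold ker
  apply Finset.sum_congr rfl
  intro k _
  ring

theorem ker_apply (e : ℝ → ℝ) (f : Slice ι w → ℝ) (z : Slice ι w) :
    ∑ z', B.ker e z z' * f z' = ∑ k, e (B.lam k) * B.co k f * B.v k z := by
  unfold ker co
  simp only [Finset.sum_mul]
  rw [Finset.sum_comm]
  apply Finset.sum_congr rfl
  intro k _
  rw [Finset.mul_sum, Finset.sum_mul]
  apply Finset.sum_congr rfl
  intro y _
  ring

theorem ker_form (e : ℝ → ℝ) (f g : Slice ι w → ℝ) :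
    ∑ z, ∑ z', f z * g z' * B.ker e z z' = ∑ k, e (B.lam k) * B.co k f * B.co k g := by
  have : ∀ z, ∑ z', f z * g z' * B.ker e z z' = f z * ∑ k, e (B.lam k) * B.co k g * B.v k z := by
    intro z
    rw [← ker_apply, Finset.mul_sum]
    apply Finset.sum_congr rfl
    intro z' _
    ring
  simp only [this, Finset.mul_sum]
  rw [Finset.sum_comm]
  apply Finset.sum_congr rfl
  intro k _
  conv_rhs => rw [show B.co k f = ∑ z, B.v k z * f z from rfl, Finset.mul_sum, Finset.sum_mul]
  apply Finset.sum_congr rfl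
  intro z _
  ring

theorem ker_apply_eig (e : ℝ → ℝ) {μ : ℝ} {f : Slice ι w → ℝ} (hf : ∀ z, Lop f z = μ * f z)
    (z : Slice ι w) : ∑ z', B.ker e z z' * f z' = e μ * f z := by
  rw [ker_apply, B.expand f z, Finset.mul_sum]
  apply Finset.sum_congr rfl
  intro k _
  by_cases h : B.lam k = μ
  · rw [h]
    ring
  · rw [B.co_eig hf k h]
    ring

end EB

theorem act_act_swap (σ : Equiv.Perm ι) (a b : ι) (z : Slice ι w) :
    act σ (act (Equiv.swap a b) z) = act (Equiv.swap (σ⁻¹ a) (σ⁻¹ b)) (act σ z) := by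
  apply Subtype.ext
  funext i
  simp only [act_apply]
  have := congrArg (fun τ : Equiv.Perm ι => τ i) (Equiv.swap_mul_eq_mul_swap σ a b)
  exact congrArg z.1 this

theorem Lop_act (σ : Equiv.Perm ι) (f : Slice ι w → ℝ) (z : Slice ι w) :
    Lop (fun y => f (act σ y)) z = Lop f (act σ z) := by
  unfold Lop
  rw [← Equiv.sum_comp (σ⁻¹ : Equiv.Perm ι) (fun a => ∑ b, (f (act σ z)
    - f (act (Equiv.swap a b) (act σ z))))]
  apply Finset.sum_congr rfl
  intro a _
  rw [← Equiv.sum_comp (σ⁻¹ : Equiv.Perm ι) (fun b => (f (act σ z)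
    - f (act (Equiv.swap (σ⁻¹ a) b) (act σ z))))]
  apply Finset.sum_congr rfl
  intro b _
  rw [← act_act_swap]

namespace EB

variable (B : EB ι w)

theorem ker_act (e : ℝ → ℝ) (σ : Equiv.Perm ι) (z z' : Slice ι w) :
    B.ker e (act σ z) (act σ z') = B.ker e z z' := by
  have h1 : ∀ l, ∑ y, B.ker e (act σ z) (act σ y) * B.v l y = e (B.lam l) * B.v l z := by
    intro l
    have h2 : ∑ y, B.ker e (act σ z) (act σ y) * B.v l y
        = ∑ y, B.ker e (act σ z) y * B.v l (act σ⁻¹ y) := by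
      rw [← sum_act σ (fun y => B.ker e (act σ z) y * B.v l (act σ⁻¹ y))]
      simp only [act_inv]
    rw [h2]
    have h3 : ∀ y, Lop (fun y => B.v l (act σ⁻¹ y)) y = B.lam l * B.v l (act σ⁻¹ y) := by
      intro y
      rw [Lop_act, B.eig]
    rw [B.ker_apply_eig e h3, act_inv]
  have h2 : B.ker e (act σ z) (act σ z')
      = ∑ l, (∑ y, B.ker e (act σ z) (act σ y) * B.v l y) * B.v l z' := by
    have h4 := B.expand (fun y => B.ker e (act σ z) (act σ y)) z'
    rw [h4]
    apply Finset.sum_congr rfl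
    intro l _
    congr 1
    unfold co
    apply Finset.sum_congr rfl
    intro y _
    ring
  rw [h2]
  simp only [h1]
  rfl

end EB

/-- `ρ(z, z') = n - 2 d(z, z')` -/
def rho (z z' : Slice ι w) : ℝ := ∑ i, sb (z.1 i) * sb (z'.1 i)

theorem rho_act (σ : Equiv.Perm ι) (z z' : Slice ι w) : rho (act σ z) (act σ z') = rho z z' := by
  unfold rho
  simp only [act_apply]
  exact Equiv.sum_comp σ (fun i => sb (z.1 i) * sb (z'.1 i))

namespace EB

variable (B : EB ι w)

/-- the operator with kernel `ρ e(L)` -/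
def Kop (e : ℝ → ℝ) (g : Slice ι w → ℝ) (z : Slice ι w) : ℝ :=
  ∑ z', rho z z' * B.ker e z z' * g z'

theorem Kop_act (e : ℝ → ℝ) (σ : Equiv.Perm ι) (g : Slice ι w → ℝ) (z : Slice ι w) :
    B.Kop e (fun y => g (act σ y)) z = B.Kop e g (act σ z) := by
  unfold Kop
  rw [← sum_act σ (fun y => rho (act σ z) y * B.ker e (act σ z) y * g y)]
  apply Finset.sum_congr rfl
  intro y _
  rw [rho_act, B.ker_act]

theorem Kop_Lop (e : ℝ → ℝ) (g : Slice ι w → ℝ) (z : Slice ι w) :
    B.Kop e (Lop g) z = Lop (B.Kop e g) z := by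
  have h1 : ∀ a b : ι, B.Kop e (fun y => g y - g (act (Equiv.swap a b) y)) z
      = B.Kop e g z - B.Kop e g (act (Equiv.swap a b) z) := by
    intro a b
    rw [← Kop_act]
    unfold Kop
    rw [← Finset.sum_sub_distrib]
    apply Finset.sum_congr rfl
    intro y _
    ring
  have h2 : B.Kop e (Lop g) z = ∑ a, ∑ b, B.Kop e (fun y => g y - g (act (Equiv.swap a b) y)) z := by
    unfold Kop Lop
    simp only [Finset.mul_sum]
    rw [Finset.sum_comm]
    apply Finset.sum_congr rfl
    intro a _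
    rw [Finset.sum_comm]
  rw [h2]
  simp only [h1]
  rfl

/-- the bilinear form of `ρ e(L)` -/
def Kf (e : ℝ → ℝ) (f g : Slice ι w → ℝ) : ℝ := ∑ z, f z * B.Kop e g z

theorem Kf_eq_zero (e : ℝ → ℝ) {μ ν : ℝ} (hμν : μ ≠ ν) {f g : Slice ι w → ℝ}
    (hf : ∀ z, Lop f z = μ * f z) (hg : ∀ z, Lop g z = ν * g z) : B.Kf e f g = 0 := by
  have h1 : ∑ z, Lop f z * B.Kop e g z = μ * B.Kf e f g := by
    unfold Kf
    rw [Finset.mul_sum]
    apply Finset.sum_congr rfl
    intro z _
    rw [hf]
    ring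
  have h2 : ∑ z, f z * Lop (B.Kop e g) z = ν * B.Kf e f g := by
    unfold Kf
    rw [Finset.mul_sum]
    apply Finset.sum_congr rfl
    intro z _
    rw [← Kop_Lop]
    have : B.Kop e (Lop g) z = ν * B.Kop e g z := by
      unfold Kop
      rw [Finset.mul_sum]
      apply Finset.sum_congr rfl
      intro y _
      rw [hg]
      ring
    rw [this]
    ring
  rw [Lop_symm, h2] at h1
  have h3 : (μ - ν) * B.Kf e f g = 0 := by linarith
  rcases mul_eq_zero.1 h3 with h4 | h4
  · exact absurd (sub_eq_zero.1 h4) hμν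
  · exact h4

theorem Kf_eq (e : ℝ → ℝ) (f : Slice ι w → ℝ) :
    B.Kf e f f = ∑ i, ∑ k, e (B.lam k) * (B.co k (Dop i f)) ^ 2 := by
  have h1 : ∀ i, ∑ k, e (B.lam k) * (B.co k (Dop i f)) ^ 2
      = ∑ z, ∑ z', Dop i f z * Dop i f z' * B.ker e z z' := by
    intro i
    rw [ker_form]
    apply Finset.sum_congr rfl
    intro k _
    ring
  simp only [h1]
  unfold Kf Kop rho
  rw [Finset.sum_comm]
  apply Finset.sum_congr rfl
  intro z _
  rw [Finset.mul_sum, Finset.sum_comm]
  apply Finset.sum_congr rfl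
  intro z' _
  rw [Finset.sum_mul, Finset.sum_mul, Finset.mul_sum]
  apply Finset.sum_congr rfl
  intro i _
  unfold Dop
  ring

/-- component of `f` in the `μ`-eigenspace -/
noncomputable def comp (f : Slice ι w → ℝ) (μ : ℝ) (z : Slice ι w) : ℝ :=
  ∑ k ∈ univ.filter (fun k => B.lam k = μ), B.co k f * B.v k z

theorem comp_eig (f : Slice ι w → ℝ) (μ : ℝ) (z : Slice ι w) :
    Lop (B.comp f μ) z = μ * B.comp f μ z := by
  have h1 : B.comp f μ = ∑ k ∈ univ.filter (fun k => B.lam k = μ), B.co k f • B.v k := by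
    funext z
    simp [comp, Finset.sum_apply]
  rw [← LopL_apply, h1, map_sum, Finset.sum_apply, Finset.sum_apply, Finset.mul_sum]
  apply Finset.sum_congr rfl
  intro k hk
  rw [Finset.mem_filter] at hk
  simp only [map_smul, Pi.smul_apply, smul_eq_mul, LopL_apply, B.eig, hk.2]
  ring

theorem sum_comp (f : Slice ι w → ℝ) (z : Slice ι w) :
    f z = ∑ μ ∈ univ.image B.lam, B.comp f μ z := by
  rw [B.expand f z]
  unfold comp
  rw [Finset.sum_fiberwise_of_maps_to (fun k _ => Finset.mem_image_of_mem _ (Finset.mem_univ k))]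

theorem co_comp (f : Slice ι w → ℝ) (μ : ℝ) (k : Slice ι w) :
    B.co k (B.comp f μ) = if B.lam k = μ then B.co k f else 0 := by
  rw [B.co_def k (B.comp f μ)]
  unfold comp
  simp only [Finset.mul_sum]
  rw [Finset.sum_comm]
  have : ∀ l, ∑ z, B.v k z * (B.co l f * B.v l z) = if k = l then B.co l f else 0 := by
    intro l
    calc ∑ z, B.v k z * (B.co l f * B.v l z) = B.co l f * ∑ z, B.v k z * B.v l z := by
          rw [Finset.mul_sum]
          apply Finset.sum_congr rfl
          intro z _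
          ring
      _ = _ := by
          rw [B.orth]
          split_ifs <;> simp
  simp only [this]
  rw [Finset.sum_ite_eq]
  simp

theorem norm_comp (f : Slice ι w → ℝ) (μ : ℝ) :
    ∑ z, B.comp f μ z ^ 2 = ∑ k ∈ univ.filter (fun k => B.lam k = μ), B.co k f ^ 2 := by
  have h1 : ∑ z, B.comp f μ z ^ 2 = ∑ z, B.comp f μ z * B.comp f μ z := by
    apply Finset.sum_congr rfl
    intro z _
    ring
  rw [h1, B.parseval]
  simp only [co_comp]
  rw [Finset.sum_filter]
  apply Finset.sum_congr rfl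
  intro k _
  split_ifs <;> ring

theorem Kf_sum_right (e : ℝ → ℝ) (f : Slice ι w → ℝ) (s : Finset ℝ) (G : ℝ → Slice ι w → ℝ) :
    B.Kf e f (fun z => ∑ μ ∈ s, G μ z) = ∑ μ ∈ s, B.Kf e f (G μ) := by
  unfold Kf Kop
  rw [Finset.sum_comm]
  apply Finset.sum_congr rfl
  intro z _
  rw [← Finset.mul_sum]
  congr 1
  rw [Finset.sum_comm]
  apply Finset.sum_congr rfl
  intro z' _
  rw [Finset.mul_sum]

theorem Kf_sum_left (e : ℝ → ℝ) (f : Slice ι w → ℝ) (s : Finset ℝ) (G : ℝ → Slice ι w → ℝ) :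
    B.Kf e (fun z => ∑ μ ∈ s, G μ z) f = ∑ μ ∈ s, B.Kf e (G μ) f := by
  unfold Kf
  rw [Finset.sum_comm]
  apply Finset.sum_congr rfl
  intro z _
  rw [Finset.sum_mul]

theorem Kf_decomp (e : ℝ → ℝ) (f : Slice ι w → ℝ) :
    B.Kf e f f = ∑ μ ∈ univ.image B.lam, B.Kf e (B.comp f μ) (B.comp f μ) := by
  have h0 : f = fun z => ∑ μ ∈ univ.image B.lam, B.comp f μ z := by
    funext z
    exact B.sum_comp f z
  conv_lhs => rw [h0]
  rw [Kf_sum_left]
  apply Finset.sum_congr rfl
  intro μ hμ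
  rw [Kf_sum_right, Finset.sum_eq_single μ]
  · intro ν _ hν
    exact B.Kf_eq_zero e hν.symm (B.comp_eig f μ) (B.comp_eig f ν)
  · intro h
    exact absurd hμ h

/-- reduction of the operator inequality to eigenspaces -/
theorem Kf_ge (e : ℝ → ℝ) (c : ℝ)
    (H : ∀ k : Slice ι w, ∀ g : Slice ι w → ℝ, (∀ z, Lop g z = B.lam k * g z) →
      c * (e (B.lam k) * ∑ z, g z ^ 2) ≤ B.Kf e g g) (f : Slice ι w → ℝ) :
    c * ∑ k, e (B.lam k) * (B.co k f) ^ 2 ≤ B.Kf e f f := by
  rw [Kf_decomp]
  have h1 : ∑ k, e (B.lam k) * (B.co k f) ^ 2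
      = ∑ μ ∈ univ.image B.lam, e μ * ∑ z, B.comp f μ z ^ 2 := by
    rw [← Finset.sum_fiberwise_of_maps_to
      (fun k _ => Finset.mem_image_of_mem B.lam (Finset.mem_univ k))]
    apply Finset.sum_congr rfl
    intro μ _
    rw [norm_comp, Finset.mul_sum]
    apply Finset.sum_congr rfl
    intro k hk
    rw [Finset.mem_filter] at hk
    rw [hk.2]
  rw [h1, Finset.mul_sum]
  apply Finset.sum_le_sum
  intro μ hμ
  obtain ⟨k, -, rfl⟩ := Finset.mem_image.1 hμ
  exact H k _ (B.comp_eig f _)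

end EB

end Pool.Agent.Lib.MP_0430e4_lc.Tensor
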