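import Pool.Agent.Lib.MP_0430e4_lc.TensorJohnson

/-!
# The window kernel and the resulting certificate
-/

set_option autoImplicit false
set_option linter.unusedSectionVars false

namespace Pool.Agent.Lib.MP_0430e4_lc.Tensor

open Finset

variable {ι : Type*} [Fintype ι] [DecidableEq ι] {w : ℕ}

theorem card_slice : Fintype.card (Slice ι w) = (Fintype.card ι).choose w := by
  rw [← Fintype.card_finset_len]
  apply Fintype.card_congr
  exact
    { toFun := fun z => ⟨univ.filter fun i => z.1 i = true, z.2⟩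
      invFun := fun s => ⟨fun i => decide (i ∈ s.1), by
        have : (univ.filter fun i => decide (i ∈ s.1) = true) = s.1 := by
          ext i
          simp
        rw [this]
        exact s.2⟩
      left_inv := by
        intro z
        apply Subtype.ext
        funext i
        simp
      right_inv := by
        intro s
        apply Subtype.ext
        ext i
        simp }

theorem exists_act (z z' : Slice ι w) : ∃ σ : Equiv.Perm ι, act σ z = z' := by
  have h1 : Fintype.card {i // z'.1 i = true} = Fintype.card {i // z.1 i = true} := by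
    rw [Fintype.card_subtype, Fintype.card_subtype, z.2, z'.2]
  set e : {i // z'.1 i = true} ≃ {i // z.1 i = true} := Fintype.equivOfCardEq h1 with he
  refine ⟨e.extendSubtype, ?_⟩
  apply Subtype.ext
  funext i
  rw [act_apply]
  by_cases h : z'.1 i = true
  · rw [h]
    exact e.extendSubtype_mem i h
  · have h2 := e.extendSubtype_not_mem i h
    cases h3 : z'.1 i
    · cases h4 : z.1 (e.extendSubtype i)
      · rfl
      · exact absurd h4 h2
    · exact absurd h3 h

theorem xp_pos {n w j : ℕ} (hw : 2 * w ≤ n) (hj : j < w) : 0 < xp n w j := by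
  unfold xp
  have h1 : (j : ℝ) + 1 ≤ w := by exact_mod_cast hj
  have h2 : (2 * w : ℝ) ≤ n := by exact_mod_cast hw
  have h3 : (0 : ℝ) ≤ j := Nat.cast_nonneg j
  apply div_pos
  · apply mul_pos (by norm_num)
    apply mul_pos
    · apply mul_pos <;> linarith
    · linarith
  · apply mul_pos <;> linarith

theorem xm_nonneg {n w j : ℕ} (hw : 2 * w ≤ n) (hj : j ≤ w) : 0 ≤ xm n w j := by
  unfold xm
  have h1 : (j : ℝ) ≤ w := by exact_mod_cast hj
  have h2 : (2 * w : ℝ) ≤ n := by exact_mod_cast hw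
  have h3 : (0 : ℝ) ≤ j := Nat.cast_nonneg j
  apply div_nonneg
  · apply mul_nonneg (by norm_num)
    apply mul_nonneg
    · apply mul_nonneg <;> linarith
    · linarith
  · apply mul_nonneg <;> linarith

namespace EB

variable (B : EB ι w)

theorem exists_lam (hw : 2 * w ≤ Fintype.card ι) (j : ℕ) (hj : j ≤ w) :
    ∃ k, B.lam k = th (Fintype.card ι) j := by
  induction j with
  | zero =>
    by_contra hne
    push Not at hne
    have hne' : (0 : ℕ) < Fintype.card (Slice ι w) := by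
      rw [card_slice]
      exact Nat.choose_pos (by omega)
    obtain ⟨z⟩ := Fintype.card_pos_iff.1 hne'
    have hf : ∀ z : Slice ι w, Lop (fun _ => (1 : ℝ)) z = th (Fintype.card ι) 0 * 1 := by
      intro z
      simp [Lop, th]
    have h1 : ∀ k, B.co k (fun _ => (1 : ℝ)) = 0 := fun k => B.co_eig hf k (hne k)
    have h2 := B.expand (fun _ => (1 : ℝ)) z
    simp [h1] at h2
  | succ j ih =>
    obtain ⟨k, hk⟩ := ih (by omega)
    by_contra hne
    push Not at hne
    have hf : ∀ z, Lop (B.v k) z = th (Fintype.card ι) j * B.v k z := by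
      intro z
      rw [B.eig, hk]
    have h1 := B.main_identity hw (by omega : 2 * j < Fintype.card ι) hf
      (fun t => if t = th (Fintype.card ι) (j + 1) then 1 else 0)
    have h2 : ∑ i, ∑ l, (if B.lam l = th (Fintype.card ι) (j + 1) then (1 : ℝ) else 0)
        * B.co l (Dop i (B.v k)) ^ 2 = 0 := by
      apply Finset.sum_eq_zero
      intro i _
      apply Finset.sum_eq_zero
      intro l _
      rw [if_neg (hne l), zero_mul]
    rw [h2] at h1
    have h3 : ∑ z, B.v k z ^ 2 = 1 := by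
      have := B.orth k k
      rw [if_pos rfl] at this
      rw [← this]
      apply Finset.sum_congr rfl
      intro z _
      ring
    have h4 : thr (Fintype.card ι) (j : ℝ) ≠ th (Fintype.card ι) (j + 1) := by
      rw [← th_eq]
      exact th_ne (by omega) (by omega)
    have h5 : thr (Fintype.card ι) ((j : ℝ) + 1) = th (Fintype.card ι) (j + 1) := by
      rw [th_eq]
      push_cast
      rfl
    rw [h3, if_neg h4, if_pos h5] at h1
    have h6 := xp_pos hw (by omega : j < w)
    have h7 := xm_nonneg hw (by omega : j ≤ w)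
    have h8 : 0 ≤ (if thr (Fintype.card ι) ((j : ℝ) - 1) = th (Fintype.card ι) (j + 1)
        then (1 : ℝ) else 0) := by split_ifs <;> norm_num
    nlinarith [mul_nonneg h8 h7]

end EB

/-- sine window -/
noncomputable def sw (a r : ℕ) (J : ℝ) : ℝ := Real.sin (Real.pi / (r + 2) * (J - a + 1))

theorem sw_add (a r : ℕ) (J : ℝ) :
    sw a r (J + 1) + sw a r (J - 1) = 2 * Real.cos (Real.pi / (r + 2)) * sw a r J := by
  unfold sw
  have h1 : Real.pi / (r + 2) * (J + 1 - a + 1)
      = Real.pi / (r + 2) * (J - a + 1) + Real.pi / (r + 2) := by ring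
  have h2 : Real.pi / (r + 2) * (J - 1 - a + 1)
      = Real.pi / (r + 2) * (J - a + 1) - Real.pi / (r + 2) := by ring
  rw [h1, h2, Real.sin_add, Real.sin_sub]
  ring

theorem sw_nonneg (a r : ℕ) {J : ℝ} (h1 : (a : ℝ) ≤ J + 1) (h2 : J ≤ a + r + 1) :
    0 ≤ sw a r J := by
  unfold sw
  have hr : (0 : ℝ) < (r : ℝ) + 2 := by positivity
  apply Real.sin_nonneg_of_nonneg_of_le_pi
  · apply mul_nonneg
    · exact div_nonneg Real.pi_pos.le hr.le
    · linarith
  · rw [div_mul_eq_mul_div, div_le_iff₀ hr]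
    apply mul_le_mul_of_nonneg_left _ Real.pi_pos.le
    linarith

theorem sw_left (a r : ℕ) : sw a r ((a : ℝ) - 1) = 0 := by
  unfold sw
  rw [show (a : ℝ) - 1 - a + 1 = 0 by ring, mul_zero, Real.sin_zero]

theorem sw_right (a r : ℕ) : sw a r ((a : ℝ) + r + 1) = 0 := by
  unfold sw
  have hr : ((r : ℝ) + 2) ≠ 0 := by positivity
  rw [show (a : ℝ) + r + 1 - a + 1 = r + 2 by ring, div_mul_cancel₀ _ hr, Real.sin_pi]

theorem sw_pos (a r : ℕ) : 0 < sw a r a := by
  unfold sw
  have hr : (0 : ℝ) < (r : ℝ) + 2 := by positivity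
  rw [show (a : ℝ) - a + 1 = 1 by ring, mul_one]
  apply Real.sin_pos_of_pos_of_lt_pi
  · exact div_pos Real.pi_pos hr
  · rw [div_lt_iff₀ hr]
    have h1 := Real.pi_pos
    have h2 : (0 : ℝ) ≤ r := Nat.cast_nonneg r
    nlinarith

/-- the window function of the eigenvalue -/
noncomputable def ew (n a r : ℕ) (g : ℝ) (t : ℝ) : ℝ :=
  ∑ j ∈ Finset.Icc a (a + r), if t = th n j then sw a r j * g ^ j else 0

theorem ew_nonneg (n a r : ℕ) {g : ℝ} (hg : 0 ≤ g) (t : ℝ) : 0 ≤ ew n a r g t := by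
  apply Finset.sum_nonneg
  intro j hj
  rw [Finset.mem_Icc] at hj
  split_ifs
  · apply mul_nonneg _ (pow_nonneg hg j)
    have h1 : (a : ℝ) ≤ j := by exact_mod_cast hj.1
    have h2 : (j : ℝ) ≤ a + r := by exact_mod_cast hj.2
    apply sw_nonneg <;> linarith
  · exact le_rfl

theorem ew_th {n a r : ℕ} (g : ℝ) (har : 2 * (a + r) ≤ n) {j : ℕ} (hj : 2 * j ≤ n) :
    ew n a r g (th n j) = if j ∈ Finset.Icc a (a + r) then sw a r j * g ^ j else 0 := by
  unfold ew
  have h : ∀ i ∈ Finset.Icc a (a + r), (if th n j = th n i then sw a r i * g ^ i else 0)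
      = if j = i then sw a r i * g ^ i else 0 := by
    intro i hi
    rw [Finset.mem_Icc] at hi
    by_cases h : j = i
    · simp [h]
    · rw [if_neg h, if_neg]
      intro h'
      exact h (th_inj hj (by omega) h')
  rw [Finset.sum_congr rfl h, Finset.sum_ite_eq]

theorem ew_support {n a r : ℕ} {g t : ℝ} (h : ew n a r g t ≠ 0) :
    ∃ j ∈ Finset.Icc a (a + r), t = th n j := by
  obtain ⟨j, hj, hj2⟩ := Finset.exists_ne_zero_of_sum_ne_zero h
  refine ⟨j, hj, ?_⟩
  by_contra h3
  exact hj2 (if_neg h3)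

theorem ew_mid {n a r : ℕ} (g : ℝ) (har : 2 * (a + r) ≤ n) {j : ℕ}
    (hj : j ∈ Finset.Icc a (a + r)) : ew n a r g (thr n j) = sw a r j * g ^ j := by
  rw [← th_eq, ew_th g har (by rw [Finset.mem_Icc] at hj; omega), if_pos hj]

theorem ew_up {n a r : ℕ} (g : ℝ) (har : 2 * (a + r + 1) ≤ n) {j : ℕ}
    (hj : j ∈ Finset.Icc a (a + r)) :
    ew n a r g (thr n ((j : ℝ) + 1)) = sw a r ((j : ℝ) + 1) * g ^ (j + 1) := by
  have h1 : thr n ((j : ℝ) + 1) = th n (j + 1) := by
    rw [th_eq]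
    push_cast
    rfl
  rw [Finset.mem_Icc] at hj
  rw [h1, ew_th g (by omega) (by omega)]
  split_ifs with h
  · push_cast
    rfl
  · rw [Finset.mem_Icc] at h
    have : j = a + r := by omega
    rw [this]
    push_cast
    rw [sw_right, zero_mul]

theorem ew_down {n a r : ℕ} (g : ℝ) (ha : 1 ≤ a) (har : 2 * (a + r) ≤ n) {j : ℕ}
    (hj : j ∈ Finset.Icc a (a + r)) :
    ew n a r g (thr n ((j : ℝ) - 1)) = sw a r ((j : ℝ) - 1) * g ^ (j - 1) := by
  rw [Finset.mem_Icc] at hj
  obtain ⟨m, rfl⟩ : ∃ m, j = m + 1 := ⟨j - 1, by omega⟩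
  have h1 : thr n (((m + 1 : ℕ) : ℝ) - 1) = th n m := by
    rw [th_eq]
    push_cast
    congr 1
    ring
  rw [h1, ew_th g (by omega) (by omega)]
  split_ifs with h
  · push_cast
    simp
  · rw [Finset.mem_Icc] at h
    have : m + 1 = a := by omega
    rw [this, sw_left, zero_mul]

namespace EB

variable (B : EB ι w)

theorem window_ineq (hw : 2 * w ≤ Fintype.card ι) {a r : ℕ} (ha : 1 ≤ a) (har : a + r < w)
    {Xp Xm X0 : ℝ} (hXp : 0 < Xp) (hXm : 0 < Xm)
    (hp : ∀ j ∈ Finset.Icc a (a + r), Xp ≤ xp (Fintype.card ι) w j)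
    (hm : ∀ j ∈ Finset.Icc a (a + r), Xm ≤ xm (Fintype.card ι) w j)
    (h0 : ∀ j ∈ Finset.Icc a (a + r),
      X0 ≤ Fintype.card ι - xp (Fintype.card ι) w j - xm (Fintype.card ι) w j)
    (f : Slice ι w → ℝ) :
    (X0 + 2 * Real.sqrt (Xp * Xm) * Real.cos (Real.pi / (r + 2)))
      * ∑ k, ew (Fintype.card ι) a r (Real.sqrt (Xm / Xp)) (B.lam k) * (B.co k f) ^ 2
      ≤ B.Kf (ew (Fintype.card ι) a r (Real.sqrt (Xm / Xp))) f f := by
  set g := Real.sqrt (Xm / Xp) with hg
  have hg0 : 0 < g := Real.sqrt_pos.2 (div_pos hXm hXp)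
  have hgp : g * Xp = Real.sqrt (Xp * Xm) := by
    have h1 : Xp * Xm = (g * Xp) ^ 2 := by
      rw [mul_pow, hg, Real.sq_sqrt (div_pos hXm hXp).le]
      field_simp
    rw [h1, Real.sqrt_sq (by positivity)]
  have hgm : Xm = g * Real.sqrt (Xp * Xm) := by
    rw [← hgp]
    have : g * (g * Xp) = g ^ 2 * Xp := by ring
    rw [this, hg, Real.sq_sqrt (div_pos hXm hXp).le]
    field_simp
  apply B.Kf_ge
  intro k h hh
  by_cases he : ew (Fintype.card ι) a r g (B.lam k) = 0
  · rw [he, zero_mul, mul_zero, B.Kf_eq]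
    apply Finset.sum_nonneg
    intro i _
    apply Finset.sum_nonneg
    intro l _
    exact mul_nonneg (ew_nonneg _ _ _ hg0.le _) (sq_nonneg _)
  · obtain ⟨j, hj, hj2⟩ := ew_support he
    have hj' := hj
    rw [Finset.mem_Icc] at hj'
    rw [hj2] at hh ⊢
    rw [B.Kf_eq, B.main_identity hw (by omega) hh]
    rw [th_eq, ew_mid g (by omega) hj, ew_up g (by omega) hj, ew_down g ha (by omega) hj]
    have hN : 0 ≤ ∑ z, h z ^ 2 := Finset.sum_nonneg fun z _ => sq_nonneg _
    rw [← mul_assoc]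
    apply mul_le_mul_of_nonneg_right _ hN
    have hja : (a : ℝ) ≤ j := by exact_mod_cast hj'.1
    have hjr : (j : ℝ) ≤ a + r := by exact_mod_cast hj'.2
    have s0 : 0 ≤ sw a r (j : ℝ) := sw_nonneg a r (by linarith) (by linarith)
    have s1 : 0 ≤ sw a r ((j : ℝ) + 1) := sw_nonneg a r (by linarith) (by linarith)
    have s2 : 0 ≤ sw a r ((j : ℝ) - 1) := sw_nonneg a r (by linarith) (by linarith)
    have hgj : g ^ j = g * g ^ (j - 1) := by
      rw [← pow_succ']
      congr 1
      omega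
    have hgj1 : 0 < g ^ (j - 1) := pow_pos hg0 _
    have e1 : (sw a r ((j : ℝ) + 1) * g ^ (j + 1)) * Xp
        ≤ (sw a r ((j : ℝ) + 1) * g ^ (j + 1)) * xp (Fintype.card ι) w j :=
      mul_le_mul_of_nonneg_left (hp j hj) (by positivity)
    have e2 : (sw a r ((j : ℝ) - 1) * g ^ (j - 1)) * Xm
        ≤ (sw a r ((j : ℝ) - 1) * g ^ (j - 1)) * xm (Fintype.card ι) w j :=
      mul_le_mul_of_nonneg_left (hm j hj) (by positivity)
    have e3 : (sw a r (j : ℝ) * g ^ j) * X0
        ≤ (sw a r (j : ℝ) * g ^ j) * (Fintype.card ι - xp (Fintype.card ι) w j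
          - xm (Fintype.card ι) w j) :=
      mul_le_mul_of_nonneg_left (h0 j hj) (by positivity)
    have e4 : (sw a r ((j : ℝ) + 1) * g ^ (j + 1)) * Xp + (sw a r ((j : ℝ) - 1) * g ^ (j - 1)) * Xm
        = 2 * Real.sqrt (Xp * Xm) * Real.cos (Real.pi / (r + 2)) * (sw a r j * g ^ j) := by
      have h5 : (sw a r ((j : ℝ) + 1) * g ^ (j + 1)) * Xp
          = sw a r ((j : ℝ) + 1) * g ^ j * Real.sqrt (Xp * Xm) := by
        rw [← hgp, pow_succ]
        ring
      have h6 : (sw a r ((j : ℝ) - 1) * g ^ (j - 1)) * Xm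
          = sw a r ((j : ℝ) - 1) * g ^ j * Real.sqrt (Xp * Xm) := by
        rw [hgj]
        nth_rewrite 1 [hgm]
        ring
      rw [h5, h6]
      have h7 := sw_add a r (j : ℝ)
      have : sw a r ((j : ℝ) + 1) = 2 * Real.cos (Real.pi / (r + 2)) * sw a r j
          - sw a r ((j : ℝ) - 1) := by linarith
      rw [this]
      ring
    nlinarith [e1, e2, e3, e4]

/-! ### Schur squares -/

theorem schur_form (e : ℝ → ℝ) (F : Slice ι w → ℝ) :
    ∑ z, ∑ z', F z * F z' * B.ker e z z' ^ 2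
      = ∑ k, e (B.lam k) * ∑ l, e (B.lam l) * B.co l (fun z => F z * B.v k z) ^ 2 := by
  have h1 : ∀ k, ∑ l, e (B.lam l) * B.co l (fun z => F z * B.v k z) ^ 2
      = ∑ z, ∑ z', (F z * B.v k z) * (F z' * B.v k z') * B.ker e z z' := by
    intro k
    rw [B.ker_form e (fun z => F z * B.v k z) (fun z => F z * B.v k z)]
    apply Finset.sum_congr rfl
    intro l _
    ring
  simp only [h1, Finset.mul_sum]
  conv_rhs => rw [Finset.sum_comm]
  apply Finset.sum_congr rfl
  intro z _
  conv_rhs => rw [Finset.sum_comm]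
  apply Finset.sum_congr rfl
  intro z' _
  rw [sq]
  nth_rewrite 1 [ker]
  rw [Finset.sum_mul, Finset.mul_sum]
  apply Finset.sum_congr rfl
  intro k _
  ring

theorem schur_rho (e : ℝ → ℝ) (F : Slice ι w → ℝ) :
    ∑ z, ∑ z', F z * F z' * (rho z z' * B.ker e z z' ^ 2)
      = ∑ k, e (B.lam k) * B.Kf e (fun z => F z * B.v k z) (fun z => F z * B.v k z) := by
  unfold Kf Kop
  simp only [Finset.mul_sum]
  conv_rhs => rw [Finset.sum_comm]
  apply Finset.sum_congr rfl
  intro z _
  conv_rhs => rw [Finset.sum_comm]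
  apply Finset.sum_congr rfl
  intro z' _
  rw [sq]
  nth_rewrite 1 [ker]
  rw [Finset.sum_mul, Finset.mul_sum, Finset.mul_sum]
  apply Finset.sum_congr rfl
  intro k _
  ring

theorem schur_nonneg {e : ℝ → ℝ} (he : ∀ t, 0 ≤ e t) (F : Slice ι w → ℝ) :
    0 ≤ ∑ z, ∑ z', F z * F z' * B.ker e z z' ^ 2 := by
  rw [schur_form]
  apply Finset.sum_nonneg
  intro k _
  apply mul_nonneg (he _)
  apply Finset.sum_nonneg
  intro l _
  exact mul_nonneg (he _) (sq_nonneg _)

theorem schur_ge {e : ℝ → ℝ} (he : ∀ t, 0 ≤ e t) {c : ℝ}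
    (H : ∀ f : Slice ι w → ℝ, c * ∑ k, e (B.lam k) * (B.co k f) ^ 2 ≤ B.Kf e f f)
    (F : Slice ι w → ℝ) :
    c * ∑ z, ∑ z', F z * F z' * B.ker e z z' ^ 2
      ≤ ∑ z, ∑ z', F z * F z' * (rho z z' * B.ker e z z' ^ 2) := by
  rw [schur_form, schur_rho, Finset.mul_sum]
  apply Finset.sum_le_sum
  intro k _
  calc c * (e (B.lam k) * ∑ l, e (B.lam l) * B.co l (fun z => F z * B.v k z) ^ 2)
      = e (B.lam k) * (c * ∑ l, e (B.lam l) * B.co l (fun z => F z * B.v k z) ^ 2) := by ring
    _ ≤ _ := mul_le_mul_of_nonneg_left (H _) (he _)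

theorem co_v (k l : Slice ι w) : B.co l (B.v k) = if l = k then 1 else 0 := B.orth l k

theorem sum_ker_sq (e : ℝ → ℝ) :
    ∑ z, ∑ z', B.ker e z z' ^ 2 = ∑ k, e (B.lam k) ^ 2 := by
  have h := B.schur_form e (fun _ => 1)
  simp only [one_mul] at h
  rw [h]
  apply Finset.sum_congr rfl
  intro k _
  have : ∀ l, e (B.lam l) * B.co l (fun z => B.v k z) ^ 2
      = if l = k then e (B.lam l) else 0 := by
    intro l
    have h2 : B.co l (fun z => B.v k z) = if l = k then 1 else 0 := B.co_v k l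
    rw [h2]
    split_ifs <;> simp
  simp only [this, Finset.sum_ite_eq', Finset.mem_univ, if_true]
  ring

theorem sum_ker_diag (e : ℝ → ℝ) : ∑ z, B.ker e z z = ∑ k, e (B.lam k) := by
  unfold ker
  rw [Finset.sum_comm]
  apply Finset.sum_congr rfl
  intro k _
  have := B.orth k k
  rw [if_pos rfl] at this
  calc ∑ z, e (B.lam k) * B.v k z * B.v k z = e (B.lam k) * ∑ z, B.v k z * B.v k z := by
        rw [Finset.mul_sum]
        apply Finset.sum_congr rfl
        intro z _
        ring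
    _ = _ := by rw [this, mul_one]

theorem sum_ker_diag_sq (e : ℝ → ℝ) :
    (Fintype.card (Slice ι w) : ℝ) * ∑ z, B.ker e z z ^ 2 = (∑ k, e (B.lam k)) ^ 2 := by
  rw [← sum_ker_diag]
  rcases isEmpty_or_nonempty (Slice ι w) with h | ⟨⟨z₀⟩⟩
  · simp
  · have h1 : ∀ z, B.ker e z z = B.ker e z₀ z₀ := by
      intro z
      obtain ⟨σ, hσ⟩ := exists_act z₀ z
      rw [← hσ, B.ker_act]
    simp only [h1, Finset.sum_const, nsmul_eq_mul, Finset.card_univ]
    ring

end EB

end Pool.Agent.Lib.MP_0430e4_lc.Tensor
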