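import Pool.Agent.Lib.MP_0430e4_lc.Limit
import Pool.Agent.Lib.MP_0430e4_lc.Shannon

/-!
# The Lovász theta number of the graphs of close binary words
-/

set_option autoImplicit false

namespace Pool.Agent.Lib.MP_0430e4_lc

open Finset

/-- `t` is the value of an orthonormal representation of `G` with a unit handle `c`:
unit vectors `u v`, orthogonal for distinct nonadjacent vertices, with `⟨c, u v⟩² ≥ 1 / t`. -/
def IsThetaBound {V : Type} (G : SimpleGraph V) (t : ℝ) : Prop :=
  0 < t ∧ ∃ (ι : Type) (_ : Fintype ι) (u : V → EuclideanSpace ℝ ι) (c : EuclideanSpace ℝ ι),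
    ‖c‖ = 1 ∧ (∀ v, ‖u v‖ = 1) ∧
    (∀ v w, v ≠ w → ¬ G.Adj v w → inner ℝ (u v) (u w) = 0) ∧
    ∀ v, 1 / t ≤ (inner ℝ c (u v)) ^ 2

/-- The Lovász theta number. -/
noncomputable def lovaszTheta {V : Type} (G : SimpleGraph V) : ℝ :=
  sInf {t : ℝ | IsThetaBound G t}

section General

variable {V : Type} [Fintype V]

theorem isThetaBound_card [Nonempty V] (G : SimpleGraph V) :
    IsThetaBound G (Fintype.card V) := by
  classical
  have hc : (0 : ℝ) < Fintype.card V := by exact_mod_cast Fintype.card_pos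
  refine ⟨hc, V, inferInstance, fun v => EuclideanSpace.single v 1,
    WithLp.toLp 2 (fun _ => (Real.sqrt (Fintype.card V))⁻¹), ?_, ?_, ?_, ?_⟩
  · rw [EuclideanSpace.norm_eq]
    simp only [Real.norm_eq_abs, sq_abs, Finset.sum_const, Finset.card_univ, nsmul_eq_mul]
    rw [inv_pow, Real.sq_sqrt hc.le, mul_inv_cancel₀ hc.ne', Real.sqrt_one]
  · intro v
    simp
  · intro v w hvw _
    rw [EuclideanSpace.inner_single_left]
    simp [hvw]
  · intro v
    rw [EuclideanSpace.inner_single_right]
    simp only [conj_trivial, one_mul, one_div]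
    rw [inv_pow, Real.sq_sqrt hc.le]

theorem indep_le_of_isThetaBound {G : SimpleGraph V} {t : ℝ} (h : IsThetaBound G t) :
    (G.indepNum : ℝ) ≤ t := by
  classical
  obtain ⟨ht, ι, hι, u, c, hc, hu, horth, hb⟩ := h
  obtain ⟨s, hs, hcard⟩ := exists_indep G
  rw [← hcard]
  have hon : Orthonormal ℝ (fun v : s => u v) := by
    refine ⟨fun v => hu v, fun v w hvw => ?_⟩
    have hne : (v : V) ≠ w := fun h => hvw (Subtype.ext h)
    exact horth v w hne (hs v v.2 w w.2 hne)
  have h1 := hon.sum_inner_products_le c (s := Finset.univ)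
  rw [hc, one_pow] at h1
  have h2 : (#s : ℝ) * (1 / t) ≤ ∑ v : s, ‖inner ℝ (u v) c‖ ^ 2 := by
    calc (#s : ℝ) * (1 / t) = ∑ v : s, (1 / t) := by simp
      _ ≤ _ := by
        apply Finset.sum_le_sum
        intro v _
        rw [Real.norm_eq_abs, sq_abs, real_inner_comm]
        exact hb v
  have h3 : (#s : ℝ) * (1 / t) ≤ 1 := h2.trans h1
  rw [mul_one_div, div_le_one ht] at h3
  exact h3

theorem theta_le {G : SimpleGraph V} {t : ℝ} (h : IsThetaBound G t) : lovaszTheta G ≤ t := by
  exact csInf_le (s := {t : ℝ | IsThetaBound G t}) ⟨0, fun x hx => hx.1.le⟩ h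

theorem indepNum_le_theta [Nonempty V] (G : SimpleGraph V) :
    (G.indepNum : ℝ) ≤ lovaszTheta G := by
  refine le_csInf ⟨_, isThetaBound_card G⟩ ?_
  intro t ht
  exact indep_le_of_isThetaBound ht

theorem one_le_theta [Nonempty V] (G : SimpleGraph V) : 1 ≤ lovaszTheta G := by
  refine le_trans ?_ (indepNum_le_theta G)
  exact_mod_cast one_le_indepNum G

end General

/-- Tensor products of representations. -/
theorem theta_mul {V W X : Type} [Fintype V] [Fintype W] [Fintype X] [Nonempty V] [Nonempty W]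
    (G : SimpleGraph V) (H : SimpleGraph W) (K : SimpleGraph X) (f : X → V) (g : X → W)
    (hfg : ∀ x y, x ≠ y → ¬ K.Adj x y →
      (f x ≠ f y ∧ ¬ G.Adj (f x) (f y)) ∨ (g x ≠ g y ∧ ¬ H.Adj (g x) (g y))) :
    lovaszTheta K ≤ lovaszTheta G * lovaszTheta H := by
  have key : ∀ s, IsThetaBound G s → ∀ t, IsThetaBound H t → lovaszTheta K ≤ s * t := by
    rintro s ⟨hs, ι, hι, u, c, hc, hu, horth, hb⟩ t ⟨ht, κ, hκ, w, e, he, hw, horth', hb'⟩
    apply theta_le
    have hin : ∀ (a a' : EuclideanSpace ℝ ι) (b b' : EuclideanSpace ℝ κ),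
        inner ℝ (WithLp.toLp 2 (fun p : ι × κ => a p.1 * b p.2) : EuclideanSpace ℝ (ι × κ))
          (WithLp.toLp 2 (fun p : ι × κ => a' p.1 * b' p.2) : EuclideanSpace ℝ (ι × κ))
          = inner ℝ a a' * inner ℝ b b' := by
      intro a a' b b'
      simp only [PiLp.inner_apply, RCLike.inner_apply, conj_trivial]
      rw [Fintype.sum_prod_type, Finset.sum_mul_sum]
      apply Finset.sum_congr rfl
      intro i _
      apply Finset.sum_congr rfl
      intro j _
      ring
    have hnorm : ∀ (a : EuclideanSpace ℝ ι) (b : EuclideanSpace ℝ κ), ‖a‖ = 1 → ‖b‖ = 1 →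
        ‖(WithLp.toLp 2 (fun p : ι × κ => a p.1 * b p.2) : EuclideanSpace ℝ (ι × κ))‖ = 1 := by
      intro a b ha hb
      have h1 := hin a a b b
      rw [real_inner_self_eq_norm_sq, real_inner_self_eq_norm_sq, real_inner_self_eq_norm_sq,
        ha, hb] at h1
      have h2 : ‖(WithLp.toLp 2 (fun p : ι × κ => a p.1 * b p.2) :
          EuclideanSpace ℝ (ι × κ))‖ ^ 2 = 1 := by
        rw [h1]; norm_num
      have h3 := norm_nonneg (WithLp.toLp 2 (fun p : ι × κ => a p.1 * b p.2) :
          EuclideanSpace ℝ (ι × κ))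
      nlinarith
    refine ⟨by positivity, ι × κ, inferInstance,
      fun x => WithLp.toLp 2 (fun p : ι × κ => u (f x) p.1 * w (g x) p.2),
      WithLp.toLp 2 (fun p : ι × κ => c p.1 * e p.2), hnorm _ _ hc he,
      fun x => hnorm _ _ (hu _) (hw _), ?_, ?_⟩
    · intro x y hxy hadj
      rw [hin]
      rcases hfg x y hxy hadj with h | h
      · rw [horth _ _ h.1 h.2, zero_mul]
      · rw [horth' _ _ h.1 h.2, mul_zero]
    · intro x
      rw [hin, mul_pow]
      calc 1 / (s * t) = (1 / s) * (1 / t) := by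
            rw [one_div_mul_one_div]
        _ ≤ _ := by
          apply mul_le_mul (hb _) (hb' _) (by positivity) (by positivity)
  have hG : 0 < lovaszTheta G := lt_of_lt_of_le one_pos (one_le_theta G)
  have hH : 0 < lovaszTheta H := lt_of_lt_of_le one_pos (one_le_theta H)
  have h1 : ∀ s, IsThetaBound G s → lovaszTheta K ≤ s * lovaszTheta H := by
    intro s hs
    have h2 : lovaszTheta K / s ≤ lovaszTheta H := by
      refine le_csInf ⟨_, isThetaBound_card H⟩ ?_
      intro t ht
      rw [div_le_iff₀ hs.1, mul_comm]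
      exact key s hs t ht
    rw [div_le_iff₀ hs.1, mul_comm] at h2
    exact h2
  have h2 : lovaszTheta K / lovaszTheta H ≤ lovaszTheta G := by
    refine le_csInf ⟨_, isThetaBound_card G⟩ ?_
    intro s hs
    rw [div_le_iff₀ hH]
    exact h1 s hs
  rwa [div_le_iff₀ hH] at h2

section Words

/-- The theta number of `closeGraph n d`. -/
noncomputable def th (n d : ℕ) : ℝ := lovaszTheta (closeGraph n d)

theorem one_le_th (n d : ℕ) : 1 ≤ th n d := one_le_theta _

theorem th_mono (n d d' : ℕ) (h : d ≤ d') : th n d' ≤ th n d := by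
  refine le_csInf ⟨_, isThetaBound_card _⟩ ?_
  rintro t ⟨ht, ι, hι, u, c, hc, hu, horth, hb⟩
  apply theta_le
  refine ⟨ht, ι, hι, u, c, hc, hu, ?_, hb⟩
  intro v w hvw hadj
  apply horth v w hvw
  rw [not_adj_closeGraph hvw] at hadj ⊢
  exact h.trans hadj

theorem th_add (n m d e : ℕ) : th (n + m) (d + e + 1) ≤ th n (d + 1) * th m (e + 1) := by
  apply theta_mul (closeGraph n (d + 1)) (closeGraph m (e + 1)) (closeGraph (n + m) (d + e + 1))
    (fun x t => x (Fin.castAdd m t)) (fun x t => x (Fin.natAdd n t))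
  intro x y hxy hadj
  rw [not_adj_closeGraph hxy, hammingDist_eq_sum, Fin.sum_univ_add] at hadj
  have e1 : hammingDist (fun t => x (Fin.castAdd m t)) (fun t => y (Fin.castAdd m t))
      = ∑ i : Fin n, if x (Fin.castAdd m i) ≠ y (Fin.castAdd m i) then 1 else 0 :=
    hammingDist_eq_sum _ _
  have e2 : hammingDist (fun t => x (Fin.natAdd n t)) (fun t => y (Fin.natAdd n t))
      = ∑ i : Fin m, if x (Fin.natAdd n i) ≠ y (Fin.natAdd n i) then 1 else 0 :=
    hammingDist_eq_sum _ _
  rw [← e1, ← e2] at hadj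
  by_cases h : d + 1 ≤ hammingDist (fun t => x (Fin.castAdd m t)) (fun t => y (Fin.castAdd m t))
  · left
    have hne : (fun t => x (Fin.castAdd m t)) ≠ (fun t => y (Fin.castAdd m t)) := by
      intro h2
      rw [h2, hammingDist_self] at h
      omega
    exact ⟨hne, (not_adj_closeGraph hne).2 h⟩
  · right
    have h3 : e + 1 ≤ hammingDist (fun t => x (Fin.natAdd n t)) (fun t => y (Fin.natAdd n t)) := by
      omega
    have hne : (fun t => x (Fin.natAdd n t)) ≠ (fun t => y (Fin.natAdd n t)) := by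
      intro h2
      rw [h2, hammingDist_self] at h3
      omega
    exact ⟨hne, (not_adj_closeGraph hne).2 h3⟩

theorem th_le_two_pow (n d : ℕ) : th n d ≤ 2 ^ n := by
  have := theta_le (isThetaBound_card (closeGraph n d))
  rw [Fintype.card_fun, Fintype.card_fin, Fintype.card_bool] at this
  simpa [th] using this

theorem th_zero (n : ℕ) : th n 0 = th n 1 := by
  unfold th
  congr 1
  ext x y
  simp only [closeGraph, not_lt_zero, and_false, Order.lt_one_iff, false_iff, not_and]
  intro h h2
  exact h (hammingDist_eq_zero.1 h2)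

theorem th_ext (n r d : ℕ) : th (n + r) d ≤ 2 ^ r * th n d := by
  have h1 : ∀ d, th (n + r) (d + 1) ≤ 2 ^ r * th n (d + 1) := by
    intro d
    have h2 := th_add n r d 0
    rw [add_zero, zero_add] at h2
    calc th (n + r) (d + 1) ≤ th n (d + 1) * th r 1 := h2
      _ ≤ th n (d + 1) * 2 ^ r := by
        have := one_le_th n (d + 1)
        gcongr
        exact th_le_two_pow r 1
      _ = _ := mul_comm _ _
  cases d with
  | zero =>
    rw [th_zero, th_zero]
    exact h1 0
  | succ d => exact h1 d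

theorem th_pow (n k d : ℕ) : th (k * n) (k * d + 1) ≤ th n (d + 1) ^ k := by
  induction k with
  | zero =>
    rw [zero_mul, zero_mul, pow_zero]
    simpa using th_le_two_pow 0 (0 + 1)
  | succ k ih =>
    have h1 := th_add (k * n) n (k * d) d
    have h2 := one_le_th n (d + 1)
    rw [Nat.succ_mul, Nat.succ_mul, pow_succ]
    exact h1.trans (by gcongr)

end Words

end Pool.Agent.Lib.MP_0430e4_lc
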