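import Mathlib

/-!
# Almost every binary code of given minimum distance is nearly optimal
-/

set_option autoImplicit false

namespace Pool.Agent.Lib.MP_0430e4_lc

open Finset Filter Topology

/-- Distinct words of `C` are at Hamming distance at least `d`. -/
def HasDist {n : ℕ} (d : ℕ) (C : Finset (Fin n → Bool)) : Prop :=
  ∀ x ∈ C, ∀ y ∈ C, x ≠ y → d ≤ hammingDist x y

/-- `A(n, d)`. -/
noncomputable def maxSize (n d : ℕ) : ℕ :=
  sSup {m : ℕ | ∃ C : Finset (Fin n → Bool), HasDist d C ∧ C.card = m}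

theorem bddAbove_sizes (n d : ℕ) :
    BddAbove {m : ℕ | ∃ C : Finset (Fin n → Bool), HasDist d C ∧ C.card = m} :=
  ⟨Fintype.card (Fin n → Bool), by rintro m ⟨C, -, rfl⟩; exact Finset.card_le_univ C⟩

theorem card_le_maxSize {n d : ℕ} {C : Finset (Fin n → Bool)} (hC : HasDist d C) :
    C.card ≤ maxSize n d := by
  have h : C.card ∈ {m : ℕ | ∃ C : Finset (Fin n → Bool), HasDist d C ∧ C.card = m} :=
    ⟨C, hC, rfl⟩
  exact le_csSup (bddAbove_sizes n d) h

theorem exists_maxSize (n d : ℕ) : ∃ C : Finset (Fin n → Bool), HasDist d C ∧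
    C.card = maxSize n d := by
  have h : ({m : ℕ | ∃ C : Finset (Fin n → Bool), HasDist d C ∧ C.card = m}).Nonempty :=
    ⟨0, ∅, by simp [HasDist], rfl⟩
  exact Nat.sSup_mem h (bddAbove_sizes n d)

/-- The number of codes is at least `2 ^ A(n, d)`. -/
theorem two_pow_le_codes (n d : ℕ) :
    2 ^ maxSize n d ≤ {C : Finset (Fin n → Bool) | HasDist d C}.ncard := by
  obtain ⟨C, hC, hcard⟩ := exists_maxSize n d
  rw [← hcard, ← Finset.card_powerset, ← Set.ncard_coe_finset]
  apply Set.ncard_le_ncard _ (Set.toFinite _)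
  intro D hD
  rw [Finset.mem_coe, Finset.mem_powerset] at hD
  intro x hx y hy hxy
  exact hC x (hD hx) y (hD hy) hxy

/-- Sets with at most `s` elements. -/
theorem ncard_small {V : Type} [Fintype V] [Nonempty V] (s : ℕ) :
    {C : Finset V | C.card ≤ s}.ncard ≤ 2 * Fintype.card V ^ s := by
  classical
  have hsub : {C : Finset V | C.card ≤ s} ⊆
      {∅} ∪ Set.range (fun f : Fin s → V => Finset.univ.image f) := by
    intro C hC
    rw [Set.mem_ofPred_eq] at hC
    rcases C.eq_empty_or_nonempty with rfl | hne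
    · left; rfl
    · right
      obtain ⟨v, hv⟩ := hne
      refine ⟨fun i => if h : (i : ℕ) < C.card then (C.equivFin.symm ⟨i, h⟩ : V) else v, ?_⟩
      ext w
      simp only [Finset.mem_image, Finset.mem_univ, true_and]
      constructor
      · rintro ⟨i, rfl⟩
        split_ifs with h
        · exact (C.equivFin.symm ⟨i, h⟩).2
        · exact hv
      · intro hw
        refine ⟨⟨C.equivFin ⟨w, hw⟩, lt_of_lt_of_le (C.equivFin ⟨w, hw⟩).2 hC⟩, ?_⟩
        simp
  have h1 : {C : Finset V | C.card ≤ s}.ncard ≤ 1 + Fintype.card V ^ s := by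
    calc {C : Finset V | C.card ≤ s}.ncard
        ≤ ({∅} ∪ Set.range (fun f : Fin s → V => Finset.univ.image f)).ncard :=
          Set.ncard_le_ncard hsub (Set.toFinite _)
      _ ≤ ({∅} : Set (Finset V)).ncard +
          (Set.range (fun f : Fin s → V => Finset.univ.image f)).ncard := Set.ncard_union_le _ _
      _ ≤ 1 + Fintype.card V ^ s := by
          gcongr
          · simp
          · rw [← Set.image_univ]
            refine (Set.ncard_image_le (Set.toFinite _)).trans ?_
            rw [Set.ncard_univ, Nat.card_eq_fintype_card, Fintype.card_fun, Fintype.card_fin]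
  have h2 : 1 ≤ Fintype.card V ^ s := Nat.one_le_pow _ _ Fintype.card_pos
  omega

/-- Few codes are small. -/
theorem ncard_bad (n d : ℕ) (hn : 1 ≤ n) :
    ({C : Finset (Fin n → Bool) | HasDist d C ∧ 2 * n * C.card < maxSize n d}.ncard : ℝ)
      ≤ 2 * (2 : ℝ) ^ (-(maxSize n d : ℝ) / 2) *
        {C : Finset (Fin n → Bool) | HasDist d C}.ncard := by
  set A := maxSize n d with hA
  set s := A / (2 * n) with hs
  have h1 : {C : Finset (Fin n → Bool) | HasDist d C ∧ 2 * n * C.card < A}.ncard
      ≤ 2 * 2 ^ (n * s) := by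
    calc {C : Finset (Fin n → Bool) | HasDist d C ∧ 2 * n * C.card < A}.ncard
        ≤ {C : Finset (Fin n → Bool) | C.card ≤ s}.ncard := by
          apply Set.ncard_le_ncard _ (Set.toFinite _)
          rintro C ⟨-, hC⟩
          rw [Set.mem_ofPred_eq, hs, Nat.le_div_iff_mul_le (by omega)]
          rw [mul_comm]
          exact hC.le
      _ ≤ 2 * Fintype.card (Fin n → Bool) ^ s := ncard_small s
      _ = 2 * 2 ^ (n * s) := by
          rw [Fintype.card_fun, Fintype.card_bool, Fintype.card_fin, pow_mul]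
  have h2 := two_pow_le_codes n d
  rw [← hA] at h2
  have h3 : ((n * s : ℕ) : ℝ) ≤ A / 2 := by
    have h4 : 2 * n * s ≤ A := Nat.mul_div_le A (2 * n)
    have h5 : (2 : ℝ) * ((n * s : ℕ) : ℝ) ≤ A := by
      exact_mod_cast (by rw [← mul_assoc]; exact h4 : 2 * (n * s) ≤ A)
    linarith
  calc ({C : Finset (Fin n → Bool) | HasDist d C ∧ 2 * n * C.card < A}.ncard : ℝ)
      ≤ 2 * 2 ^ (n * s) := by exact_mod_cast h1
    _ = 2 * (2 : ℝ) ^ ((n * s : ℕ) : ℝ) := by rw [Real.rpow_natCast]
    _ ≤ 2 * (2 : ℝ) ^ ((A : ℝ) / 2) := by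
        gcongr
        norm_num
    _ = 2 * (2 : ℝ) ^ (-(A : ℝ) / 2) * (2 : ℝ) ^ (A : ℝ) := by
        rw [mul_assoc, ← Real.rpow_add (by norm_num)]
        congr 2
        ring
    _ ≤ _ := by
        gcongr
        rw [Real.rpow_natCast]
        exact_mod_cast h2

/-! ### The sizes tend to infinity -/

theorem card_patterns {k : ℕ} {a b : Fin k} (hab : a ≠ b) :
    2 * #{p : Fin k → Bool | p a ≠ p b} = 2 ^ k := by
  classical
  have h1 : #{p : Fin k → Bool | p a ≠ p b} = #{p : Fin k → Bool | ¬ p a ≠ p b} := by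
    apply Finset.card_bij (fun p _ => Function.update p a (!(p a)))
    · intro p hp
      simp only [Finset.mem_filter, Finset.mem_univ, true_and] at hp ⊢
      rw [Function.update_self, Function.update_of_ne hab.symm]
      revert hp
      cases p a <;> cases p b <;> simp
    · intro p _ q _ h
      have h2 := congrArg (fun f => Function.update f a (!(f a))) h
      simpa using h2
    · intro p hp
      refine ⟨Function.update p a (!(p a)), ?_, ?_⟩
      · simp only [Finset.mem_filter, Finset.mem_univ, true_and] at hp ⊢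
        rw [Function.update_self, Function.update_of_ne hab.symm]
        revert hp
        cases p a <;> cases p b <;> simp
      · simp
  have h2 := Finset.card_filter_add_card_filter_not (s := (Finset.univ : Finset (Fin k → Bool)))
    (fun p => p a ≠ p b)
  rw [Finset.card_univ, Fintype.card_fun, Fintype.card_fin, Fintype.card_bool] at h2
  omega

theorem le_maxSize (k n : ℕ) {d : ℕ} (hd1 : 1 ≤ d)
    (hd : 2 * d ≤ (n / 2 ^ k) * 2 ^ k) : k ≤ maxSize n d := by
  classical
  obtain ⟨e⟩ : Nonempty (Fin (2 ^ k) ≃ (Fin k → Bool)) :=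
    ⟨Fintype.equivOfCardEq (by simp)⟩
  set q := n / 2 ^ k with hq
  have hpos : 0 < 2 ^ k := by positivity
  set w : Fin k → (Fin n → Bool) := fun a t => e ⟨(t : ℕ) % 2 ^ k, Nat.mod_lt _ hpos⟩ a with hw
  have hdist : ∀ a b : Fin k, a ≠ b → d ≤ hammingDist (w a) (w b) := by
    intro a b hab
    have h1 : #((Finset.univ : Finset (Fin q)) ×ˢ
        (Finset.univ.filter (fun p : Fin k → Bool => p a ≠ p b)))
        ≤ hammingDist (w a) (w b) := by
      rw [hammingDist]
      apply Finset.card_le_card_of_injOn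
        (fun x => if h : (x.1 : ℕ) * 2 ^ k + (e.symm x.2 : ℕ) < n then
          (⟨(x.1 : ℕ) * 2 ^ k + (e.symm x.2 : ℕ), h⟩ : Fin n) else ⟨0, by
            by_contra h0
            have : n = 0 := by omega
            subst this
            simp at hq
            rw [hq] at hd
            omega⟩)
      · rintro ⟨j, p⟩ hjp
        rw [Finset.coe_product, Set.mem_prod] at hjp
        have hp := hjp.2
        simp only [Finset.coe_filter, Finset.mem_univ, true_and, Set.mem_ofPred_eq] at hp
        have hlt : (j : ℕ) * 2 ^ k + (e.symm p : ℕ) < n := by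
          have h2 : (j : ℕ) + 1 ≤ q := j.2
          have h3 : ((j : ℕ) + 1) * 2 ^ k ≤ n :=
            (Nat.mul_le_mul_right _ h2).trans (Nat.div_mul_le_self _ _)
          have h4 := (e.symm p).2
          rw [add_mul, one_mul] at h3
          omega
        simp only [hlt, dif_pos, Finset.coe_filter, Finset.mem_univ, true_and, Set.mem_ofPred_eq,
          hw]
        have h5 : ((j : ℕ) * 2 ^ k + (e.symm p : ℕ)) % 2 ^ k = (e.symm p : ℕ) := by
          rw [Nat.add_comm, Nat.add_mul_mod_self_right, Nat.mod_eq_of_lt (e.symm p).2]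
        simpa [h5] using hp
      · rintro ⟨j, p⟩ hjp ⟨j', p'⟩ hjp' heq
        have hlt : ∀ (j : Fin q) (p : Fin k → Bool), (j : ℕ) * 2 ^ k + (e.symm p : ℕ) < n := by
          intro j p
          have h2 : (j : ℕ) + 1 ≤ q := j.2
          have h3 : ((j : ℕ) + 1) * 2 ^ k ≤ n :=
            (Nat.mul_le_mul_right _ h2).trans (Nat.div_mul_le_self _ _)
          have h4 := (e.symm p).2
          rw [add_mul, one_mul] at h3
          omega
        simp only [hlt, dif_pos, Fin.mk.injEq] at heq
        have h6 : (j : ℕ) = j' := by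
          have h7 : ((j : ℕ) * 2 ^ k + (e.symm p : ℕ)) / 2 ^ k
              = ((j' : ℕ) * 2 ^ k + (e.symm p' : ℕ)) / 2 ^ k := by rw [heq]
          rw [mul_comm, Nat.mul_add_div hpos, mul_comm, Nat.mul_add_div hpos,
            Nat.div_eq_of_lt (e.symm p).2, Nat.div_eq_of_lt (e.symm p').2] at h7
          simpa using h7
        have h8 : (e.symm p : ℕ) = e.symm p' := by
          rw [h6] at heq
          omega
        have h9 : p = p' := e.symm.injective (Fin.ext h8)
        rw [Prod.mk.injEq]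
        exact ⟨Fin.ext h6, h9⟩
    rw [Finset.card_product, Finset.card_univ, Fintype.card_fin] at h1
    have h2 := card_patterns hab
    have h3 : 2 * (q * #{p : Fin k → Bool | p a ≠ p b}) = q * 2 ^ k := by
      rw [← h2]; ring
    omega
  have hinj : Function.Injective w := by
    intro a b hab
    by_contra hne
    have := hdist a b hne
    rw [hab, hammingDist_self] at this
    omega
  have hC : HasDist d (Finset.univ.image w) := by
    intro x hx y hy hxy
    obtain ⟨a, -, rfl⟩ := Finset.mem_image.1 hx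
    obtain ⟨b, -, rfl⟩ := Finset.mem_image.1 hy
    exact hdist a b (fun h => hxy (by rw [h]))
  have := card_le_maxSize hC
  rwa [Finset.card_image_of_injective _ hinj, Finset.card_univ, Fintype.card_fin] at this

theorem tendsto_maxSize {δ : ℝ} (h0 : 0 < δ) (h1 : δ < 1 / 2) :
    Tendsto (fun n : ℕ => maxSize n ⌈δ * n⌉₊) atTop atTop := by
  rw [tendsto_atTop]
  intro k
  obtain ⟨N, hN⟩ := exists_nat_ge ((2 ^ k + 2) / (1 - 2 * δ))
  filter_upwards [eventually_ge_atTop (N + 1)] with n hn
  have hn1 : 1 ≤ n := by omega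
  have hn0 : (0 : ℝ) < n := by exact_mod_cast hn1
  apply le_maxSize k n
  · exact Nat.one_le_ceil_iff.2 (by positivity)
  · have h2 : (N : ℝ) ≤ n := by exact_mod_cast (by omega : N ≤ n)
    have h3 : (2 : ℝ) ^ k + 2 ≤ (1 - 2 * δ) * n := by
      have h4 : 0 < 1 - 2 * δ := by linarith
      rw [div_le_iff₀ h4] at hN
      nlinarith
    have h5 : (⌈δ * n⌉₊ : ℝ) < δ * n + 1 := Nat.ceil_lt_add_one (by positivity)
    have h6 : n < (n / 2 ^ k) * 2 ^ k + 2 ^ k := by
      have := Nat.lt_div_mul_add (a := n) (b := 2 ^ k) (by positivity)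
      omega
    have h7 : (n : ℝ) < ((n / 2 ^ k * 2 ^ k : ℕ) : ℝ) + 2 ^ k := by exact_mod_cast h6
    have h8 : ((2 * ⌈δ * n⌉₊ : ℕ) : ℝ) ≤ ((n / 2 ^ k * 2 ^ k : ℕ) : ℝ) := by
      push_cast at h7 ⊢
      linarith
    exact_mod_cast h8

theorem codes_pos (n d : ℕ) : 0 < {C : Finset (Fin n → Bool) | HasDist d C}.ncard :=
  lt_of_lt_of_le (by positivity) (two_pow_le_codes n d)

/-- The proportion of codes whose rate is within `ε` of the largest rate tends to one. -/
theorem tendsto_proportion {δ : ℝ} (h0 : 0 < δ) (h1 : δ < 1 / 2) {ε : ℝ} (hε : 0 < ε) :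
    Tendsto (fun n : ℕ =>
      ({C : Finset (Fin n → Bool) | HasDist ⌈δ * n⌉₊ C ∧
        Real.logb 2 (maxSize n ⌈δ * n⌉₊) / n - ε ≤ Real.logb 2 C.card / n}.ncard : ℝ)
      / ({C : Finset (Fin n → Bool) | HasDist ⌈δ * n⌉₊ C}.ncard : ℝ)) atTop (𝓝 1) := by
  have hA := tendsto_maxSize h0 h1
  have hlow : Tendsto (fun n : ℕ => 1 - 2 * (2 : ℝ) ^ (-(maxSize n ⌈δ * n⌉₊ : ℝ) / 2)) atTop
      (𝓝 (1 - 2 * 0)) := by
    apply Tendsto.const_sub
    apply Tendsto.const_mul
    have h2 : Tendsto (fun n : ℕ => (maxSize n ⌈δ * n⌉₊ : ℝ)) atTop atTop :=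
      tendsto_natCast_atTop_atTop.comp hA
    have h3 : Tendsto (fun n : ℕ => -(maxSize n ⌈δ * n⌉₊ : ℝ) / 2) atTop atBot := by
      apply Tendsto.atBot_div_const (by norm_num)
      exact tendsto_neg_atTop_atBot.comp h2
    exact (tendsto_rpow_atBot_of_base_gt_one 2 (by norm_num)).comp h3
  have e : (1 : ℝ) - 2 * 0 = 1 := by norm_num
  rw [e] at hlow
  have hexp : ∀ᶠ n : ℕ in atTop, (2 : ℝ) * n ≤ 2 ^ (ε * n) := by
    have hr1 : (2 : ℝ) ^ (-ε) < 1 := Real.rpow_lt_one_of_one_lt_of_neg (by norm_num) (by linarith)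
    have h2 := tendsto_self_mul_const_pow_of_lt_one (r := (2 : ℝ) ^ (-ε)) (by positivity) hr1
    filter_upwards [h2.eventually_lt_const (by norm_num : (0 : ℝ) < 1 / 2)] with n hn
    have h3 : ((2 : ℝ) ^ (-ε)) ^ n = (2 ^ (ε * n))⁻¹ := by
      rw [← Real.rpow_natCast, ← Real.rpow_mul (by norm_num), ← Real.rpow_neg (by norm_num)]
      congr 1
      ring
    rw [h3, ← div_eq_mul_inv, div_lt_iff₀ (by positivity)] at hn
    linarith
  apply tendsto_of_tendsto_of_tendsto_of_le_of_le' hlow tendsto_const_nhds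
  · filter_upwards [hexp, eventually_ge_atTop 1, hA.eventually_ge_atTop 1] with n hn hn1 hA1
    have hn0 : (0 : ℝ) < n := by exact_mod_cast hn1
    have hpos : (0 : ℝ) < ({C : Finset (Fin n → Bool) | HasDist ⌈δ * n⌉₊ C}.ncard : ℝ) := by
      exact_mod_cast codes_pos n _
    rw [le_div_iff₀ hpos, sub_mul, one_mul, sub_le_iff_le_add]
    have hbad := ncard_bad n ⌈δ * n⌉₊ hn1
    refine le_trans ?_ (add_le_add_right hbad _)
    have hsub : {C : Finset (Fin n → Bool) | HasDist ⌈δ * n⌉₊ C} ⊆
        {C : Finset (Fin n → Bool) | HasDist ⌈δ * n⌉₊ C ∧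
          Real.logb 2 (maxSize n ⌈δ * n⌉₊) / n - ε ≤ Real.logb 2 C.card / n} ∪
        {C : Finset (Fin n → Bool) | HasDist ⌈δ * n⌉₊ C ∧
          2 * n * C.card < maxSize n ⌈δ * n⌉₊} := by
      intro C hC
      by_cases hb : 2 * n * C.card < maxSize n ⌈δ * n⌉₊
      · right
        exact ⟨hC, hb⟩
      · left
        refine ⟨hC, ?_⟩
        rw [not_lt] at hb
        have hc0 : 0 < C.card := by
          rcases Nat.eq_zero_or_pos C.card with h | h
          · rw [h, mul_zero] at hb
            omega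
          · exact h
        have hc0' : (0 : ℝ) < C.card := by exact_mod_cast hc0
        have hA0 : (0 : ℝ) < maxSize n ⌈δ * n⌉₊ := by exact_mod_cast hA1
        have hb' : (maxSize n ⌈δ * n⌉₊ : ℝ) ≤ 2 ^ (ε * n) * C.card := by
          calc (maxSize n ⌈δ * n⌉₊ : ℝ) ≤ 2 * n * C.card := by exact_mod_cast hb
            _ ≤ _ := by gcongr
        have hl := Real.logb_le_logb_of_le (b := 2) (by norm_num) hA0 hb'
        rw [Real.logb_mul (by positivity) hc0'.ne', Real.logb_rpow (by norm_num) (by norm_num)]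
          at hl
        rw [sub_le_iff_le_add, div_add' _ _ _ hn0.ne']
        gcongr
        linarith
    have hc := (Set.ncard_le_ncard hsub (Set.toFinite _)).trans (Set.ncard_union_le _ _)
    exact_mod_cast hc
  · filter_upwards with n
    apply div_le_one_of_le₀ _ (Nat.cast_nonneg _)
    have : {C : Finset (Fin n → Bool) | HasDist ⌈δ * n⌉₊ C ∧
        Real.logb 2 (maxSize n ⌈δ * n⌉₊) / n - ε ≤ Real.logb 2 C.card / n}.ncard ≤
        {C : Finset (Fin n → Bool) | HasDist ⌈δ * n⌉₊ C}.ncard :=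
      Set.ncard_le_ncard (fun C hC => hC.1) (Set.toFinite _)
    exact_mod_cast this

end Pool.Agent.Lib.MP_0430e4_lc
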